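import Pool.Agent.MPdc7581.Ext

/-!
# The cubic cover of the line punctured at `0` and `1`
-/

set_option linter.unusedSectionVars false
set_option linter.unusedSimpArgs false

open Polynomial

namespace Pool.Agent.MPdc7581

/-- no polynomial solutions of the system -/
lemma ode_poly {c : ℕ} (hc : c % 2 = 1) {A B : ℂ[X]}
    (h1 : 6 * (X * (X - 1)) * derivative A = (c : ℂ[X]) * (2 * X - 1) * A + 3 * X * A + 3 * X * B)
    (h2 : 6 * (X * (X - 1)) * derivative B = (c : ℂ[X]) * (2 * X - 1) * B - 3 * X * B - 3 * A) :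
    A = 0 ∧ B = 0 := by
  have e1 : X * (C 6 * (X * derivative A)) - X * (C 6 * derivative A) = X * (C (2 * c : ℂ) * A)
      - C (c : ℂ) * A + X * (C 3 * A) + X * (C 3 * B) := by
    have h3 : (C (2 * c : ℂ) : ℂ[X]) = 2 * (c : ℂ[X]) := by
      rw [map_mul, Polynomial.C_eq_natCast]; rfl
    have h4 : (C (c : ℂ) : ℂ[X]) = (c : ℂ[X]) := by simp
    have h5 : (C (6 : ℂ) : ℂ[X]) = 6 := rfl
    have h6 : (C (3 : ℂ) : ℂ[X]) = 3 := rfl
    rw [h3, h4, h5, h6]
    linear_combination h1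
  have e2 : X * (C 6 * (X * derivative B)) - X * (C 6 * derivative B) = X * (C (2 * c : ℂ) * B)
      - C (c : ℂ) * B - X * (C 3 * B) - C 3 * A := by
    have h3 : (C (2 * c : ℂ) : ℂ[X]) = 2 * (c : ℂ[X]) := by
      rw [map_mul, Polynomial.C_eq_natCast]; rfl
    have h4 : (C (c : ℂ) : ℂ[X]) = (c : ℂ[X]) := by simp
    have h5 : (C (6 : ℂ) : ℂ[X]) = 6 := rfl
    have h6 : (C (3 : ℂ) : ℂ[X]) = 3 := rfl
    rw [h3, h4, h5, h6]
    linear_combination h2
  have hX : ∀ (Q : ℂ[X]) (m : ℕ), (X * derivative Q).coeff m = m * Q.coeff m := by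
    intro Q m
    cases m with
    | zero => simp
    | succ m => rw [Polynomial.coeff_X_mul, Polynomial.coeff_derivative]; push_cast; ring
  have key : ∀ m : ℕ, A.coeff m = 0 ∧ B.coeff m = 0 := by
    intro m
    have hne : ((c : ℂ) - 6 * m) ≠ 0 := by
      intro h
      have h3 : (c : ℂ) = ((6 * m : ℕ) : ℂ) := by push_cast; linear_combination h
      have h4 : c = 6 * m := by exact_mod_cast h3
      omega
    induction m with
    | zero =>
      have f1 := congrArg (fun q => q.coeff 0) e1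
      have f2 := congrArg (fun q => q.coeff 0) e2
      simp only [Polynomial.coeff_sub, Polynomial.coeff_add, Polynomial.coeff_X_mul_zero,
        Polynomial.coeff_C_mul] at f1 f2
      have ha : A.coeff 0 = 0 := by
        have : ((c : ℂ) - 6 * ((0 : ℕ) : ℂ)) * A.coeff 0 = 0 := by push_cast; linear_combination f1
        exact (mul_eq_zero.1 this).resolve_left hne
      refine ⟨ha, ?_⟩
      have : ((c : ℂ) - 6 * ((0 : ℕ) : ℂ)) * B.coeff 0 = 0 := by
        push_cast; linear_combination f2 - 3 * ha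
      exact (mul_eq_zero.1 this).resolve_left hne
    | succ m ih =>
      have hne' : ((c : ℂ) - 6 * m) ≠ 0 := by
        intro h
        have h3 : (c : ℂ) = ((6 * m : ℕ) : ℂ) := by push_cast; linear_combination h
        have h4 : c = 6 * m := by exact_mod_cast h3
        omega
      obtain ⟨i1, i2⟩ := ih hne'
      have f1 := congrArg (fun q => q.coeff (m + 1)) e1
      have f2 := congrArg (fun q => q.coeff (m + 1)) e2
      simp only [Polynomial.coeff_sub, Polynomial.coeff_add, Polynomial.coeff_X_mul,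
        Polynomial.coeff_C_mul, hX, Polynomial.coeff_derivative, i1, i2] at f1 f2
      have ha : A.coeff (m + 1) = 0 := by
        have : ((c : ℂ) - 6 * ((m + 1 : ℕ) : ℂ)) * A.coeff (m + 1) = 0 := by
          push_cast; linear_combination f1
        exact (mul_eq_zero.1 this).resolve_left hne
      refine ⟨ha, ?_⟩
      have : ((c : ℂ) - 6 * ((m + 1 : ℕ) : ℂ)) * B.coeff (m + 1) = 0 := by
        push_cast; linear_combination f2 - 3 * ha
      exact (mul_eq_zero.1 this).resolve_left hne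
  exact ⟨Polynomial.ext fun m => (key m).1, Polynomial.ext fun m => (key m).2⟩

/-- the two punctures -/
def p0 : Fin 2 → ℂ := ![0, 1]

lemma PP_p0 : PP p0 = X * (X - 1) := by
  unfold PP p0
  rw [Fin.prod_univ_two]
  simp

section

variable {K : Type} [CommRing K] [Algebra ℂ K] {t : K} {D : Derivation ℂ K K}
  (c0 : Chart p0 t D)

include c0

lemma aeval_PP_p0 : aeval t (PP p0) = t * (t - 1) := by
  rw [PP_p0]; simp

lemma tE : t * (t - 1) * Chart.E p0 t = 1 := by
  rw [← aeval_PP_p0 c0]; exact c0.E_mul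

lemma e0_eq : Chart.e p0 t 0 = (t - 1) * Chart.E p0 t := by
  have h := c0.e_mul 0
  have h2 := tE c0
  have h3 : (t - algebraMap ℂ K (p0 0)) = t := by simp [p0]
  rw [h3] at h
  calc Chart.e p0 t 0 = (t * (t - 1) * Chart.E p0 t) * Chart.e p0 t 0 := by rw [h2, one_mul]
    _ = (t - 1) * Chart.E p0 t * (t * Chart.e p0 t 0) := by ring
    _ = _ := by rw [h, mul_one]

lemma e1_eq : Chart.e p0 t 1 = t * Chart.E p0 t := by
  have h := c0.e_mul 1
  have h2 := tE c0
  have h3 : (t - algebraMap ℂ K (p0 1)) = t - 1 := by simp [p0]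
  rw [h3] at h
  calc Chart.e p0 t 1 = (t * (t - 1) * Chart.E p0 t) * Chart.e p0 t 1 := by rw [h2, one_mul]
    _ = t * Chart.E p0 t * ((t - 1) * Chart.e p0 t 1) := by ring
    _ = _ := by rw [h, mul_one]

lemma δE0 : D (Chart.E p0 t) = - (Chart.E p0 t ^ 2 * (2 * t - 1)) := by
  rw [c0.δ_E, PP_p0]
  simp
  ring

/-- no solutions of the system -/
lemma ode_K0 {c : ℕ} (hc : c % 2 = 1) {a b : K}
    (h1 : 6 * (t * (t - 1)) * D a = (c : K) * (2 * t - 1) * a + 3 * t * a + 3 * t * b)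
    (h2 : 6 * (t * (t - 1)) * D b = (c : K) * (2 * t - 1) * b - 3 * t * b - 3 * a) :
    a = 0 ∧ b = 0 := by
  obtain ⟨E, hE⟩ : ∃ E, E = Chart.E p0 t := ⟨_, rfl⟩
  have hE1 : t * (t - 1) * E = 1 := by rw [hE]; exact tE c0
  have hDE : D E = - (E ^ 2 * (2 * t - 1)) := by rw [hE]; exact δE0 c0
  obtain ⟨N1, A1, ha⟩ := c0.form a
  obtain ⟨N2, B1, hb⟩ := c0.form b
  rw [← hE] at ha hb
  obtain ⟨N, hN⟩ : ∃ N, N = N1 + N2 := ⟨_, rfl⟩
  obtain ⟨A, hA⟩ : ∃ A : ℂ[X], A = A1 * (X * (X - 1)) ^ N2 := ⟨_, rfl⟩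
  obtain ⟨B, hB⟩ : ∃ B : ℂ[X], B = B1 * (X * (X - 1)) ^ N1 := ⟨_, rfl⟩
  have ha' : a = aeval t A * E ^ N := by
    rw [ha, hA, hN]
    simp only [map_mul, map_pow, aeval_X, map_sub, map_one]
    have : aeval t A1 * (t * (t - 1)) ^ N2 * E ^ (N1 + N2)
      = aeval t A1 * E ^ N1 * ((t * (t - 1)) * E) ^ N2 := by rw [pow_add, mul_pow _ E]; ring
    rw [this, hE1, one_pow, mul_one]
  have hb' : b = aeval t B * E ^ N := by
    rw [hb, hB, hN]
    simp only [map_mul, map_pow, aeval_X, map_sub, map_one]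
    have : aeval t B1 * (t * (t - 1)) ^ N1 * E ^ (N1 + N2)
      = aeval t B1 * E ^ N2 * ((t * (t - 1)) * E) ^ N1 := by rw [pow_add, mul_pow _ E]; ring
    rw [this, hE1, one_pow, mul_one]
  have hD : ∀ Q : ℂ[X], (t * (t - 1)) * D (aeval t Q * E ^ N)
      = E ^ N * ((t * (t - 1)) * aeval t (derivative Q) - N * (2 * t - 1) * aeval t Q) := by
    intro Q
    rw [Derivation.leibniz, c0.δ_aeval, Derivation.leibniz_pow, hDE]
    simp only [smul_eq_mul, nsmul_eq_mul]
    have e4 : (N : K) * (E ^ (N - 1) * E ^ 2 * (t * (t - 1))) = N * E ^ N := by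
      rcases Nat.eq_zero_or_pos N with hN | hN
      · subst hN; simp
      · have : E ^ (N - 1) * E ^ 2 * (t * (t - 1)) = E ^ (N - 1) * E * (t * (t - 1) * E) := by ring
        rw [this, hE1, mul_one, ← pow_succ, Nat.sub_add_cancel hN]
    linear_combination (-(2 * t - 1) * aeval t Q) * e4
  have hu : IsUnit E := IsUnit.of_mul_eq_one _ (by rw [mul_comm]; exact hE1)
  have hc' : (c + 6 * N) % 2 = 1 := by omega
  have k1 : 6 * (X * (X - 1)) * derivative A = ((c + 6 * N : ℕ) : ℂ[X]) * (2 * X - 1) * A + 3 * X * A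
      + 3 * X * B := by
    apply c0.inj'
    apply (hu.pow N).mul_left_cancel
    have h3 := hD A
    rw [← ha'] at h3
    have h4 : E ^ N * aeval t A = a := by rw [ha', mul_comm]
    have h5 : E ^ N * aeval t B = b := by rw [hb', mul_comm]
    simp only [map_mul, map_add, map_sub, aeval_X, map_one, map_natCast, map_ofNat]
    push_cast
    rw [ha', hb'] at h1
    rw [ha'] at h3
    linear_combination h1 - 6 * h3
  have k2 : 6 * (X * (X - 1)) * derivative B = ((c + 6 * N : ℕ) : ℂ[X]) * (2 * X - 1) * B - 3 * X * B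
      - 3 * A := by
    apply c0.inj'
    apply (hu.pow N).mul_left_cancel
    have h3 := hD B
    simp only [map_mul, map_add, map_sub, aeval_X, map_one, map_natCast, map_ofNat]
    push_cast
    rw [ha', hb'] at h2
    linear_combination h2 - 6 * h3
  obtain ⟨z1, z2⟩ := ode_poly hc' k1 k2
  rw [ha', hb', z1, z2]
  simp

end

/-- the cubic cover, with what we need about it -/
structure Base {K : Type} [CommRing K] [Algebra ℂ K] (t σ : K) (D : Derivation ℂ K K) : Prop where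
  nontriv : Nontrivial K
  rel : σ ^ 3 * (t * (1 - t)) = 1
  Dt : D t = 1
  surj : ∀ f : K, ∃ (h : K) (α0 α1 α2 α3 : ℂ), f = D h + algebraMap ℂ K α0 * (σ ^ 3 * (1 - t))
    + algebraMap ℂ K α1 * (- (σ ^ 3 * t)) + algebraMap ℂ K α2 * σ ^ 4 + algebraMap ℂ K α3 * σ ^ 5
  inj : ∀ (h : K) (α0 α1 α2 α3 : ℂ), D h = algebraMap ℂ K α0 * (σ ^ 3 * (1 - t))
    + algebraMap ℂ K α1 * (- (σ ^ 3 * t)) + algebraMap ℂ K α2 * σ ^ 4 + algebraMap ℂ K α3 * σ ^ 5 →
      α0 = 0 ∧ α1 = 0 ∧ α2 = 0 ∧ α3 = 0 ∧ ∃ c : ℂ, h = algebraMap ℂ K c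
  ode : ∀ a b : K, 6 * (t * (t - 1)) * D a = (2 * t - 1) * a + 3 * t * a + 3 * t * b →
    6 * (t * (t - 1)) * D b = (2 * t - 1) * b - 3 * t * b - 3 * a → a = 0 ∧ b = 0
  lift : ∀ (A : Type) [CommRing A] [Algebra ℂ A] (t' σ' : A), σ' ^ 3 * (t' * (1 - t')) = 1 →
    ∃ f : K →ₐ[ℂ] A, f t = t' ∧ f σ = σ'
  hom_ext : ∀ (A : Type) [CommRing A] [Algebra ℂ A] (f g : K →ₐ[ℂ] A), f t = g t → f σ = g σ → f = g
  gen : ∀ (M : Type) [AddCommGroup M] [Module K M] [Module ℂ M] [IsScalarTower ℂ K M]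
    (Δ : Derivation ℂ K M) (a : K), Δ a = D a • Δ t

end Pool.Agent.MPdc7581
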