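import Pool.Agent.MPdc7581.Base

/-!
# The cubic cover of the line punctured at `0` and `1`: existence
-/

set_option linter.unusedSectionVars false
set_option linter.unusedSimpArgs false

open Polynomial

namespace Pool.Agent.MPdc7581

lemma exists_K0 : ∃ (K : Type) (_ : CommRing K) (_ : Algebra ℂ K) (t : K) (D : Derivation ℂ K K),
    Chart p0 t D ∧ Nontrivial K ∧
    (∀ (A : Type) [CommRing A] [Algebra ℂ A] (t' : A), IsUnit (t' * (1 - t')) →
      ∃ f : K →ₐ[ℂ] A, f t = t') ∧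
    (∀ (A : Type) [CommRing A] [Algebra ℂ A] (f g : K →ₐ[ℂ] A), f t = g t → f = g) ∧
    (∀ (M : Type) [AddCommGroup M] [Module K M] [Module ℂ M] [IsScalarTower ℂ K M]
      (Δ : Derivation ℂ K M) (a : K), Δ a = D a • Δ t) := by
  obtain ⟨D, hD1, hD2⟩ := Pln.exists_deriv p0 (0 : Derivation ℂ ℂ (Pln p0)) 1
  have hc : Chart p0 (Pln.x p0) D := Pln.chart p0 (by
    intro i j hij
    fin_cases i <;> fin_cases j <;> simp [p0] at hij ⊢) (fun k => by rw [hD1]; rfl) hD2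
  refine ⟨Pln p0, inferInstance, inferInstance, Pln.x p0, D, hc, ?_, ?_, ?_, ?_⟩
  · refine ⟨0, 1, fun h => ?_⟩
    have := Pln.inj p0 1 (by rw [map_one, ← h])
    exact one_ne_zero this
  · intro A _ _ t' ht'
    refine ⟨Pln.lift p0 (Algebra.ofId ℂ A) t' ?_, Pln.lift_x _ _ _ _⟩
    intro i
    have h1 : IsUnit t' := isUnit_of_mul_isUnit_left ht'
    have h2 : IsUnit (1 - t') := isUnit_of_mul_isUnit_right ht'
    fin_cases i
    · simpa [p0] using h1
    · have := h2.neg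
      rw [neg_sub] at this
      simpa [p0] using this
  · intro A _ _ f g hfg
    apply Pln.hom_ext
    · intro k
      exact (f.commutes k).trans (g.commutes k).symm
    · exact hfg
  · intro M _ _ _ _ Δ a
    have := Pln.deriv_ext p0 (D1 := Δ) (D2 := (LinearMap.toSpanSingleton (Pln p0) M (Δ (Pln.x p0))).compDer D)
      (fun k => by
        have h1 : Δ (algebraMap ℂ (Pln p0) k) = 0 := Δ.map_algebraMap k
        have h2 : D (algebraMap ℂ (Pln p0) k) = 0 := D.map_algebraMap k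
        refine h1.trans ?_
        change 0 = D (algebraMap ℂ (Pln p0) k) • Δ (Pln.x p0)
        rw [h2, zero_smul])
      (by
        change Δ (Pln.x p0) = D (Pln.x p0) • Δ (Pln.x p0)
        rw [hD2, one_smul]) a
    exact this

lemma nab0 {K : Type} [CommRing K] [Algebra ℂ K] {t : K} {D : Derivation ℂ K K}
    (c0 : Chart p0 t D) (κ : ℂ) (f : K) :
    Chart.nab p0 t D (fun _ => κ) f = D f + algebraMap ℂ K κ * ((2 * t - 1) * Chart.E p0 t) * f := by
  unfold Chart.nab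
  rw [Fin.sum_univ_two, e0_eq c0, e1_eq c0]
  ring

lemma third (j : ℕ) (h : j = 1 ∨ j = 2) (N : ℕ) : (-(j : ℂ) / 3) ≠ N + 1 := by
  intro h1
  have h2 : -(j : ℂ) = 3 * (N + 1) := by rw [← h1]; ring
  have h3 : ((j + 3 * (N + 1) : ℕ) : ℂ) = 0 := by push_cast; linear_combination -h2
  have h4 : j + 3 * (N + 1) = 0 := by exact_mod_cast h3
  omega

lemma third2 (j : ℕ) (h : j = 1 ∨ j = 2) (n : ℕ) :
    (n : ℂ) + ∑ _i : Fin 2, (-(j : ℂ) / 3) ≠ 0 := by
  rw [Fin.sum_univ_two]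
  intro h1
  have h2 : ((3 * n : ℕ) : ℂ) = ((2 * j : ℕ) : ℂ) := by push_cast; linear_combination 3 * h1
  have h3 : 3 * n = 2 * j := by exact_mod_cast h2
  omega

theorem exists_base : ∃ (K : Type) (_ : CommRing K) (_ : Algebra ℂ K) (t σ : K)
    (D : Derivation ℂ K K), Base t σ D := by
  obtain ⟨K0, _, _, t0, D0, c0, hnt, hlift, hext, hgen⟩ := exists_K0
  have := hnt
  obtain ⟨E, hE⟩ : ∃ E, E = Chart.E p0 t0 := ⟨_, rfl⟩
  have hE1 : t0 * (t0 - 1) * E = 1 := by rw [hE]; exact tE c0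
  have hDE : D0 E = - (E ^ 2 * (2 * t0 - 1)) := by rw [hE]; exact δE0 c0
  obtain ⟨u, hu⟩ : ∃ u, u = -E := ⟨_, rfl⟩
  have hu1 : u * (t0 * (1 - t0)) = 1 := by rw [hu]; linear_combination hE1
  have huU : IsUnit u := IsUnit.of_mul_eq_one _ hu1
  obtain ⟨D, hD⟩ := Kum.exists_deriv 3 u (by norm_num) huU
    ((Algebra.linearMap K0 (Kum 3 u)).compDer D0)
  have hD' : ∀ r, D (algebraMap K0 (Kum 3 u) r) = algebraMap K0 (Kum 3 u) (D0 r) := hD
  obtain ⟨am, ham⟩ : ∃ am, am = algebraMap K0 (Kum 3 u) := ⟨_, rfl⟩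
  obtain ⟨σ, hσ⟩ : ∃ σ, σ = Kum.z 3 u := ⟨_, rfl⟩
  obtain ⟨t, ht⟩ : ∃ t, t = am t0 := ⟨_, rfl⟩
  have hamC : ∀ c : ℂ, am (algebraMap ℂ K0 c) = algebraMap ℂ (Kum 3 u) c := fun c => by
    rw [ham, ← IsScalarTower.algebraMap_apply]
  rw [← ham] at hD'
  have hσ3 : σ ^ 3 = am u := by rw [hσ, ham]; exact Kum.z_pow 3 u
  have hamu : am u = - am E := (congrArg am hu).trans (map_neg am E)
  have hrel : σ ^ 3 * (t * (1 - t)) = 1 := by
    rw [hσ3, ht, ← map_one am, ← map_sub, ← map_mul, ← map_mul, hu1]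
  have hDt : D t = 1 := by rw [ht, hD', c0.hx, map_one]
  have hDσ : D σ = σ * am (algebraMap ℂ K0 (-1/3) * ((2 * t0 - 1) * E)) := by
    have h1 := congrArg D hrel
    rw [Derivation.leibniz, Derivation.leibniz_pow, Derivation.leibniz, map_sub, hDt,
      Derivation.map_one_eq_zero] at h1
    simp only [smul_eq_mul, nsmul_eq_mul] at h1
    have h2 : am (algebraMap ℂ K0 (-1/3) * ((2 * t0 - 1) * E))
        = algebraMap ℂ (Kum 3 u) (1/3) * ((2 * t - 1) * σ ^ 3) := by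
      rw [hσ3, hamu, ht, map_mul, hamC, map_mul, map_sub, map_mul, map_ofNat, map_one]
      have : (-1 / 3 : ℂ) = - (1 / 3) := by norm_num
      rw [this, map_neg]
      ring
    have h3 : (3 : Kum 3 u) * algebraMap ℂ (Kum 3 u) (1/3) = 1 := by
      rw [← map_ofNat (algebraMap ℂ (Kum 3 u)) 3, ← map_mul]
      norm_num
    rw [h2]
    push_cast at h1
    linear_combination (algebraMap ℂ (Kum 3 u) (1/3) * σ) * h1 - (3 * algebraMap ℂ (Kum 3 u) (1/3) * D σ) * hrel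
      - (D σ) * h3
  obtain ⟨ρ, hρ⟩ : ∃ ρ, ρ = algebraMap ℂ K0 (-1/3) * ((2 * t0 - 1) * E) := ⟨_, rfl⟩
  rw [← hρ] at hDσ
  have hco : ∀ f : Kum 3 u, ∃ a0 a1 a2 : K0, f = am a0 + am a1 * σ + am a2 * σ ^ 2 := by
    intro f
    obtain ⟨a, ha⟩ := Kum.exists_coords 3 u (by norm_num) f
    refine ⟨a 0, a 1, a 2, ?_⟩
    rw [ha, Fin.sum_univ_three, ham, hσ]
    simp
  have hcu : ∀ a0 a1 a2 : K0, am a0 + am a1 * σ + am a2 * σ ^ 2 = 0 → a0 = 0 ∧ a1 = 0 ∧ a2 = 0 := by
    intro a0 a1 a2 h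
    have := Kum.coords_unique 3 u (by norm_num) ![a0, a1, a2] (by
      rw [Fin.sum_univ_three, ← ham, ← hσ]
      simpa using h)
    exact ⟨this 0, this 1, this 2⟩
  have hDf : ∀ a0 a1 a2 : K0, D (am a0 + am a1 * σ + am a2 * σ ^ 2)
      = am (D0 a0) + am (D0 a1 + ρ * a1) * σ + am (D0 a2 + 2 * ρ * a2) * σ ^ 2 := by
    intro a0 a1 a2
    rw [map_add, map_add, hD', Derivation.leibniz, Derivation.leibniz, Derivation.leibniz_pow, hDσ, hD',
      hD']
    simp only [smul_eq_mul, nsmul_eq_mul, map_add, map_mul, map_ofNat]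
    push_cast
    ring
  have hn1 : ∀ f, Chart.nab p0 t0 D0 (fun _ => -((1 : ℕ) : ℂ) / 3) f = D0 f + ρ * f := by
    intro f
    rw [nab0 c0, hρ, hE]
    push_cast
    ring
  have hn2 : ∀ f, Chart.nab p0 t0 D0 (fun _ => -((2 : ℕ) : ℂ) / 3) f = D0 f + 2 * ρ * f := by
    intro f
    rw [nab0 c0, hρ, hE]
    have : (-((2 : ℕ) : ℂ) / 3) = 2 * (-1/3) := by push_cast; norm_num
    rw [this, map_mul, map_ofNat]
    ring
  have hdeg : ∀ Q : ℂ[X], Q.degree < (1 : ℕ) → ∃ c, Q = C c := by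
    intro Q hQ
    refine ⟨Q.coeff 0, Polynomial.eq_C_of_degree_le_zero ?_⟩
    have : Q.degree < 1 := by exact_mod_cast hQ
    exact Nat.WithBot.lt_one_iff_le_zero.1 this
  have hs3 : am E = -σ ^ 3 := by rw [hσ3, hamu, neg_neg]
  have he0 : am (Chart.e p0 t0 0) = σ ^ 3 * (1 - t) := by
    rw [e0_eq c0, ← hE, map_mul, map_sub, map_one, hs3, ht]; ring
  have he1 : am (Chart.e p0 t0 1) = - (σ ^ 3 * t) := by
    rw [e1_eq c0, ← hE, map_mul, hs3, ht]; ring
  refine ⟨Kum 3 u, inferInstance, inferInstance, t, σ, D, ⟨?_, hrel, hDt, ?_, ?_, ?_, ?_, ?_, ?_⟩⟩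
  · refine ⟨0, 1, fun h => ?_⟩
    have h1 := hcu 1 0 0 (by simp [← h])
    exact one_ne_zero h1.1
  · intro f
    obtain ⟨a0, a1, a2, hf⟩ := hco f
    obtain ⟨h0, α, e0⟩ := c0.surj_res a0
    obtain ⟨h1, Q1, e1, hQ1⟩ := c0.twisted_surj (κ := fun _ => -((1 : ℕ) : ℂ) / 3)
      (fun _ N => third 1 (Or.inl rfl) N) (third2 1 (Or.inl rfl)) a1
    obtain ⟨h2, Q2, e2, hQ2⟩ := c0.twisted_surj (κ := fun _ => -((2 : ℕ) : ℂ) / 3)
      (fun _ N => third 2 (Or.inr rfl) N) (third2 2 (Or.inr rfl)) a2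
    obtain ⟨c1, hc1⟩ := hdeg Q1 hQ1
    obtain ⟨c2, hc2⟩ := hdeg Q2 hQ2
    refine ⟨am h0 + am h1 * σ + am h2 * σ ^ 2, α 0, α 1, -c1, -c2, ?_⟩
    rw [hDf, hf, e0, e1, e2, hn1, hn2, hc1, hc2, ← hE, Fin.sum_univ_two, aeval_C, aeval_C]
    simp only [map_add, map_mul, map_ofNat, hamC, he0, he1, hs3, map_neg]
    ring
  · intro h α0 α1 α2 α3 hh
    obtain ⟨h0, h1, h2, hf⟩ := hco h
    rw [hf, hDf] at hh
    have k := hcu (D0 h0 - (algebraMap ℂ K0 α0 * Chart.e p0 t0 0 + algebraMap ℂ K0 α1 * Chart.e p0 t0 1))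
      (D0 h1 + ρ * h1 + algebraMap ℂ K0 α2 * E) (D0 h2 + 2 * ρ * h2 + algebraMap ℂ K0 α3 * E) (by
        simp only [map_add, map_sub, map_mul, map_ofNat, hamC, he0, he1, hs3, map_neg] at hh ⊢
        linear_combination hh)
    obtain ⟨k0, k1, k2⟩ := k
    obtain ⟨m1, c, m2⟩ := c0.inj_res (h := h0) (a := ![α0, α1]) (by
      rw [Fin.sum_univ_two]
      exact sub_eq_zero.1 k0)
    obtain ⟨n1, n2⟩ := c0.twisted_inj (κ := fun _ => -((1 : ℕ) : ℂ) / 3) (h := h1) (Q := C (-α2))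
      (fun _ N => third 1 (Or.inl rfl) N) (third2 1 (Or.inl rfl))
      (lt_of_le_of_lt Polynomial.degree_C_le (by norm_num)) (by
        rw [hn1, aeval_C, ← hE, map_neg]
        linear_combination k1)
    obtain ⟨q1, q2⟩ := c0.twisted_inj (κ := fun _ => -((2 : ℕ) : ℂ) / 3) (h := h2) (Q := C (-α3))
      (fun _ N => third 2 (Or.inr rfl) N) (third2 2 (Or.inr rfl))
      (lt_of_le_of_lt Polynomial.degree_C_le (by norm_num)) (by
        rw [hn2, aeval_C, ← hE, map_neg]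
        linear_combination k2)
    refine ⟨congrFun m1 0, congrFun m1 1, neg_eq_zero.1 (Polynomial.C_eq_zero.1 n2),
      neg_eq_zero.1 (Polynomial.C_eq_zero.1 q2), c, ?_⟩
    rw [hf, n1, q1, m2, map_zero, zero_mul, zero_mul, add_zero, add_zero, hamC]
  · intro a b ha hb
    obtain ⟨a0, a1, a2, hfa⟩ := hco a
    obtain ⟨b0, b1, b2, hfb⟩ := hco b
    rw [hfa, hfb, hDf, ht] at ha
    rw [hfa, hfb, hDf, ht] at hb
    have h3ρ : t0 * (t0 - 1) * (3 * ρ) = -(2 * t0 - 1) := by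
      have h3 : (3 : K0) * algebraMap ℂ K0 (-1/3) = -1 := by
        rw [← map_ofNat (algebraMap ℂ K0) 3, ← map_mul, ← map_one (algebraMap ℂ K0), ← map_neg]
        norm_num
      rw [hρ]
      linear_combination (t0 * (t0 - 1) * (2 * t0 - 1) * E) * h3 - (2 * t0 - 1) * hE1
    have ka := hcu (6 * (t0 * (t0 - 1)) * D0 a0 - (((1 : ℕ) : K0) * (2 * t0 - 1) * a0 + 3 * t0 * a0 + 3 * t0 * b0))
      (6 * (t0 * (t0 - 1)) * (D0 a1 + ρ * a1) - ((2 * t0 - 1) * a1 + 3 * t0 * a1 + 3 * t0 * b1))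
      (6 * (t0 * (t0 - 1)) * (D0 a2 + 2 * ρ * a2) - ((2 * t0 - 1) * a2 + 3 * t0 * a2 + 3 * t0 * b2)) (by
        simp only [map_add, map_sub, map_mul, map_ofNat, map_one, Nat.cast_one] at ha ⊢
        linear_combination ha)
    have kb := hcu (6 * (t0 * (t0 - 1)) * D0 b0 - (((1 : ℕ) : K0) * (2 * t0 - 1) * b0 - 3 * t0 * b0 - 3 * a0))
      (6 * (t0 * (t0 - 1)) * (D0 b1 + ρ * b1) - ((2 * t0 - 1) * b1 - 3 * t0 * b1 - 3 * a1))
      (6 * (t0 * (t0 - 1)) * (D0 b2 + 2 * ρ * b2) - ((2 * t0 - 1) * b2 - 3 * t0 * b2 - 3 * a2)) (by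
        simp only [map_add, map_sub, map_mul, map_ofNat, map_one, Nat.cast_one] at hb ⊢
        linear_combination hb)
    obtain ⟨ka0, ka1, ka2⟩ := ka
    obtain ⟨kb0, kb1, kb2⟩ := kb
    obtain ⟨x0, y0⟩ := ode_K0 c0 (c := 1) (by norm_num) (sub_eq_zero.1 ka0) (sub_eq_zero.1 kb0)
    obtain ⟨x1, y1⟩ := ode_K0 c0 (c := 3) (a := a1) (b := b1) (by norm_num) (by
        push_cast
        linear_combination ka1 - 2 * a1 * h3ρ) (by
        push_cast
        linear_combination kb1 - 2 * b1 * h3ρ)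
    obtain ⟨x2, y2⟩ := ode_K0 c0 (c := 5) (a := a2) (b := b2) (by norm_num) (by
        push_cast
        linear_combination ka2 - 4 * a2 * h3ρ) (by
        push_cast
        linear_combination kb2 - 4 * b2 * h3ρ)
    rw [hfa, hfb, x0, x1, x2, y0, y1, y2]
    simp
  · intro A _ _ t' σ' h
    obtain ⟨f0, hf0⟩ := hlift A t' (IsUnit.of_mul_eq_one _ (by rw [mul_comm]; exact h))
    have hh : σ' ^ 3 = f0 u := by
      have h1 : f0 u * (t' * (1 - t')) = 1 := by
        rw [← hf0, ← map_one f0, ← map_sub, ← map_mul, ← map_mul, hu1]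
      have hu : IsUnit (t' * (1 - t')) := IsUnit.of_mul_eq_one _ (by rw [mul_comm]; exact h)
      exact hu.mul_right_cancel (h.trans h1.symm)
    refine ⟨Kum.lift 3 u f0 σ' hh, ?_, ?_⟩
    · rw [ht, ham, Kum.lift_R, hf0]
    · rw [hσ, Kum.lift_z]
  · intro A _ _ f g h1 h2
    apply Kum.hom_ext
    · intro r
      have h3 := hext A (f.comp (IsScalarTower.toAlgHom ℂ K0 (Kum 3 u)))
        (g.comp (IsScalarTower.toAlgHom ℂ K0 (Kum 3 u))) (by
          change f (algebraMap K0 (Kum 3 u) t0) = g (algebraMap K0 (Kum 3 u) t0)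
          rw [← ham, ← ht, h1])
      exact congrArg (fun F => F r) h3
    · rw [← hσ, h2]
  · intro M _ _ _ _ Δ a
    letI : Module K0 M := Module.compHom M am
    have hsm : ∀ (c : K0) (x : M), c • x = am c • x := fun c x => rfl
    haveI : IsScalarTower ℂ K0 M := ⟨fun r c x => by
      rw [hsm, hsm, Algebra.smul_def, map_mul, hamC, mul_smul, algebraMap_smul]⟩
    have key := Kum.deriv_ext 3 u (by norm_num) huU (D1 := Δ)
      (D2 := (LinearMap.toSpanSingleton (Kum 3 u) M (Δ t)).compDer D) (fun r => by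
        let Δ0 : Derivation ℂ K0 M :=
          { toFun := fun r => Δ (am r)
            map_add' := fun a b => by rw [map_add, map_add]
            map_smul' := fun r a => by
              have h1 : am (r • a) = r • am a := by
                rw [Algebra.smul_def, map_mul, hamC, ← Algebra.smul_def]
              change Δ (am (r • a)) = r • Δ (am a)
              rw [h1]
              exact Δ.map_smul r (am a)
            map_one_eq_zero' := by
              change Δ (am 1) = 0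
              rw [map_one, Derivation.map_one_eq_zero]
            leibniz' := fun a b => by
              change Δ (am (a * b)) = am a • Δ (am b) + am b • Δ (am a)
              rw [map_mul, Derivation.leibniz] }
        have h := hgen M Δ0 r
        change Δ (am r) = am (D0 r) • Δ (am t0) at h
        change Δ (algebraMap K0 (Kum 3 u) r) = D (algebraMap K0 (Kum 3 u) r) • Δ t
        rw [← ham, hD', h, ht]) a
    exact key

end Pool.Agent.MPdc7581
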