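import Mathlib

/-!
# Commutative differential graded algebras, formality, algebraic de Rham algebras
-/

namespace Pool.Agent.MPdc7581

/-- A commutative differential graded algebra over `ℂ`, graded by `ℕ`. -/
structure CDGA where
  A : Type
  [ring : Ring A]
  [algebra : Algebra ℂ A]
  gr : ℕ → Submodule ℂ A
  internal : DirectSum.IsInternal gr
  one_mem : (1 : A) ∈ gr 0
  mul_mem : ∀ {p q : ℕ} {a b : A}, a ∈ gr p → b ∈ gr q → a * b ∈ gr (p + q)
  mul_comm : ∀ {p q : ℕ} {a b : A}, a ∈ gr p → b ∈ gr q → a * b = (-1) ^ (p * q) * (b * a)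
  d : A →ₗ[ℂ] A
  d_mem : ∀ {p : ℕ} {a : A}, a ∈ gr p → d a ∈ gr (p + 1)
  d_d : ∀ a : A, d (d a) = 0
  leibniz : ∀ {p : ℕ} {a : A} (b : A), a ∈ gr p → d (a * b) = d a * b + (-1) ^ p * (a * d b)

namespace CDGA

instance (A : CDGA) : Ring A.A := A.ring
instance (A : CDGA) : Algebra ℂ A.A := A.algebra

/-- Morphisms of commutative differential graded algebras. -/
structure Hom (A B : CDGA) where
  f : A.A →ₐ[ℂ] B.A
  map_gr : ∀ {p : ℕ} {a : A.A}, a ∈ A.gr p → f a ∈ B.gr p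
  map_d : ∀ a : A.A, f (A.d a) = B.d (f a)

lemma Hom.eq_of_f {A B : CDGA} {f g : Hom A B} (h : f.f = g.f) : f = g := by
  cases f
  cases g
  subst h
  rfl

/-- The map induced on the `p`-th cohomology is injective. -/
def Hom.InjOn {A B : CDGA} (f : Hom A B) (p : ℕ) : Prop :=
  ∀ a ∈ A.gr p, A.d a = 0 → (∃ b, B.d b = f.f a) → ∃ a', A.d a' = a

/-- The map induced on the `p`-th cohomology is surjective. -/
def Hom.SurjOn {A B : CDGA} (f : Hom A B) (p : ℕ) : Prop :=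
  ∀ b ∈ B.gr p, B.d b = 0 → ∃ a ∈ A.gr p, A.d a = 0 ∧ ∃ c, f.f a + B.d c = b

/-- Quasi-isomorphisms. -/
def Hom.QuasiIso {A B : CDGA} (f : Hom A B) : Prop := ∀ p, f.InjOn p ∧ f.SurjOn p

/-- `1`-quasi-isomorphisms: isomorphisms on `H^0` and `H^1`, injective on `H^2`. -/
def Hom.OneQuasiIso {A B : CDGA} (f : Hom A B) : Prop :=
  (f.InjOn 0 ∧ f.SurjOn 0) ∧ (f.InjOn 1 ∧ f.SurjOn 1) ∧ f.InjOn 2

/-- Formality: the algebra is connected by a chain of quasi-isomorphisms with an algebra with zero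
differential. -/
def Formal (A : CDGA) : Prop :=
  ∃ H : CDGA, (∀ a, H.d a = 0) ∧
    Relation.EqvGen (fun A B : CDGA => ∃ f : Hom A B, f.QuasiIso) A H

/-- `1`-formality: the algebra is connected by a chain of `1`-quasi-isomorphisms with an algebra
with zero differential. -/
def OneFormal (A : CDGA) : Prop :=
  ∃ H : CDGA, (∀ a, H.d a = 0) ∧
    Relation.EqvGen (fun A B : CDGA => ∃ f : Hom A B, f.OneQuasiIso) A H

lemma Formal.oneFormal {A : CDGA} (h : A.Formal) : A.OneFormal := by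
  obtain ⟨H, h1, h2⟩ := h
  refine ⟨H, h1, h2.mono ?_⟩
  rintro A B ⟨f, hf⟩
  exact ⟨f, hf 0, hf 1, (hf 2).1⟩

/-- `Ω` with `ι : S → Ω` is the algebraic de Rham algebra of the commutative `ℂ`-algebra `S`: the
universal commutative differential graded algebra with a homomorphism from `S` to its part of
degree `0`. -/
def IsDeRham {S : Type} [CommRing S] [Algebra ℂ S] (Ω : CDGA) (ι : S →ₐ[ℂ] Ω.A) : Prop :=
  (∀ s, ι s ∈ Ω.gr 0) ∧ ∀ (B : CDGA) (φ : S →ₐ[ℂ] B.A), (∀ s, φ s ∈ B.gr 0) →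
    ∃! f : Hom Ω B, ∀ s, f.f (ι s) = φ s

end CDGA

/-- The defining polynomial `∏_{i < j} (z_i - z_j)` of the braid arrangement `A_n` in `ℂ^(n+1)`. -/
noncomputable def braidPoly (n : ℕ) : MvPolynomial (Fin (n + 1)) ℂ :=
  ∏ i : Fin (n + 1), ∏ j ∈ Finset.Ioi i, (MvPolynomial.X i - MvPolynomial.X j)

/-- The coordinate ring of the Milnor fiber of the braid arrangement `A_n`: the affine variety
`∏_{i < j} (z_i - z_j) = 1` in `ℂ^(n+1)`. -/
abbrev MilnorRing (n : ℕ) : Type :=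
  MvPolynomial (Fin (n + 1)) ℂ ⧸ Ideal.span {braidPoly n - 1}

end Pool.Agent.MPdc7581
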