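import Pool.Agent.MPdc7581.Poly

/-!
# Cohomology of the punctured line over a ring
-/

set_option linter.unusedSectionVars false
set_option linter.unusedSimpArgs false

open Polynomial

namespace Pool.Agent.MPdc7581

/-- `T` is the ring of functions on the line over `K` punctured at the points `p i`, with coordinate
`x` and derivation `δ = d/dx`. -/
structure Chart {K T : Type} [CommRing K] [Algebra ℂ K] [CommRing T] [Algebra ℂ T] [Algebra K T]
    {m : ℕ} (p : Fin m → K) (x : T) (δ : Derivation ℂ T T) : Prop where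
  diff : ∀ i j, i ≠ j → IsUnit (p i - p j)
  inj : ∀ B : K[X], aeval x B = 0 → B = 0
  unit : IsUnit (aeval x (PP p))
  surj : ∀ f : T, ∃ (N : ℕ) (B : K[X]), f * (aeval x (PP p)) ^ N = aeval x B
  hx : δ x = 1
  hK : ∀ k : K, δ (algebraMap K T k) = 0

namespace Chart

variable {K T : Type} [CommRing K] [Algebra ℂ K] [CommRing T] [Algebra ℂ T] [Algebra K T]
  [IsScalarTower ℂ K T]

/-- the inverse of the product of all `x - p i` -/
noncomputable def E {m : ℕ} (p : Fin m → K) (x : T) : T := Ring.inverse (aeval x (PP p))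

/-- the inverse of `x - p i` -/
noncomputable def e {m : ℕ} (p : Fin m → K) (x : T) (i : Fin m) : T := aeval x (PE p i) * E p x

/-- the twisted derivation -/
noncomputable def nab {m : ℕ} (p : Fin m → K) (x : T) (δ : Derivation ℂ T T) (κ : Fin m → ℂ) (f : T) :
    T := δ f + (∑ i, algebraMap ℂ T (κ i) * e p x i) * f

lemma nab_add {m : ℕ} (p : Fin m → K) (x : T) (δ : Derivation ℂ T T) (κ : Fin m → ℂ) (f g : T) :
    nab p x δ κ (f + g) = nab p x δ κ f + nab p x δ κ g := by
  unfold nab
  rw [map_add]; ring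

lemma nab_sub {m : ℕ} (p : Fin m → K) (x : T) (δ : Derivation ℂ T T) (κ : Fin m → ℂ) (f g : T) :
    nab p x δ κ (f - g) = nab p x δ κ f - nab p x δ κ g := by
  unfold nab
  rw [map_sub]; ring

section

variable {m : ℕ} {p : Fin m → K} {x : T} {δ : Derivation ℂ T T} (c : Chart p x δ)

include c

lemma E_mul : aeval x (PP p) * E p x = 1 := Ring.mul_inverse_cancel _ c.unit

lemma e_mul (i : Fin m) : (x - algebraMap K T (p i)) * e p x i = 1 := by
  have h : aeval x (PP p) = (x - algebraMap K T (p i)) * aeval x (PE p i) := by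
    rw [PP_eq p i, map_mul]
    simp
  unfold e
  rw [← mul_assoc, ← h, c.E_mul]

lemma δ_aeval (B : K[X]) : δ (aeval x B) = aeval x (derivative B) := by
  induction B using Polynomial.induction_on' with
  | add p q hp hq => rw [map_add, map_add, hp, hq, derivative_add, map_add]
  | monomial n a =>
    rw [derivative_monomial, aeval_monomial, aeval_monomial, Derivation.leibniz, c.hK,
      Derivation.leibniz_pow, c.hx, map_mul]
    simp only [smul_eq_mul, mul_one, smul_zero, add_zero, nsmul_eq_mul, map_natCast]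
    ring

lemma δ_E : δ (E p x) = - (E p x ^ 2 * aeval x (derivative (PP p))) := by
  have h := congrArg δ c.E_mul
  rw [Derivation.leibniz, Derivation.map_one_eq_zero, c.δ_aeval, smul_eq_mul, smul_eq_mul] at h
  have h2 : E p x * (aeval x (PP p) * δ (E p x) + E p x * aeval x (derivative (PP p))) = 0 := by
    rw [h, mul_zero]
  have h3 : E p x * (aeval x (PP p) * δ (E p x) + E p x * aeval x (derivative (PP p)))
      = (aeval x (PP p) * E p x) * δ (E p x) + E p x ^ 2 * aeval x (derivative (PP p)) := by ring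
  rw [h3, c.E_mul, one_mul] at h2
  exact eq_neg_of_add_eq_zero_left h2

lemma form (f : T) : ∃ (N : ℕ) (B : K[X]), f = aeval x B * E p x ^ N := by
  obtain ⟨N, B, h⟩ := c.surj f
  refine ⟨N, B, ?_⟩
  rw [← h, mul_assoc, ← mul_pow, c.E_mul, one_pow, mul_one]

lemma nab_form (κ : Fin m → ℂ) (N : ℕ) (B : K[X]) :
    nab p x δ κ (aeval x B * E p x ^ N) = E p x ^ (N + 1) * aeval x (LL p κ N B) := by
  obtain ⟨s, hs⟩ : ∃ s, s = ∑ i, aeval x (PE p i) := ⟨_, rfl⟩
  obtain ⟨k, hk⟩ : ∃ k, k = ∑ i, algebraMap ℂ T (κ i) * aeval x (PE p i) := ⟨_, rfl⟩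
  have e1 : ∑ i, algebraMap ℂ T (κ i) * e p x i = k * E p x := by
    rw [hk, Finset.sum_mul]
    apply Finset.sum_congr rfl
    intro i _
    unfold e
    ring
  have e2 : aeval x (LL p κ N B) = aeval x (derivative B) * aeval x (PP p)
      + aeval x B * (k - N * s) := by
    unfold LL
    rw [map_add, map_mul, map_sum, hk, hs, Finset.mul_sum, ← Finset.sum_sub_distrib, Finset.mul_sum]
    congr 1
    apply Finset.sum_congr rfl
    intro i _
    rw [map_mul, map_mul, aeval_C, ← IsScalarTower.algebraMap_apply, map_sub, map_natCast]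
    ring
  have e3 : aeval x (derivative (PP p)) = s := by
    rw [derivative_PP, map_sum, hs]
  have e4 : (N : T) * (E p x ^ (N - 1) * E p x ^ 2) = N * E p x ^ (N + 1) := by
    rcases Nat.eq_zero_or_pos N with hN | hN
    · subst hN; simp
    · rw [← pow_add, show N - 1 + 2 = N + 1 by omega]
  unfold nab
  rw [Derivation.leibniz, c.δ_aeval, Derivation.leibniz_pow, c.δ_E, e1, e2, e3]
  simp only [smul_eq_mul, nsmul_eq_mul]
  linear_combination (-(aeval x B * s)) * e4 - (E p x ^ N * aeval x (derivative B)) * c.E_mul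

end

section

variable {m : ℕ} {p : Fin (m + 1) → K} {x : T} {δ : Derivation ℂ T T} (c : Chart p x δ)

include c

/-- Surjectivity onto the twisted cohomology. -/
theorem twisted_surj [Nontrivial K] {κ : Fin (m + 1) → ℂ} (h1 : ∀ i, ∀ N : ℕ, κ i ≠ N + 1)
    (h2 : ∀ n : ℕ, (n : ℂ) + ∑ i, κ i ≠ 0) (f : T) :
    ∃ (h : T) (Q : K[X]), f = nab p x δ κ h + E p x * aeval x Q ∧ Q.degree < m := by
  have key : ∀ (N : ℕ) (B : K[X]), ∃ (h : T) (Q : K[X]),
      aeval x B * E p x ^ (N + 1) = nab p x δ κ h + E p x * aeval x Q ∧ Q.degree < m := by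
    intro N
    induction N with
    | zero =>
      intro B
      obtain ⟨B1, Q, h3, h4⟩ := LL_low (p := p) h2 B
      refine ⟨aeval x B1 * E p x ^ 0, Q, ?_, h4⟩
      rw [c.nab_form, h3, map_add]
      ring
    | succ N ih =>
      intro B
      obtain ⟨B1, A1, h3⟩ := LL_reduce c.diff (κ := κ) (N := N + 1) (fun i => by
        have := h1 i N
        push_cast
        exact this) B
      obtain ⟨h, Q, h4, h5⟩ := ih A1
      refine ⟨aeval x B1 * E p x ^ (N + 1) + h, Q, ?_, h5⟩
      have h6 := congrArg (aeval x) h3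
      rw [map_add, map_mul] at h6
      rw [nab_add, c.nab_form]
      linear_combination E p x ^ (N + 1 + 1) * h6 + h4
        + (E p x ^ (N + 1) * aeval x A1) * c.E_mul
  obtain ⟨N, B, h3⟩ := c.form f
  obtain ⟨h, Q, h4, h5⟩ := key N (B * PP p)
  refine ⟨h, Q, ?_, h5⟩
  rw [← h4, h3, map_mul]
  have : aeval x B * aeval x (PP p) * E p x ^ (N + 1)
      = (aeval x (PP p) * E p x) * (aeval x B * E p x ^ N) := by ring
  rw [this, c.E_mul, one_mul]

lemma isUnit_E : IsUnit (E p x) := by
  have h := c.E_mul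
  exact IsUnit.of_mul_eq_one _ (by rw [mul_comm]; exact h)

lemma inj' {A B : K[X]} (h : aeval x A = aeval x B) : A = B := by
  have := c.inj (A - B) (by rw [map_sub, h, sub_self])
  exact sub_eq_zero.1 this

/-- Injectivity in the twisted cohomology. -/
theorem twisted_inj [Nontrivial K] {κ : Fin (m + 1) → ℂ} (h1 : ∀ i, ∀ N : ℕ, κ i ≠ N + 1)
    (h2 : ∀ n : ℕ, (n : ℂ) + ∑ i, κ i ≠ 0) {h : T} {Q : K[X]} (hQ : Q.degree < m)
    (hh : nab p x δ κ h = E p x * aeval x Q) : h = 0 ∧ Q = 0 := by
  have key : ∀ (N : ℕ) (B : K[X]), nab p x δ κ (aeval x B * E p x ^ N) = E p x * aeval x Q →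
      aeval x B * E p x ^ N = 0 := by
    intro N
    induction N with
    | zero =>
      intro B hB
      rw [c.nab_form, zero_add, pow_one] at hB
      have h3 := c.isUnit_E.mul_left_cancel hB
      have h4 := c.inj' h3
      have h5 : B = 0 := LL_low_inj h2 (by rw [h4]; exact hQ)
      rw [h5, map_zero, zero_mul]
    | succ N ih =>
      intro B hB
      have hB' := hB
      rw [c.nab_form] at hB'
      have h3 : aeval x (LL p κ (N + 1) B) = aeval x (PP p * (PP p ^ N * Q)) := by
        have e1 : (aeval x (PP p)) ^ (N + 1 + 1) * (E p x ^ (N + 1 + 1) * aeval x (LL p κ (N + 1) B))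
            = (aeval x (PP p)) ^ (N + 1 + 1) * (E p x * aeval x Q) := by rw [hB']
        rw [← mul_assoc, ← mul_pow, c.E_mul, one_pow, one_mul] at e1
        rw [e1, map_mul, map_mul, map_pow]
        have e2 : (aeval x (PP p)) ^ (N + 1 + 1) * (E p x * aeval x Q)
            = (aeval x (PP p) * E p x) * (aeval x (PP p) * ((aeval x (PP p)) ^ N * aeval x Q)) := by
          ring
        rw [e2, c.E_mul, one_mul]
      have h4 := c.inj' h3
      obtain ⟨B1, hB1⟩ := LL_dvd c.diff (κ := κ) (N := N + 1) (fun i => by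
        have := h1 i N
        push_cast
        exact this) (B := B) ⟨_, h4⟩
      have h5 : aeval x B * E p x ^ (N + 1) = aeval x B1 * E p x ^ N := by
        rw [hB1, map_mul]
        have : aeval x (PP p) * aeval x B1 * E p x ^ (N + 1)
          = (aeval x (PP p) * E p x) * (aeval x B1 * E p x ^ N) := by ring
        rw [this, c.E_mul, one_mul]
      rw [h5] at hB ⊢
      exact ih B1 hB
  obtain ⟨N, B, h3⟩ := c.form h
  have h4 : h = 0 := by
    rw [h3]
    exact key N B (by rw [← h3]; exact hh)
  refine ⟨h4, ?_⟩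
  rw [h4] at hh
  have h5 : nab p x δ κ 0 = 0 := by unfold nab; simp
  rw [h5] at hh
  exact c.inj Q (c.isUnit_E.mul_right_eq_zero.1 hh.symm)

lemma δ_eq_nab (f : T) : δ f = nab p x δ (fun _ => 0) f := by
  unfold nab
  simp

/-- Surjectivity onto the cohomology. -/
theorem surj_res [Nontrivial K] (f : T) :
    ∃ (h : T) (a : Fin (m + 1) → K), f = δ h + ∑ i, algebraMap K T (a i) * e p x i := by
  have key : ∀ (N : ℕ) (B : K[X]), ∃ (h : T) (Q : K[X]),
      aeval x B * E p x ^ (N + 1) = δ h + E p x * aeval x Q ∧ Q.degree < (m + 1 : ℕ) := by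
    intro N
    induction N with
    | zero =>
      intro B
      obtain ⟨A, hA⟩ := exists_antideriv (B /ₘ PP p)
      refine ⟨aeval x A, B %ₘ PP p, ?_, ?_⟩
      · rw [c.δ_aeval, hA]
        conv_lhs => rw [← Polynomial.modByMonic_add_div B (PP p)]
        rw [map_add, map_mul, zero_add, pow_one, add_mul]
        have : aeval x (PP p) * aeval x (B /ₘ PP p) * E p x
          = (aeval x (PP p) * E p x) * aeval x (B /ₘ PP p) := by ring
        rw [this, c.E_mul]
        ring
      · have := Polynomial.degree_modByMonic_lt B (monic_PP p)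
        rwa [Polynomial.degree_eq_natDegree (monic_PP p).ne_zero, natDegree_PP] at this
    | succ N ih =>
      intro B
      obtain ⟨B1, A1, h3⟩ := LL_reduce c.diff (κ := fun _ => 0) (N := N + 1) (fun i => by
        push_cast
        intro h
        have : ((N + 1 : ℕ) : ℂ) = 0 := by push_cast; exact h.symm
        exact Nat.succ_ne_zero N (by exact_mod_cast this)) B
      obtain ⟨h, Q, h4, h5⟩ := ih A1
      refine ⟨aeval x B1 * E p x ^ (N + 1) + h, Q, ?_, h5⟩
      have h6 := congrArg (aeval x) h3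
      rw [map_add, map_mul] at h6
      rw [map_add, c.δ_eq_nab (aeval x B1 * E p x ^ (N + 1)), c.nab_form]
      linear_combination E p x ^ (N + 1 + 1) * h6 + h4
        + (E p x ^ (N + 1) * aeval x A1) * c.E_mul
  obtain ⟨N, B, h3⟩ := c.form f
  obtain ⟨h, Q, h4, h5⟩ := key N (B * PP p)
  choose u hu using fun i => eval_PE_self c.diff i
  have hu' : ∀ i, ((u i)⁻¹ : Kˣ) * (PE p i).eval (p i) = 1 := fun i => by
    rw [← hu i]; exact Units.inv_mul _
  refine ⟨h, fun i => Q.eval (p i) * ((u i)⁻¹ : Kˣ), ?_⟩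
  have h6 : Q = ∑ i, C (Q.eval (p i) * ((u i)⁻¹ : Kˣ)) * PE p i := by
    have h7 : PP p ∣ Q - ∑ i, C (Q.eval (p i) * ((u i)⁻¹ : Kˣ)) * PE p i := by
      apply PP_dvd c.diff
      intro i
      rw [Polynomial.eval_sub, Polynomial.eval_finsetSum, Finset.sum_eq_single i]
      · rw [Polynomial.eval_mul, Polynomial.eval_C, mul_assoc, hu', mul_one, sub_self]
      · intro j _ hj
        rw [Polynomial.eval_mul, eval_PE_ne p hj.symm, mul_zero]
      · intro h; exact absurd (Finset.mem_univ _) h
    have h8 : (Q - ∑ i, C (Q.eval (p i) * ((u i)⁻¹ : Kˣ)) * PE p i).degree < (PP p).degree := by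
      rw [Polynomial.degree_eq_natDegree (monic_PP p).ne_zero, natDegree_PP]
      refine lt_of_le_of_lt (Polynomial.degree_sub_le _ _) (max_lt h5 ?_)
      refine lt_of_le_of_lt (Polynomial.degree_sum_le _ _) ?_
      rw [Finset.sup_lt_iff (by exact_mod_cast WithBot.bot_lt_coe (m + 1))]
      intro i _
      rw [Polynomial.C_mul']
      refine lt_of_le_of_lt (Polynomial.degree_smul_le _ _) ?_
      rw [Polynomial.degree_eq_natDegree (monic_PE p i).ne_zero, natDegree_PE]
      exact_mod_cast Nat.lt_succ_self m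
    have h9 := (Polynomial.modByMonic_eq_zero_iff_dvd (monic_PP p)).2 h7
    rw [(Polynomial.modByMonic_eq_self_iff (monic_PP p)).2 h8] at h9
    exact sub_eq_zero.1 h9
  have h7 : f = aeval x (B * PP p) * E p x ^ (N + 1) := by
    rw [h3, map_mul]
    have : aeval x B * aeval x (PP p) * E p x ^ (N + 1)
      = (aeval x (PP p) * E p x) * (aeval x B * E p x ^ N) := by ring
    rw [this, c.E_mul, one_mul]
  rw [h7, h4]
  congr 1
  conv_lhs => rw [h6]
  rw [map_sum, Finset.mul_sum]
  apply Finset.sum_congr rfl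
  intro i _
  rw [map_mul, aeval_C]
  unfold e
  ring

/-- Injectivity in the cohomology. -/
theorem inj_res [Nontrivial K] {h : T} {a : Fin (m + 1) → K}
    (hh : δ h = ∑ i, algebraMap K T (a i) * e p x i) : a = 0 ∧ ∃ k : K, h = algebraMap K T k := by
  obtain ⟨Q, hQ⟩ : ∃ Q : K[X], Q = ∑ i, C (a i) * PE p i := ⟨_, rfl⟩
  have hQd : Q.degree < (m + 1 : ℕ) := by
    rw [hQ]
    refine lt_of_le_of_lt (Polynomial.degree_sum_le _ _) ?_
    rw [Finset.sup_lt_iff (by exact_mod_cast WithBot.bot_lt_coe (m + 1))]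
    intro i _
    rw [Polynomial.C_mul']
    refine lt_of_le_of_lt (Polynomial.degree_smul_le _ _) ?_
    rw [Polynomial.degree_eq_natDegree (monic_PE p i).ne_zero, natDegree_PE]
    exact_mod_cast Nat.lt_succ_self m
  have hh' : δ h = E p x * aeval x Q := by
    rw [hh, hQ, map_sum, Finset.mul_sum]
    apply Finset.sum_congr rfl
    intro i _
    rw [map_mul, aeval_C]
    unfold e
    ring
  have key : ∀ (N : ℕ) (B : K[X]), δ (aeval x B * E p x ^ N) = E p x * aeval x Q →
      Q = 0 ∧ ∃ k : K, aeval x B * E p x ^ N = algebraMap K T k := by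
    intro N
    induction N with
    | zero =>
      intro B hB
      rw [pow_zero, mul_one, c.δ_aeval] at hB
      have h3 : aeval x (derivative B * PP p) = aeval x Q := by
        rw [map_mul, hB]
        have : E p x * aeval x Q * aeval x (PP p) = (aeval x (PP p) * E p x) * aeval x Q := by ring
        rw [this, c.E_mul, one_mul]
      have h4 := c.inj' h3
      have h5 : derivative B = 0 := by
        by_contra hne
        have h6 : (derivative B * PP p).degree = (derivative B).degree + (PP p).degree :=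
          (monic_PP p).degree_mul
        rw [h4, Polynomial.degree_eq_natDegree hne,
          Polynomial.degree_eq_natDegree (monic_PP p).ne_zero, natDegree_PP] at h6
        rw [h6] at hQd
        have h7 : (derivative B).natDegree + (m + 1) < m + 1 := by exact_mod_cast hQd
        omega
      refine ⟨by rw [← h4, h5, zero_mul], B.coeff 0, ?_⟩
      rw [pow_zero, mul_one, eq_C_of_derivative_eq_zero h5, aeval_C]
      simp
    | succ N ih =>
      intro B hB
      have hB' := hB
      rw [c.δ_eq_nab, c.nab_form] at hB'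
      have h3 : aeval x (LL p (fun _ => 0) (N + 1) B) = aeval x (PP p * (PP p ^ N * Q)) := by
        have e1 : (aeval x (PP p)) ^ (N + 1 + 1) * (E p x ^ (N + 1 + 1)
              * aeval x (LL p (fun _ => 0) (N + 1) B))
            = (aeval x (PP p)) ^ (N + 1 + 1) * (E p x * aeval x Q) := by rw [hB']
        rw [← mul_assoc, ← mul_pow, c.E_mul, one_pow, one_mul] at e1
        rw [e1, map_mul, map_mul, map_pow]
        have e2 : (aeval x (PP p)) ^ (N + 1 + 1) * (E p x * aeval x Q)
            = (aeval x (PP p) * E p x) * (aeval x (PP p) * ((aeval x (PP p)) ^ N * aeval x Q)) := by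
          ring
        rw [e2, c.E_mul, one_mul]
      have h4 := c.inj' h3
      obtain ⟨B1, hB1⟩ := LL_dvd c.diff (κ := fun _ => 0) (N := N + 1) (fun i => by
        push_cast
        intro h
        have : ((N + 1 : ℕ) : ℂ) = 0 := by push_cast; exact h.symm
        exact Nat.succ_ne_zero N (by exact_mod_cast this)) (B := B) ⟨_, h4⟩
      have h5 : aeval x B * E p x ^ (N + 1) = aeval x B1 * E p x ^ N := by
        rw [hB1, map_mul]
        have : aeval x (PP p) * aeval x B1 * E p x ^ (N + 1)
          = (aeval x (PP p) * E p x) * (aeval x B1 * E p x ^ N) := by ring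
        rw [this, c.E_mul, one_mul]
      rw [h5] at hB ⊢
      exact ih B1 hB
  obtain ⟨N, B, h3⟩ := c.form h
  rw [h3] at hh'
  obtain ⟨h4, k, h5⟩ := key N B hh'
  refine ⟨?_, k, by rw [h3, h5]⟩
  funext i
  rw [h4] at hQ
  have h6 := congrArg (fun q => q.eval (p i)) hQ
  simp only [Polynomial.eval_zero, Polynomial.eval_finsetSum] at h6
  rw [Finset.sum_eq_single i] at h6
  · rw [Polynomial.eval_mul, Polynomial.eval_C] at h6
    exact (eval_PE_self c.diff i).mul_left_eq_zero.1 h6.symm
  · intro j _ hj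
    rw [Polynomial.eval_mul, eval_PE_ne p hj.symm, mul_zero]
  · intro h; exact absurd (Finset.mem_univ _) h

end

end Chart

end Pool.Agent.MPdc7581
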