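import Pool.Agent.MPdc7581.Frm

/-!
# Universal property of the algebra of forms
-/

namespace Pool.Agent.MPdc7581

namespace Frm

variable {C : Type} [CommRing C] [Algebra ℂ C]

/-- `t1, t2, t3` are coordinates for the derivations `D1, D2, D3`. -/
structure Coord (D1 D2 D3 : Derivation ℂ C C) (t1 t2 t3 : C) : Prop where
  c11 : D1 t1 = 1
  c12 : D1 t2 = 0
  c13 : D1 t3 = 0
  c21 : D2 t1 = 0
  c22 : D2 t2 = 1
  c23 : D2 t3 = 0
  c31 : D3 t1 = 0
  c32 : D3 t2 = 0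
  c33 : D3 t3 = 1
  gen : ∀ (M : Type) [AddCommGroup M] [Module C M] [Module ℂ M] [IsScalarTower ℂ C M]
    (Δ : Derivation ℂ C M) (a : C), Δ a = D1 a • Δ t1 + D2 a • Δ t2 + D3 a • Δ t3

section

variable {R : Type} [Ring R] [Algebra ℂ R] (φ : C →ₐ[ℂ] R) (u v w : R)

/-- the map on forms -/
def liftFun (a : Frm C) : R := φ a.o + φ a.x * u + φ a.y * v + φ a.z * w + φ a.xy * (u * v)
  + φ a.xz * (u * w) + φ a.yz * (v * w) + φ a.xyz * (u * (v * w))

lemma liftFun_mul (hu : u * u = 0) (hv : v * v = 0) (hw : w * w = 0) (hvu : v * u = -(u * v))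
    (hwu : w * u = -(u * w)) (hwv : w * v = -(v * w)) (cu : ∀ c, u * φ c = φ c * u)
    (cv : ∀ c, v * φ c = φ c * v) (cw : ∀ c, w * φ c = φ c * w) (a b : Frm C) :
    liftFun φ u v w (a * b) = liftFun φ u v w a * liftFun φ u v w b := by
  have hu' : ∀ x, u * (u * x) = 0 := fun x => by rw [← mul_assoc, hu, zero_mul]
  have hv' : ∀ x, v * (v * x) = 0 := fun x => by rw [← mul_assoc, hv, zero_mul]
  have hw' : ∀ x, w * (w * x) = 0 := fun x => by rw [← mul_assoc, hw, zero_mul]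
  have hvu' : ∀ x, v * (u * x) = -(u * (v * x)) := fun x => by
    rw [← mul_assoc, hvu, neg_mul, mul_assoc]
  have hwu' : ∀ x, w * (u * x) = -(u * (w * x)) := fun x => by
    rw [← mul_assoc, hwu, neg_mul, mul_assoc]
  have hwv' : ∀ x, w * (v * x) = -(v * (w * x)) := fun x => by
    rw [← mul_assoc, hwv, neg_mul, mul_assoc]
  have cu' : ∀ c x, u * (φ c * x) = φ c * (u * x) := fun c x => by
    rw [← mul_assoc, cu, mul_assoc]
  have cv' : ∀ c x, v * (φ c * x) = φ c * (v * x) := fun c x => by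
    rw [← mul_assoc, cv, mul_assoc]
  have cw' : ∀ c x, w * (φ c * x) = φ c * (w * x) := fun c x => by
    rw [← mul_assoc, cw, mul_assoc]
  unfold liftFun
  simp only [mul_o, mul_x, mul_y, mul_z, mul_xy, mul_xz, mul_yz, mul_xyz, map_add, map_sub, map_mul,
    mul_add, add_mul, sub_mul, mul_assoc, hu, hv, hw, hvu, hwu, hwv, cu, cv, cw, hu', hv', hw', hvu',
    hwu', hwv', cu', cv', cw', mul_neg, mul_zero, neg_neg, neg_zero, add_zero]
  abel

lemma liftFun_add (a b : Frm C) : liftFun φ u v w (a + b) = liftFun φ u v w a + liftFun φ u v w b := by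
  unfold liftFun
  simp only [add_o, add_x, add_y, add_z, add_xy, add_xz, add_yz, add_xyz, map_add, add_mul]
  abel

end

/-- Commutative differential graded algebras: elements of degree one have square zero. -/
lemma sq_zero (B : CDGA) {u : B.A} (hu : u ∈ B.gr 1) : u * u = 0 := by
  have h := B.mul_comm hu hu
  rw [mul_one, pow_one, neg_mul, one_mul] at h
  have h2 : (2 : ℂ) • (u * u) = 0 := by
    rw [two_smul]
    nth_rewrite 1 [h]
    exact neg_add_cancel _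
  exact (smul_eq_zero.1 h2).resolve_left two_ne_zero

lemma anti (B : CDGA) {u v : B.A} (hu : u ∈ B.gr 1) (hv : v ∈ B.gr 1) : v * u = -(u * v) := by
  have h := B.mul_comm hv hu
  rwa [mul_one, pow_one, neg_mul, one_mul] at h

lemma central (B : CDGA) {c u : B.A} (hc : c ∈ B.gr 0) {p : ℕ} (hu : u ∈ B.gr p) : u * c = c * u := by
  have h := B.mul_comm hu hc
  rwa [mul_zero, pow_zero, one_mul] at h

variable {D1 D2 D3 : Derivation ℂ C C}

theorem isDeRham_forms (h12 : ∀ a, D1 (D2 a) = D2 (D1 a)) (h13 : ∀ a, D1 (D3 a) = D3 (D1 a))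
    (h23 : ∀ a, D2 (D3 a) = D3 (D2 a)) {t1 t2 t3 : C} (ht : Coord D1 D2 D3 t1 t2 t3)
    {S : Type} [CommRing S] [Algebra ℂ S] (e : S ≃ₐ[ℂ] C) :
    CDGA.IsDeRham (forms C D1 D2 D3 h12 h13 h23)
      ((⟨incl, fun _ => rfl⟩ : C →ₐ[ℂ] Frm C).comp e.toAlgHom) := by
  refine ⟨fun s => mem_gr0.2 ⟨rfl, rfl, rfl, rfl, rfl, rfl, rfl⟩, ?_⟩
  intro B φ' hφ'
  obtain ⟨φ, hφ⟩ : ∃ φ : C →ₐ[ℂ] B.A, φ = φ'.comp e.symm.toAlgHom := ⟨_, rfl⟩
  have hφ0 : ∀ c, φ c ∈ B.gr 0 := fun c => by rw [hφ]; exact hφ' _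
  have hφe : ∀ s, φ' s = φ (e s) := fun s => by
    rw [hφ]
    change φ' s = φ' (e.symm (e s))
    rw [e.symm_apply_apply]
  obtain ⟨u, hu⟩ : ∃ u, u = B.d (φ t1) := ⟨_, rfl⟩
  obtain ⟨v, hv⟩ : ∃ v, v = B.d (φ t2) := ⟨_, rfl⟩
  obtain ⟨w, hw⟩ : ∃ w, w = B.d (φ t3) := ⟨_, rfl⟩
  have hu1 : u ∈ B.gr 1 := by rw [hu]; exact B.d_mem (hφ0 _)
  have hv1 : v ∈ B.gr 1 := by rw [hv]; exact B.d_mem (hφ0 _)
  have hw1 : w ∈ B.gr 1 := by rw [hw]; exact B.d_mem (hφ0 _)
  -- the derivation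
  have hd : ∀ a, B.d (φ a) = φ (D1 a) * u + φ (D2 a) * v + φ (D3 a) * w := by
    letI : Module C B.A := Module.compHom B.A (φ : C →+* B.A)
    have hsm : ∀ (c : C) (x : B.A), c • x = φ c * x := fun c x => rfl
    haveI : IsScalarTower ℂ C B.A := ⟨fun r c x => by
      rw [hsm, hsm, map_smul, smul_mul_assoc]⟩
    let Δ : Derivation ℂ C B.A :=
      { toFun := fun a => B.d (φ a)
        map_add' := fun a b => by rw [map_add, map_add]
        map_smul' := fun r a => by rw [map_smul, map_smul]; rfl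
        map_one_eq_zero' := by
          change B.d (φ 1) = 0
          have h := B.leibniz (1 : B.A) B.one_mem
          rw [mul_one, pow_zero, one_mul, one_mul, mul_one] at h
          rw [map_one]
          exact left_eq_add.1 h
        leibniz' := fun a b => by
          change B.d (φ (a * b)) = φ a * B.d (φ b) + φ b * B.d (φ a)
          rw [map_mul, B.leibniz _ (hφ0 a), pow_zero, one_mul,
            central B (hφ0 b) (B.d_mem (hφ0 a)), add_comm] }
    intro a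
    have h := ht.gen B.A Δ a
    change B.d (φ a) = φ (D1 a) * B.d (φ t1) + φ (D2 a) * B.d (φ t2) + φ (D3 a) * B.d (φ t3) at h
    rw [h, hu, hv, hw]
  have du : B.d u = 0 := by rw [hu, B.d_d]
  have dv : B.d v = 0 := by rw [hv, B.d_d]
  have dw : B.d w = 0 := by rw [hw, B.d_d]
  have duv : B.d (u * v) = 0 := by rw [B.leibniz _ hu1, du, dv]; simp
  have duw : B.d (u * w) = 0 := by rw [B.leibniz _ hu1, du, dw]; simp
  have dvw : B.d (v * w) = 0 := by rw [B.leibniz _ hv1, dv, dw]; simp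
  have duvw : B.d (u * (v * w)) = 0 := by rw [B.leibniz _ hu1, du, dvw]; simp
  have hm := liftFun_mul φ u v w (sq_zero B hu1) (sq_zero B hv1) (sq_zero B hw1) (anti B hu1 hv1)
    (anti B hu1 hw1) (anti B hv1 hw1) (fun c => central B (hφ0 c) hu1) (fun c => central B (hφ0 c) hv1)
    (fun c => central B (hφ0 c) hw1)
  let F : Frm C →ₐ[ℂ] B.A :=
    { toFun := liftFun φ u v w
      map_one' := by simp [liftFun]
      map_mul' := hm
      map_zero' := by simp [liftFun]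
      map_add' := liftFun_add φ u v w
      commutes' := fun r => by
        rw [algebraMap_eq]
        simp [liftFun] }
  have hF : ∀ a, F a = liftFun φ u v w a := fun a => rfl
  have hu2 := hu1
  have huv2 : u * v ∈ B.gr 2 := B.mul_mem hu1 hv1
  have huw2 : u * w ∈ B.gr 2 := B.mul_mem hu1 hw1
  have hvw2 : v * w ∈ B.gr 2 := B.mul_mem hv1 hw1
  have huvw : u * (v * w) ∈ B.gr 3 := B.mul_mem hu1 hvw2
  have hz : ∀ {p : ℕ} (c : C) {x : B.A}, x ∈ B.gr p → φ c * x ∈ B.gr p := by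
    intro p c x hx
    have := B.mul_mem (hφ0 c) hx
    rwa [zero_add] at this
  have hgr : ∀ (p : ℕ) (a : Frm C), a ∈ gr p → F a ∈ B.gr p := by
    intro p a ha
    rw [hF]
    match p with
    | 0 =>
      rw [mem_gr0] at ha
      simp only [liftFun, ha, map_zero, zero_mul, add_zero]
      exact hφ0 _
    | 1 =>
      rw [mem_gr1] at ha
      simp only [liftFun, ha, map_zero, zero_mul, add_zero, zero_add]
      exact Submodule.add_mem _ (Submodule.add_mem _ (hz _ hu1) (hz _ hv1)) (hz _ hw1)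
    | 2 =>
      rw [mem_gr2] at ha
      simp only [liftFun, ha, map_zero, zero_mul, add_zero, zero_add]
      exact Submodule.add_mem _ (Submodule.add_mem _ (hz _ huv2) (hz _ huw2)) (hz _ hvw2)
    | 3 =>
      rw [mem_gr3] at ha
      simp only [liftFun, ha, map_zero, zero_mul, add_zero, zero_add]
      exact hz _ huvw
    | p + 4 =>
      rw [mem_gr4] at ha
      rw [ha]
      simp [liftFun]
  have hdd : ∀ a : Frm C, F (dd D1 D2 D3 a) = B.d (F a) := by
    intro a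
    rw [hF, hF]
    have hl : ∀ (c : C) (x : B.A), B.d x = 0 → B.d (φ c * x)
        = φ (D1 c) * (u * x) + φ (D2 c) * (v * x) + φ (D3 c) * (w * x) := by
      intro c x hx
      rw [B.leibniz _ (hφ0 c), hx, hd, pow_zero, mul_zero, mul_zero, add_zero, add_mul, add_mul,
        mul_assoc, mul_assoc, mul_assoc]
    unfold liftFun
    rw [map_add, map_add, map_add, map_add, map_add, map_add, map_add, hd, hl _ _ du, hl _ _ dv,
      hl _ _ dw, hl _ _ duv, hl _ _ duw, hl _ _ dvw, hl _ _ duvw]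
    have ru : ∀ x, u * (u * x) = 0 := fun x => by rw [← mul_assoc, sq_zero B hu1, zero_mul]
    have rv : ∀ x, v * (v * x) = 0 := fun x => by rw [← mul_assoc, sq_zero B hv1, zero_mul]
    have rw' : ∀ x, w * (w * x) = 0 := fun x => by rw [← mul_assoc, sq_zero B hw1, zero_mul]
    have rvu : ∀ x, v * (u * x) = -(u * (v * x)) := fun x => by
      rw [← mul_assoc, anti B hu1 hv1, neg_mul, mul_assoc]
    have rwu : ∀ x, w * (u * x) = -(u * (w * x)) := fun x => by
      rw [← mul_assoc, anti B hu1 hw1, neg_mul, mul_assoc]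
    have rwv : ∀ x, w * (v * x) = -(v * (w * x)) := fun x => by
      rw [← mul_assoc, anti B hv1 hw1, neg_mul, mul_assoc]
    simp only [dd, LinearMap.coe_mk, AddHom.coe_mk, map_zero, map_add, map_sub, ru, rv, rw', rvu,
      rwu, rwv, sq_zero B hu1, sq_zero B hv1, sq_zero B hw1, anti B hu1 hv1, anti B hu1 hw1,
      anti B hv1 hw1, mul_neg, mul_zero, neg_zero, neg_neg, add_zero, zero_add, sub_mul, add_mul]
    abel
  let Φ : CDGA.Hom (forms C D1 D2 D3 h12 h13 h23) B :=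
    { f := F
      map_gr := fun {p a} ha => hgr p a ha
      map_d := fun a => hdd a }
  refine ⟨Φ, ?_, ?_⟩
  · intro s
    change F (incl (e s)) = φ' s
    rw [hF, hφe]
    simp [liftFun]
  · intro Ψ hΨ
    have h1 : ∀ c : C, Ψ.f (incl c : Frm C) = φ c := by
      intro c
      have := hΨ (e.symm c)
      change Ψ.f (incl (e (e.symm c)) : Frm C) = φ' (e.symm c) at this
      rw [e.apply_symm_apply] at this
      rw [this, hφ]
      rfl
    have hx : (⟨0, 1, 0, 0, 0, 0, 0, 0⟩ : Frm C) = (forms C D1 D2 D3 h12 h13 h23).d (incl t1 : Frm C) := by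
      change _ = dd D1 D2 D3 (incl t1)
      ext <;> simp [dd, ht.c11, ht.c21, ht.c31]
    have hy : (⟨0, 0, 1, 0, 0, 0, 0, 0⟩ : Frm C) = (forms C D1 D2 D3 h12 h13 h23).d (incl t2 : Frm C) := by
      change _ = dd D1 D2 D3 (incl t2)
      ext <;> simp [dd, ht.c12, ht.c22, ht.c32]
    have hz : (⟨0, 0, 0, 1, 0, 0, 0, 0⟩ : Frm C) = (forms C D1 D2 D3 h12 h13 h23).d (incl t3 : Frm C) := by
      change _ = dd D1 D2 D3 (incl t3)
      ext <;> simp [dd, ht.c13, ht.c23, ht.c33]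
    have kx : Ψ.f (⟨0, 1, 0, 0, 0, 0, 0, 0⟩ : Frm C) = u := by
      rw [hx, Ψ.map_d, h1, hu]
    have ky : Ψ.f (⟨0, 0, 1, 0, 0, 0, 0, 0⟩ : Frm C) = v := by
      rw [hy, Ψ.map_d, h1, hv]
    have kz : Ψ.f (⟨0, 0, 0, 1, 0, 0, 0, 0⟩ : Frm C) = w := by
      rw [hz, Ψ.map_d, h1, hw]
    have key : ∀ a : Frm C, Ψ.f a = F a := by
      intro a
      have ha : a = incl a.o + incl a.x * (⟨0, 1, 0, 0, 0, 0, 0, 0⟩ : Frm C)
          + incl a.y * (⟨0, 0, 1, 0, 0, 0, 0, 0⟩ : Frm C)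
          + incl a.z * (⟨0, 0, 0, 1, 0, 0, 0, 0⟩ : Frm C)
          + incl a.xy * ((⟨0, 1, 0, 0, 0, 0, 0, 0⟩ : Frm C) * (⟨0, 0, 1, 0, 0, 0, 0, 0⟩ : Frm C))
          + incl a.xz * ((⟨0, 1, 0, 0, 0, 0, 0, 0⟩ : Frm C) * (⟨0, 0, 0, 1, 0, 0, 0, 0⟩ : Frm C))
          + incl a.yz * ((⟨0, 0, 1, 0, 0, 0, 0, 0⟩ : Frm C) * (⟨0, 0, 0, 1, 0, 0, 0, 0⟩ : Frm C))
          + incl a.xyz * ((⟨0, 1, 0, 0, 0, 0, 0, 0⟩ : Frm C) * ((⟨0, 0, 1, 0, 0, 0, 0, 0⟩ : Frm C)
            * (⟨0, 0, 0, 1, 0, 0, 0, 0⟩ : Frm C))) := by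
        ext <;> simp
      have hmul : ∀ x y : Frm C, Ψ.f (x * y : Frm C) = Ψ.f x * Ψ.f y := fun x y => Ψ.f.map_mul x y
      have hadd : ∀ x y : Frm C, Ψ.f (x + y : Frm C) = Ψ.f x + Ψ.f y := fun x y => Ψ.f.map_add x y
      rw [ha, hadd, hadd, hadd, hadd, hadd, hadd, hadd, hmul, hmul, hmul, hmul, hmul, hmul, hmul, hmul,
        hmul, hmul, hmul, hmul, kx, ky, kz, h1, h1, h1, h1, h1, h1, h1, h1, ← ha, hF]
      rfl
    exact CDGA.Hom.eq_of_f (AlgHom.ext key)

end Frm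

end Pool.Agent.MPdc7581
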