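import Pool.Agent.MPdc7581.Surf2
import Pool.Agent.MPdc7581.Univ

/-!
# Polynomials over the surface
-/

set_option linter.unusedSectionVars false
set_option linter.unusedSimpArgs false
set_option linter.style.haveILetI false

open Polynomial

namespace Pool.Agent.MPdc7581

lemma exists_cD {S : Type} [CommRing S] [Algebra ℂ S] (D : Derivation ℂ S S) :
    ∃ Δ : Derivation ℂ S[X] S[X], ∀ B n, (Δ B).coeff n = D (B.coeff n) :=
  ⟨PolynomialModule.equivPolynomialSelf.compDer D.mapCoeffs, fun _ _ => rfl⟩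

section

variable {S : Type} [CommRing S] [Algebra ℂ S] {D : Derivation ℂ S S} {Δ : Derivation ℂ S[X] S[X]}

lemma cD_C (h : ∀ B n, (Δ B).coeff n = D (B.coeff n)) (s : S) : Δ (C s) = C (D s) := by
  ext n
  rw [h, Polynomial.coeff_C, Polynomial.coeff_C]
  split_ifs
  · rfl
  · exact map_zero D

lemma cD_X (h : ∀ B n, (Δ B).coeff n = D (B.coeff n)) : Δ (X : S[X]) = 0 := by
  ext n
  rw [h, Polynomial.coeff_X, Polynomial.coeff_zero]
  split_ifs
  · exact Derivation.map_one_eq_zero D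
  · exact map_zero D

lemma cD_comm {D2 : Derivation ℂ S S} {Δ2 : Derivation ℂ S[X] S[X]}
    (h : ∀ B n, (Δ B).coeff n = D (B.coeff n)) (h2 : ∀ B n, (Δ2 B).coeff n = D2 (B.coeff n))
    (hc : ∀ s, D (D2 s) = D2 (D s)) (B : S[X]) : Δ (Δ2 B) = Δ2 (Δ B) := by
  ext n
  rw [h, h2, h2, h, hc]

/-- the derivative as a derivation over `ℂ` -/
lemma exists_dX (S : Type) [CommRing S] [Algebra ℂ S] :
    ∃ Δ : Derivation ℂ S[X] S[X], ∀ B, Δ B = derivative B :=
  ⟨(Polynomial.derivative' : Derivation S S[X] S[X]).restrictScalars ℂ, fun _ => rfl⟩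

lemma cD_derivative (h : ∀ B n, (Δ B).coeff n = D (B.coeff n)) (B : S[X]) :
    Δ (derivative B) = derivative (Δ B) := by
  ext n
  rw [h, Polynomial.coeff_derivative, Polynomial.coeff_derivative, h, Derivation.leibniz]
  have : D ((n : S) + 1) = 0 := by
    rw [map_add, Derivation.map_natCast, Derivation.map_one_eq_zero, add_zero]
  rw [this, smul_zero, zero_add, smul_eq_mul, mul_comm]

end

section

variable {S : Type} [CommRing S] [Algebra ℂ S] {t σ w y : S} {e : Fin 3 → S} {D δ : Derivation ℂ S S}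
  (s : Surf t σ w y e D δ)

include s

lemma Surf.comm (a : S) : D (δ a) = δ (D a) := by
  have h := s.gen S ⁅D, δ⁆ a
  have h1 : ⁅D, δ⁆ t = 0 := by
    rw [Derivation.commutator_apply, s.δt, s.Dt, Derivation.map_one_eq_zero, map_zero, sub_zero]
  have h2 : ⁅D, δ⁆ w = 0 := by
    rw [Derivation.commutator_apply, s.δw, s.Dw, Derivation.map_one_eq_zero, map_zero, sub_zero]
  rw [h1, h2, smul_zero, smul_zero, add_zero, Derivation.commutator_apply] at h
  exact sub_eq_zero.1 h

lemma Surf.De0 : D (e 0) = 0 := by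
  have h := congrArg D s.e0
  rw [Derivation.leibniz, s.Dw, Derivation.map_one_eq_zero, smul_zero, add_zero, smul_eq_mul] at h
  linear_combination (e 0) * h - D (e 0) * s.e0

lemma Surf.De1 : D (e 1) = 0 := by
  have h := congrArg D s.e1
  rw [Derivation.leibniz, map_sub, s.Dw, Derivation.map_one_eq_zero, sub_zero, smul_zero, add_zero,
    smul_eq_mul] at h
  linear_combination (e 1) * h - D (e 1) * s.e1

lemma Surf.De2 : D (e 2) = (e 2) ^ 2 := by
  have h := congrArg D s.e2
  rw [Derivation.leibniz, map_sub, s.Dw, Derivation.map_one_eq_zero, s.Dt, smul_eq_mul,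
    smul_eq_mul] at h
  linear_combination (e 2) * h - D (e 2) * s.e2

lemma Surf.δe2 : δ (e 2) = - (e 2) ^ 2 := by
  have h := congrArg δ s.e2
  rw [Derivation.leibniz, map_sub, s.δw, Derivation.map_one_eq_zero, s.δt, smul_eq_mul,
    smul_eq_mul] at h
  linear_combination (e 2) * h - δ (e 2) * s.e2

lemma Surf.δσ : δ σ = 0 := by
  have h := congrArg δ s.rel1
  rw [Derivation.leibniz, Derivation.leibniz_pow, Derivation.leibniz, map_sub, s.δt,
    Derivation.map_one_eq_zero] at h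
  simp only [smul_eq_mul, nsmul_eq_mul, mul_zero, sub_zero, add_zero, zero_add] at h
  push_cast at h
  have h3 : (3 : S) * algebraMap ℂ S (1/3) = 1 := by
    rw [← map_ofNat (algebraMap ℂ S) 3, ← map_mul]
    norm_num
  linear_combination (algebraMap ℂ S (1/3) * σ) * h - (3 * algebraMap ℂ S (1/3) * δ σ) * s.rel1 - δ σ * h3

lemma Surf.δcc (a : Fin 4) : δ (cc t σ a) = 0 := by
  fin_cases a <;> simp [cc, Derivation.leibniz, Derivation.leibniz_pow, s.δt, s.δσ]

/-- the basic closed forms -/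
lemma Surf.closed (α : Fin 4 → ℂ) (β : Fin 3 → ℂ) :
    D (∑ i, algebraMap ℂ S (β i) * e i)
      = δ (∑ a, algebraMap ℂ S (α a) * cc t σ a - algebraMap ℂ S (β 2) * e 2) := by
  rw [Fin.sum_univ_three, Fin.sum_univ_four]
  simp only [map_add, map_sub, Derivation.leibniz, Derivation.map_algebraMap, s.De0, s.De1, s.De2,
    s.δe2, s.δcc, smul_eq_mul, mul_zero, smul_zero, add_zero, zero_add]
  ring

/-- products of the basic closed forms -/
lemma Surf.prod (α α' : Fin 4 → ℂ) (β β' : Fin 3 → ℂ) : ∃ γ : Fin 4 → Fin 3 → ℂ,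
    (∑ a, algebraMap ℂ S (α a) * cc t σ a - algebraMap ℂ S (β 2) * e 2)
        * (∑ i, algebraMap ℂ S (β' i) * e i)
      - (∑ i, algebraMap ℂ S (β i) * e i)
        * (∑ a, algebraMap ℂ S (α' a) * cc t σ a - algebraMap ℂ S (β' 2) * e 2)
      = ∑ i, (∑ a, algebraMap ℂ S (γ a i) * cc t σ a) * e i := by
  have h02 : e 0 * e 2 = cc t σ 0 * (e 2 - e 0) := by
    have h0 := s.e0
    have h2 := s.e2
    have h3 := s.rel1
    change e 0 * e 2 = (σ ^ 3 * (1 - t)) * (e 2 - e 0)
    linear_combination (-(e 0 * e 2)) * h3 + (σ ^ 3 * (1 - t) * e 2) * h0 - (σ ^ 3 * (1 - t) * e 0) * h2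
  have h12 : e 1 * e 2 = cc t σ 1 * (e 2 - e 1) := by
    have h0 := s.e1
    have h2 := s.e2
    have h3 := s.rel1
    change e 1 * e 2 = (-(σ ^ 3 * t)) * (e 2 - e 1)
    linear_combination (-(e 1 * e 2)) * h3 - (σ ^ 3 * t * e 2) * h0 + (σ ^ 3 * t * e 1) * h2
  refine ⟨fun a i => α a * β' i - α' a * β i
    + (if a = 0 then (if i = 2 then β' 2 * β 0 - β 2 * β' 0 else if i = 0 then -(β' 2 * β 0 - β 2 * β' 0) else 0)
      else if a = 1 then (if i = 2 then β' 2 * β 1 - β 2 * β' 1 else if i = 1 then -(β' 2 * β 1 - β 2 * β' 1) else 0)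
      else 0), ?_⟩
  simp only [Fin.sum_univ_three, Fin.sum_univ_four, Fin.isValue, Fin.reduceEq, if_true, if_false,
    map_add, map_sub, map_mul, map_neg, map_zero, add_zero]
  linear_combination (algebraMap ℂ S (β' 2) * algebraMap ℂ S (β 0) - algebraMap ℂ S (β 2) * algebraMap ℂ S (β' 0)) * h02
    + (algebraMap ℂ S (β' 2) * algebraMap ℂ S (β 1) - algebraMap ℂ S (β 2) * algebraMap ℂ S (β' 1)) * h12

end

end Pool.Agent.MPdc7581
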