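import Pool.Agent.MPdc7581.Chart

/-!
# Localisations and Kummer extensions, with derivations
-/

set_option linter.unusedSectionVars false

open Polynomial

namespace Pool.Agent.MPdc7581

section dual

variable {R T : Type} [CommRing R] [Algebra ℂ R] [CommRing T] [Algebra ℂ T] [Algebra R T]
  [IsScalarTower ℂ R T]

/-- the homomorphism to dual numbers given by a derivation -/
noncomputable def homOfDeriv (Δ : Derivation ℂ R T) : R →ₐ[ℂ] TrivSqZeroExt T T where
  toFun r := (algebraMap R T r, Δ r)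
  map_one' := by
    apply TrivSqZeroExt.ext
    · change algebraMap R T 1 = 1; rw [map_one]
    · change Δ 1 = 0; rw [Derivation.map_one_eq_zero]
  map_mul' a b := by
    apply TrivSqZeroExt.ext
    · change algebraMap R T (a * b) = algebraMap R T a * algebraMap R T b
      rw [map_mul]
    · change Δ (a * b) = algebraMap R T a • Δ b + MulOpposite.op (algebraMap R T b) • Δ a
      rw [Derivation.leibniz, Algebra.smul_def, Algebra.smul_def, smul_eq_mul, op_smul_eq_smul,
        smul_eq_mul]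
  map_zero' := by
    apply TrivSqZeroExt.ext
    · change algebraMap R T 0 = 0; rw [map_zero]
    · change Δ 0 = 0; rw [map_zero]
  map_add' a b := by
    apply TrivSqZeroExt.ext
    · change algebraMap R T (a + b) = algebraMap R T a + algebraMap R T b
      rw [map_add]
    · change Δ (a + b) = Δ a + Δ b
      rw [map_add]
  commutes' r := by
    apply TrivSqZeroExt.ext
    · change algebraMap R T (algebraMap ℂ R r) = algebraMap ℂ T r
      rw [← IsScalarTower.algebraMap_apply]
    · change Δ (algebraMap ℂ R r) = 0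
      rw [Derivation.map_algebraMap]

lemma homOfDeriv_fst (Δ : Derivation ℂ R T) (r : R) : (homOfDeriv Δ r).fst = algebraMap R T r := rfl
lemma homOfDeriv_snd (Δ : Derivation ℂ R T) (r : R) : (homOfDeriv Δ r).snd = Δ r := rfl

/-- the derivation given by a section of the dual numbers -/
def derivOfHom (F : T →ₐ[ℂ] TrivSqZeroExt T T) (h : ∀ a, (F a).fst = a) : Derivation ℂ T T where
  toFun a := (F a).snd
  map_add' a b := by rw [map_add]; rfl
  map_smul' r a := by rw [map_smul]; rfl
  map_one_eq_zero' := by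
    change (F 1).snd = 0
    rw [map_one]; rfl
  leibniz' a b := by
    change (F (a * b)).snd = a * (F b).snd + b * (F a).snd
    rw [map_mul, TrivSqZeroExt.snd_mul, h, h, op_smul_eq_smul]
    rfl

lemma derivOfHom_apply (F : T →ₐ[ℂ] TrivSqZeroExt T T) (h : ∀ a, (F a).fst = a) (a : T) :
    derivOfHom F h a = (F a).snd := rfl

end dual

section Pln

variable {K : Type} [CommRing K] [Algebra ℂ K] {m : ℕ} (p : Fin m → K)

/-- Functions on the line over `K` punctured at the points `p i`. -/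
def Pln : Type := Localization.Away (PP p)

noncomputable instance : CommRing (Pln p) := inferInstanceAs (CommRing (Localization.Away (PP p)))
noncomputable instance : Algebra ℂ (Pln p) := inferInstanceAs (Algebra ℂ (Localization.Away (PP p)))
noncomputable instance : Algebra K (Pln p) := inferInstanceAs (Algebra K (Localization.Away (PP p)))
noncomputable instance instAlgPoly : Algebra K[X] (Pln p) :=
  inferInstanceAs (Algebra K[X] (Localization.Away (PP p)))
instance : IsScalarTower ℂ K (Pln p) := inferInstanceAs (IsScalarTower ℂ K (Localization.Away (PP p)))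
instance : IsScalarTower K K[X] (Pln p) :=
  inferInstanceAs (IsScalarTower K K[X] (Localization.Away (PP p)))
instance : IsScalarTower ℂ K[X] (Pln p) :=
  inferInstanceAs (IsScalarTower ℂ K[X] (Localization.Away (PP p)))
instance : IsLocalization.Away (PP p) (Pln p) :=
  inferInstanceAs (IsLocalization.Away (PP p) (Localization.Away (PP p)))

/-- the coordinate -/
noncomputable def Pln.x : Pln p := algebraMap K[X] (Pln p) X

lemma Pln.aeval_x (B : K[X]) : aeval (Pln.x p) B = algebraMap K[X] (Pln p) B := by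
  have h : (aeval (Pln.x p) : K[X] →ₐ[K] Pln p) = IsScalarTower.toAlgHom K K[X] (Pln p) := by
    apply Polynomial.algHom_ext
    rw [aeval_X]
    rfl
  rw [h]
  rfl

lemma Pln.unit : IsUnit (aeval (Pln.x p) (PP p)) := by
  rw [Pln.aeval_x]
  exact IsLocalization.Away.algebraMap_isUnit (PP p)

lemma Pln.unit_sub (i : Fin m) : IsUnit (Pln.x p - algebraMap K (Pln p) (p i)) := by
  have h := Pln.unit p
  rw [PP_eq p i, map_mul] at h
  have h2 := isUnit_of_mul_isUnit_left h
  simpa using h2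

lemma Pln.inj (B : K[X]) (h : aeval (Pln.x p) B = 0) : B = 0 := by
  rw [Pln.aeval_x] at h
  have hle : Submonoid.powers (PP p) ≤ nonZeroDivisors K[X] := by
    rw [Submonoid.powers_le]
    exact (monic_PP p).mem_nonZeroDivisors
  have := IsLocalization.injective (Pln p) hle
  exact this (by rw [h, map_zero])

lemma Pln.surj (f : Pln p) : ∃ (N : ℕ) (B : K[X]), f * (aeval (Pln.x p) (PP p)) ^ N
    = aeval (Pln.x p) B := by
  obtain ⟨N, B, h⟩ := IsLocalization.Away.surj (PP p) f
  exact ⟨N, B, by rw [Pln.aeval_x, Pln.aeval_x, h]⟩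

variable {A : Type} [CommRing A] [Algebra ℂ A]

/-- homomorphisms from polynomials -/
noncomputable def polyHom (f : K →ₐ[ℂ] A) (a : A) : K[X] →ₐ[ℂ] A :=
  { Polynomial.eval₂RingHom (f : K →+* A) a with
    commutes' := by
      intro r
      change Polynomial.eval₂ (f : K →+* A) a (algebraMap ℂ K[X] r) = _
      rw [Polynomial.algebraMap_apply, Polynomial.eval₂_C]
      exact f.commutes r }

lemma polyHom_apply (f : K →ₐ[ℂ] A) (a : A) (B : K[X]) :
    polyHom f a B = B.eval₂ (f : K →+* A) a := rfl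

/-- homomorphisms from `Pln p` -/
noncomputable def Pln.lift (f : K →ₐ[ℂ] A) (a : A) (h : ∀ i, IsUnit (a - f (p i))) :
    Pln p →ₐ[ℂ] A :=
  IsLocalization.liftAlgHom (M := Submonoid.powers (PP p)) (S := Pln p)
    (f := polyHom f a) (by
      rintro ⟨_, ⟨n, rfl⟩⟩
      change IsUnit (polyHom f a ((PP p) ^ n))
      rw [map_pow]
      apply IsUnit.pow
      unfold PP
      rw [map_prod, IsUnit.prod_iff]
      intro i _
      rw [polyHom_apply, Polynomial.eval₂_sub, Polynomial.eval₂_X, Polynomial.eval₂_C]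
      exact h i)

lemma Pln.lift_poly (f : K →ₐ[ℂ] A) (a : A) (h : ∀ i, IsUnit (a - f (p i))) (B : K[X]) :
    Pln.lift p f a h (algebraMap K[X] (Pln p) B) = B.eval₂ (f : K →+* A) a := by
  unfold Pln.lift
  rw [IsLocalization.liftAlgHom_apply]
  exact IsLocalization.lift_eq (M := Submonoid.powers (PP p)) (S := Pln p) _ B

@[simp] lemma Pln.lift_x (f : K →ₐ[ℂ] A) (a : A) (h : ∀ i, IsUnit (a - f (p i))) :
    Pln.lift p f a h (Pln.x p) = a := by
  unfold Pln.x
  rw [Pln.lift_poly, Polynomial.eval₂_X]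

@[simp] lemma Pln.lift_K (f : K →ₐ[ℂ] A) (a : A) (h : ∀ i, IsUnit (a - f (p i))) (k : K) :
    Pln.lift p f a h (algebraMap K (Pln p) k) = f k := by
  rw [IsScalarTower.algebraMap_apply K K[X] (Pln p), Pln.lift_poly]
  change Polynomial.eval₂ _ _ (C k) = _
  rw [Polynomial.eval₂_C]
  rfl

lemma Pln.hom_ext {g1 g2 : Pln p →ₐ[ℂ] A} (hK : ∀ k, g1 (algebraMap K (Pln p) k)
    = g2 (algebraMap K (Pln p) k)) (hx : g1 (Pln.x p) = g2 (Pln.x p)) : g1 = g2 := by
  apply IsLocalization.algHom_ext (Submonoid.powers (PP p)) (A := K[X])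
  apply AlgHom.coe_ringHom_injective
  apply Polynomial.ringHom_ext
  · intro k
    change g1 (algebraMap K[X] (Pln p) (algebraMap K K[X] k)) = g2 (algebraMap K[X] (Pln p) (algebraMap K K[X] k))
    rw [← IsScalarTower.algebraMap_apply]
    exact hK k
  · exact hx

lemma Pln.deriv_ext {M : Type} [AddCommGroup M] [Module (Pln p) M] [Module ℂ M]
    {D1 D2 : Derivation ℂ (Pln p) M} (hK : ∀ k, D1 (algebraMap K (Pln p) k)
    = D2 (algebraMap K (Pln p) k)) (hx : D1 (Pln.x p) = D2 (Pln.x p)) (f : Pln p) : D1 f = D2 f := by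
  have h1 : ∀ B : K[X], D1 (aeval (Pln.x p) B) = D2 (aeval (Pln.x p) B) := by
    intro B
    induction B using Polynomial.induction_on' with
    | add p q hp hq => rw [map_add, map_add, map_add, hp, hq]
    | monomial n a =>
      rw [aeval_monomial, Derivation.leibniz, Derivation.leibniz, Derivation.leibniz_pow,
        Derivation.leibniz_pow, hK, hx]
  obtain ⟨N, B, h⟩ := Pln.surj p f
  have h2 := congrArg D1 h
  have h3 := congrArg D2 h
  rw [Derivation.leibniz] at h2 h3
  rw [h1, ← h3, ← map_pow, h1] at h2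
  have h4 := add_left_cancel h2
  rw [map_pow] at h4
  have hu : IsUnit ((aeval (Pln.x p) (PP p)) ^ N) := (Pln.unit p).pow N
  exact hu.smul_left_cancel.1 h4

lemma Pln.exists_deriv (Δ : Derivation ℂ K (Pln p)) (v : Pln p) :
    ∃ D : Derivation ℂ (Pln p) (Pln p), (∀ k, D (algebraMap K (Pln p) k) = Δ k) ∧ D (Pln.x p) = v := by
  obtain ⟨F, hF⟩ : ∃ F, F = Pln.lift p (homOfDeriv Δ) ((Pln.x p, v) : TrivSqZeroExt (Pln p) (Pln p))
      (fun i => by
        rw [TrivSqZeroExt.isUnit_iff_isUnit_fst]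
        exact Pln.unit_sub p i) := ⟨_, rfl⟩
  have hFK : ∀ k, F (algebraMap K (Pln p) k) = homOfDeriv Δ k := fun k => by rw [hF, Pln.lift_K]
  have hFx : F (Pln.x p) = ((Pln.x p, v) : TrivSqZeroExt (Pln p) (Pln p)) := by rw [hF, Pln.lift_x]
  have hfst : ∀ a, (F a).fst = a := by
    intro a
    have : (TrivSqZeroExt.fstHom ℂ (Pln p) (Pln p)).comp F = AlgHom.id ℂ (Pln p) := by
      apply Pln.hom_ext
      · intro k
        change (F (algebraMap K (Pln p) k)).fst = algebraMap K (Pln p) k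
        rw [hFK]
        rfl
      · change (F (Pln.x p)).fst = Pln.x p
        rw [hFx]
        rfl
    exact congrArg (fun g => g a) this
  refine ⟨derivOfHom F hfst, fun k => ?_, ?_⟩
  · rw [derivOfHom_apply, hFK]
    rfl
  · rw [derivOfHom_apply, hFx]
    rfl

theorem Pln.chart (hp : ∀ i j, i ≠ j → IsUnit (p i - p j)) {δ : Derivation ℂ (Pln p) (Pln p)}
    (h1 : ∀ k, δ (algebraMap K (Pln p) k) = 0) (h2 : δ (Pln.x p) = 1) : Chart p (Pln.x p) δ :=
  ⟨hp, Pln.inj p, Pln.unit p, Pln.surj p, h2, h1⟩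

end Pln

section Kum

variable {R : Type} [CommRing R] [Algebra ℂ R] (m : ℕ) (u : R)

/-- `R[z] / (z ^ m - u)` -/
def Kum : Type := AdjoinRoot (X ^ m - C u : R[X])

noncomputable instance : CommRing (Kum m u) :=
  inferInstanceAs (CommRing (AdjoinRoot (X ^ m - C u : R[X])))
noncomputable instance : Algebra ℂ (Kum m u) :=
  inferInstanceAs (Algebra ℂ (AdjoinRoot (X ^ m - C u : R[X])))
noncomputable instance : Algebra R (Kum m u) :=
  inferInstanceAs (Algebra R (AdjoinRoot (X ^ m - C u : R[X])))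
instance : IsScalarTower ℂ R (Kum m u) :=
  inferInstanceAs (IsScalarTower ℂ R (AdjoinRoot (X ^ m - C u : R[X])))

/-- the root -/
noncomputable def Kum.z : Kum m u := AdjoinRoot.root (X ^ m - C u : R[X])

lemma Kum.z_pow : (Kum.z m u) ^ m = algebraMap R (Kum m u) u := by
  have h := AdjoinRoot.eval₂_root (X ^ m - C u : R[X])
  rw [Polynomial.eval₂_sub, Polynomial.eval₂_X_pow, Polynomial.eval₂_C] at h
  exact sub_eq_zero.1 h

variable {A : Type} [CommRing A] [Algebra ℂ A]

/-- homomorphisms from `Kum m u` -/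
noncomputable def Kum.lift (f : R →ₐ[ℂ] A) (s : A) (h : s ^ m = f u) : Kum m u →ₐ[ℂ] A :=
  AdjoinRoot.liftAlgHom (X ^ m - C u : R[X]) f s (by
    rw [Polynomial.eval₂_sub, Polynomial.eval₂_X_pow, Polynomial.eval₂_C]
    exact sub_eq_zero.2 h)

@[simp] lemma Kum.lift_z (f : R →ₐ[ℂ] A) (s : A) (h : s ^ m = f u) :
    Kum.lift m u f s h (Kum.z m u) = s := by
  unfold Kum.lift Kum.z
  exact AdjoinRoot.liftAlgHom_root _ _ _ _

@[simp] lemma Kum.lift_R (f : R →ₐ[ℂ] A) (s : A) (h : s ^ m = f u) (r : R) :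
    Kum.lift m u f s h (algebraMap R (Kum m u) r) = f r := by
  unfold Kum.lift
  exact AdjoinRoot.liftAlgHom_of _ _ _ _ _

lemma Kum.hom_ext {g1 g2 : Kum m u →ₐ[ℂ] A} (hR : ∀ r, g1 (algebraMap R (Kum m u) r)
    = g2 (algebraMap R (Kum m u) r)) (hz : g1 (Kum.z m u) = g2 (Kum.z m u)) : g1 = g2 := by
  apply AlgHom.ext
  intro a
  obtain ⟨B, rfl⟩ := AdjoinRoot.mk_surjective (g := (X ^ m - C u : R[X])) a
  induction B using Polynomial.induction_on' with
  | add p q hp hq =>
    rw [map_add]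
    exact (map_add g1 _ _).trans (by rw [hp, hq]; exact (map_add g2 _ _).symm)
  | monomial n b =>
    have h : (AdjoinRoot.mk (X ^ m - C u : R[X]) (monomial n b) : Kum m u)
        = algebraMap R (Kum m u) b * (Kum.z m u) ^ n := by
      rw [← C_mul_X_pow_eq_monomial, map_mul, map_pow, AdjoinRoot.mk_X, AdjoinRoot.mk_C]
      rfl
    rw [h, map_mul, map_mul, map_pow, map_pow, hR, hz]

lemma Kum.isUnit_z (hm : m ≠ 0) (hu : IsUnit u) : IsUnit (Kum.z m u) := by
  have h : IsUnit ((Kum.z m u) ^ m) := by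
    rw [Kum.z_pow]
    exact hu.map _
  exact (isUnit_pow_iff hm).1 h

lemma Kum.deriv_ext (hm : m ≠ 0) (hu : IsUnit u) {M : Type} [AddCommGroup M] [Module (Kum m u) M]
    [Module ℂ M] [IsScalarTower ℂ (Kum m u) M]
    {D1 D2 : Derivation ℂ (Kum m u) M} (hR : ∀ r, D1 (algebraMap R (Kum m u) r)
    = D2 (algebraMap R (Kum m u) r)) (f : Kum m u) : D1 f = D2 f := by
  have hz : D1 (Kum.z m u) = D2 (Kum.z m u) := by
    have h1 := congrArg D1 (Kum.z_pow m u)
    have h2 := congrArg D2 (Kum.z_pow m u)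
    rw [Derivation.leibniz_pow] at h1 h2
    rw [hR, ← h2] at h1
    have h3 : ∀ y : M, m • (Kum.z m u ^ (m - 1) • y) = (algebraMap ℂ (Kum m u) m * Kum.z m u ^ (m - 1)) • y := by
      intro y
      rw [mul_smul, algebraMap_smul, Nat.cast_smul_eq_nsmul]
    rw [h3, h3] at h1
    have h4 : IsUnit (algebraMap ℂ (Kum m u) m * Kum.z m u ^ (m - 1)) :=
      (isUnit_algebraMap (by exact_mod_cast hm)).mul ((Kum.isUnit_z m u hm hu).pow _)
    exact h4.smul_left_cancel.1 h1
  obtain ⟨B, rfl⟩ := AdjoinRoot.mk_surjective (g := (X ^ m - C u : R[X])) f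
  induction B using Polynomial.induction_on' with
  | add p q hp hq =>
    rw [map_add]
    exact (map_add D1 _ _).trans (by rw [hp, hq]; exact (map_add D2 _ _).symm)
  | monomial n b =>
    have h : (AdjoinRoot.mk (X ^ m - C u : R[X]) (monomial n b) : Kum m u)
        = algebraMap R (Kum m u) b * (Kum.z m u) ^ n := by
      rw [← C_mul_X_pow_eq_monomial, map_mul, map_pow, AdjoinRoot.mk_X, AdjoinRoot.mk_C]
      rfl
    rw [h, Derivation.leibniz, Derivation.leibniz, Derivation.leibniz_pow, Derivation.leibniz_pow,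
      hR, hz]

lemma Kum.exists_deriv (hm : m ≠ 0) (hu : IsUnit u) (Δ : Derivation ℂ R (Kum m u)) :
    ∃ D : Derivation ℂ (Kum m u) (Kum m u), ∀ r, D (algebraMap R (Kum m u) r) = Δ r := by
  obtain ⟨v, hv⟩ := hu.exists_right_inv
  obtain ⟨ν, hν⟩ : ∃ ν, ν = algebraMap ℂ (Kum m u) (m : ℂ)⁻¹ * algebraMap R (Kum m u) v * Δ u :=
    ⟨_, rfl⟩
  obtain ⟨s, hs1, hs2⟩ : ∃ s : TrivSqZeroExt (Kum m u) (Kum m u), s.fst = Kum.z m u ∧
      s.snd = Kum.z m u * ν := ⟨(Kum.z m u, Kum.z m u * ν), rfl, rfl⟩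
  have hs : s ^ m = homOfDeriv Δ u := by
    apply TrivSqZeroExt.ext
    · rw [TrivSqZeroExt.fst_pow, hs1]
      exact Kum.z_pow m u
    · rw [TrivSqZeroExt.snd_pow, homOfDeriv_snd, hs1, hs2, Nat.pred_eq_sub_one, smul_eq_mul]
      rw [← mul_assoc, ← pow_succ, Nat.sub_add_cancel (Nat.one_le_iff_ne_zero.2 hm), Kum.z_pow, hν,
        nsmul_eq_mul]
      have h1 : (m : Kum m u) = algebraMap ℂ (Kum m u) m := by rw [map_natCast]
      rw [h1]
      have h2 : algebraMap ℂ (Kum m u) m * (algebraMap R (Kum m u) u *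
          (algebraMap ℂ (Kum m u) (m : ℂ)⁻¹ * algebraMap R (Kum m u) v * Δ u))
        = (algebraMap ℂ (Kum m u) m * algebraMap ℂ (Kum m u) (m : ℂ)⁻¹)
          * (algebraMap R (Kum m u) u * algebraMap R (Kum m u) v) * Δ u := by ring
      rw [h2, ← map_mul, ← map_mul, hv, mul_inv_cancel₀ (by exact_mod_cast hm), map_one, map_one,
        one_mul, one_mul]
  obtain ⟨F, hF⟩ : ∃ F, F = Kum.lift m u (homOfDeriv Δ) s hs := ⟨_, rfl⟩
  have hFR : ∀ r, F (algebraMap R (Kum m u) r) = homOfDeriv Δ r := fun r => by rw [hF, Kum.lift_R]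
  have hFz : F (Kum.z m u) = s := by
    rw [hF, Kum.lift_z]
  have hfst : ∀ a, (F a).fst = a := by
    intro a
    have : (TrivSqZeroExt.fstHom ℂ (Kum m u) (Kum m u)).comp F = AlgHom.id ℂ (Kum m u) := by
      apply Kum.hom_ext
      · intro r
        change (F (algebraMap R (Kum m u) r)).fst = algebraMap R (Kum m u) r
        rw [hFR]
        rfl
      · change (F (Kum.z m u)).fst = Kum.z m u
        rw [hFz]
        exact hs1
    exact congrArg (fun g => g a) this
  refine ⟨derivOfHom F hfst, fun r => ?_⟩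
  rw [derivOfHom_apply, hFR]
  rfl

lemma Kum.monic (hm : m ≠ 0) : (X ^ m - C u : R[X]).Monic := Polynomial.monic_X_pow_sub_C u hm

/-- every element is a combination of powers of `z` -/
lemma Kum.exists_coords [Nontrivial R] (hm : m ≠ 0) (f : Kum m u) :
    ∃ a : Fin m → R, f = ∑ i, algebraMap R (Kum m u) (a i) * (Kum.z m u) ^ (i : ℕ) := by
  obtain ⟨B, rfl⟩ := AdjoinRoot.mk_surjective (g := (X ^ m - C u : R[X])) f
  obtain ⟨Q, hQ⟩ : ∃ Q, Q = B %ₘ (X ^ m - C u) := ⟨_, rfl⟩
  have h1 : AdjoinRoot.mk (X ^ m - C u : R[X]) B = AdjoinRoot.mk (X ^ m - C u : R[X]) Q := by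
    rw [AdjoinRoot.mk_eq_mk, hQ]
    refine ⟨B /ₘ (X ^ m - C u), ?_⟩
    have := Polynomial.modByMonic_add_div B (X ^ m - C u : R[X])
    rw [sub_eq_iff_eq_add']
    exact this.symm
  have h2 : Q.natDegree < m := by
    rw [hQ]
    have := Polynomial.natDegree_modByMonic_lt B (Kum.monic m u hm) (by
      intro h
      have := congrArg Polynomial.natDegree h
      rw [Polynomial.natDegree_X_pow_sub_C, Polynomial.natDegree_one] at this
      exact hm this)
    rwa [Polynomial.natDegree_X_pow_sub_C] at this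
  refine ⟨fun i => Q.coeff i, ?_⟩
  change AdjoinRoot.mk (X ^ m - C u : R[X]) B = _
  rw [h1]
  conv_lhs => rw [Polynomial.as_sum_range' Q m h2]
  rw [map_sum, Finset.sum_range]
  apply Finset.sum_congr rfl
  intro i _
  rw [← C_mul_X_pow_eq_monomial, map_mul, map_pow, AdjoinRoot.mk_X, AdjoinRoot.mk_C]
  rfl

/-- the coordinates are unique -/
lemma Kum.coords_unique [Nontrivial R] (hm : m ≠ 0) (a : Fin m → R)
    (h : ∑ i, algebraMap R (Kum m u) (a i) * (Kum.z m u) ^ (i : ℕ) = 0) (i : Fin m) : a i = 0 := by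
  obtain ⟨Q, hQ⟩ : ∃ Q : R[X], Q = ∑ i : Fin m, monomial (i : ℕ) (a i) := ⟨_, rfl⟩
  have h1 : (AdjoinRoot.mk (X ^ m - C u : R[X]) Q : Kum m u) = 0 := by
    refine Eq.trans ?_ h
    rw [hQ, map_sum]
    apply Finset.sum_congr rfl
    intro i _
    rw [← C_mul_X_pow_eq_monomial, map_mul, map_pow, AdjoinRoot.mk_X, AdjoinRoot.mk_C]
    rfl
  have h2 : (X ^ m - C u : R[X]) ∣ Q := AdjoinRoot.mk_eq_zero.1 h1
  have h3 : Q.degree < (X ^ m - C u : R[X]).degree := by
    rw [Polynomial.degree_X_pow_sub_C (Nat.pos_of_ne_zero hm), hQ]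
    refine lt_of_le_of_lt (Polynomial.degree_sum_le _ _) ?_
    refine (Finset.sup_lt_iff (by exact_mod_cast WithBot.bot_lt_coe m)).2 ?_
    intro i _
    exact lt_of_le_of_lt (Polynomial.degree_monomial_le _ _) (by exact_mod_cast i.2)
  have h4 := (Polynomial.modByMonic_eq_zero_iff_dvd (Kum.monic m u hm)).2 h2
  rw [(Polynomial.modByMonic_eq_self_iff (Kum.monic m u hm)).2 h3] at h4
  have h5 := congrArg (fun q => q.coeff (i : ℕ)) h4
  simp only [hQ, Polynomial.finsetSum_coeff, Polynomial.coeff_monomial, Polynomial.coeff_zero] at h5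
  rw [Finset.sum_eq_single i] at h5
  · simpa using h5
  · intro j _ hj
    rw [if_neg (fun h => hj (Fin.ext h))]
  · intro h; exact absurd (Finset.mem_univ _) h

end Kum

end Pool.Agent.MPdc7581
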