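import Pool.Agent.MPdc7581.Quasi

/-!
# Formality
-/

set_option linter.unusedSectionVars false
set_option linter.unusedSimpArgs false
set_option linter.style.haveILetI false

open Polynomial

namespace Pool.Agent.MPdc7581

section

variable {S : Type} [CommRing S] [Algebra ℂ S] {t σ w y : S} {e : Fin 3 → S} {D δ : Derivation ℂ S S}
  {D1 D2 D3 : Derivation ℂ S[X] S[X]}

lemma dd_memB (s : Surf t σ w y e D δ) {W : Submodule ℂ S}
    (h1 : ∀ B n, (D1 B).coeff n = D (B.coeff n))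
    (h2 : ∀ B n, (D2 B).coeff n = δ (B.coeff n)) (h3 : ∀ B, D3 B = derivative B)
    {a : Frm S[X]} (ha : MemB t σ e W a) : Frm.dd D1 D2 D3 a = 0 := by
  obtain ⟨c, hc⟩ := ha.o
  obtain ⟨α, β, k1, k2⟩ := ha.xy'
  obtain ⟨v, hv, hv1⟩ := ha.w
  have hC : (C (algebraMap ℂ S c) : S[X]) = algebraMap ℂ S[X] c := rfl
  ext1
  · rfl
  · change D1 a.o = 0
    rw [hc, hC, Derivation.map_algebraMap]
  · change D2 a.o = 0
    rw [hc, hC, Derivation.map_algebraMap]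
  · change D3 a.o = 0
    rw [hc, hC, Derivation.map_algebraMap]
  · change D1 a.y - D2 a.x = 0
    rw [k1, k2, cD_C h1, cD_C h2, ← map_sub]
    have := s.closed α β
    unfold bx bY
    rw [this, sub_self, map_zero]
  · change D1 a.z - D3 a.x = 0
    rw [ha.z, k1, h3, derivative_C, map_zero, sub_zero]
  · change D2 a.z - D3 a.y = 0
    rw [ha.z, k2, h3, derivative_C, map_zero, sub_zero]
  · change D1 a.yz - D2 a.xz + D3 a.xy = 0
    rw [ha.yz, ha.xz, hv1, h3, derivative_C, map_zero, map_zero, sub_zero, add_zero]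

lemma dd_x {a b : Frm S[X]} (h : Frm.dd D1 D2 D3 b = a) : D1 b.o = a.x := by rw [← h]; rfl
lemma dd_y {a b : Frm S[X]} (h : Frm.dd D1 D2 D3 b = a) : D2 b.o = a.y := by rw [← h]; rfl
lemma dd_z {a b : Frm S[X]} (h : Frm.dd D1 D2 D3 b = a) : D3 b.o = a.z := by rw [← h]; rfl
lemma dd_xy {a b : Frm S[X]} (h : Frm.dd D1 D2 D3 b = a) : D1 b.y - D2 b.x = a.xy := by
  rw [← h]; rfl
lemma dd_xz {a b : Frm S[X]} (h : Frm.dd D1 D2 D3 b = a) : D1 b.z - D3 b.x = a.xz := by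
  rw [← h]; rfl
lemma dd_yz {a b : Frm S[X]} (h : Frm.dd D1 D2 D3 b = a) : D2 b.z - D3 b.y = a.yz := by
  rw [← h]; rfl
lemma dd_xyz {a b : Frm S[X]} (h : Frm.dd D1 D2 D3 b = a) :
    D1 b.yz - D2 b.xz + D3 b.xy = a.xyz := by rw [← h]; rfl

lemma memB_surj0 (s : Surf t σ w y e D δ) {W : Submodule ℂ S}
    (h1 : ∀ B n, (D1 B).coeff n = D (B.coeff n))
    (h2 : ∀ B n, (D2 B).coeff n = δ (B.coeff n)) (h3 : ∀ B, D3 B = derivative B)
    {b : Frm S[X]} (hb : b ∈ (Frm.gr 0 : Submodule ℂ (Frm S[X]))) (hd : Frm.dd D1 D2 D3 b = 0) :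
    MemB t σ e W b := by
  rw [Frm.mem_gr0] at hb
  have k1 := dd_x hd
  have k2 := dd_y hd
  have k3 := dd_z hd
  rw [h3] at k3
  have k4 := eq_C_of_derivative_eq_zero k3
  rw [k4, cD_C h1] at k1
  rw [k4, cD_C h2] at k2
  obtain ⟨c, hc⟩ := s.H0 (b.o.coeff 0) (Polynomial.C_eq_zero.1 k1) (Polynomial.C_eq_zero.1 k2)
  exact ⟨⟨c, by rw [k4, hc]⟩, ⟨0, 0, by simp [bx, hb], by simp [bY, hb]⟩, hb.2.2.1,
    ⟨0, W.zero_mem, by simp [hb]⟩, hb.2.2.2.2.1, hb.2.2.2.2.2.1, hb.2.2.2.2.2.2⟩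

lemma memB_surj1 (s : Surf t σ w y e D δ) {W : Submodule ℂ S}
    (h1 : ∀ B n, (D1 B).coeff n = D (B.coeff n))
    (h2 : ∀ B n, (D2 B).coeff n = δ (B.coeff n)) (h3 : ∀ B, D3 B = derivative B)
    (h12 : ∀ a, D1 (D2 a) = D2 (D1 a)) (h13 : ∀ a, D1 (D3 a) = D3 (D1 a))
    (h23 : ∀ a, D2 (D3 a) = D3 (D2 a))
    {b : Frm S[X]} (hb : b ∈ (Frm.gr 1 : Submodule ℂ (Frm S[X]))) (hd : Frm.dd D1 D2 D3 b = 0) :
    ∃ a : Frm S[X], MemB t σ e W a ∧ a ∈ (Frm.gr 1 : Submodule ℂ (Frm S[X])) ∧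
      ∃ c, a + Frm.dd D1 D2 D3 c = b := by
  rw [Frm.mem_gr1] at hb
  have k1 := dd_xy hd
  have k2 := dd_xz hd
  have k3 := dd_yz hd
  rw [Frm.zero_xy] at k1
  rw [Frm.zero_xz] at k2
  rw [Frm.zero_yz] at k3
  obtain ⟨h, hh⟩ := exists_antideriv b.z
  rw [← h3] at hh
  have e1 : derivative (b.x - D1 h) = 0 := by
    rw [← h3, map_sub, ← h13, hh]
    linear_combination -k2
  have e2 : derivative (b.y - D2 h) = 0 := by
    rw [← h3, map_sub, ← h23, hh]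
    linear_combination -k3
  have e3 := eq_C_of_derivative_eq_zero e1
  have e4 := eq_C_of_derivative_eq_zero e2
  obtain ⟨F, hF⟩ : ∃ F, F = (b.x - D1 h).coeff 0 := ⟨_, rfl⟩
  obtain ⟨G, hG⟩ : ∃ G, G = (b.y - D2 h).coeff 0 := ⟨_, rfl⟩
  rw [← hF] at e3
  rw [← hG] at e4
  have e5 : D1 (b.y - D2 h) - D2 (b.x - D1 h) = 0 := by
    rw [map_sub, map_sub, h12]
    linear_combination k1
  rw [e3, e4, cD_C h1, cD_C h2, ← map_sub] at e5
  obtain ⟨h', α, β, i1, i2⟩ := s.H1 F G (sub_eq_zero.1 (Polynomial.C_eq_zero.1 e5))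
  refine ⟨⟨0, C (bx t σ e α β), C (bY e β), 0, 0, 0, 0, 0⟩,
    ⟨⟨0, by simp⟩, ⟨α, β, rfl, rfl⟩, rfl, ⟨0, W.zero_mem, by simp⟩, rfl, rfl, rfl⟩,
    Frm.mem_gr1.2 ⟨rfl, rfl, rfl, rfl, rfl⟩, Frm.incl (h + C h'), ?_⟩
  have j1 : C F = C (D h') + C (bx t σ e α β) := by
    rw [i1, ← map_add]
    congr 1
    unfold bx
    ring
  have j2 : C G = C (δ h') + C (bY e β) := by
    rw [i2, ← map_add]
    rfl
  ext1
  · change 0 + 0 = b.o
    rw [hb.1, add_zero]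
  · change C (bx t σ e α β) + D1 (h + C h') = b.x
    rw [map_add, cD_C h1]
    linear_combination -e3 - j1
  · change C (bY e β) + D2 (h + C h') = b.y
    rw [map_add, cD_C h2]
    linear_combination -e4 - j2
  · change 0 + D3 (h + C h') = b.z
    rw [map_add, hh, h3, derivative_C]
    ring
  · change 0 + (D1 0 - D2 0) = b.xy
    rw [hb.2.1, map_zero, map_zero]; ring
  · change 0 + (D1 0 - D3 0) = b.xz
    rw [hb.2.2.1, map_zero, map_zero]; ring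
  · change 0 + (D2 0 - D3 0) = b.yz
    rw [hb.2.2.2.1, map_zero, map_zero]; ring
  · change 0 + (D1 0 - D2 0 + D3 0) = b.xyz
    rw [hb.2.2.2.2, map_zero, map_zero, map_zero]; ring

lemma memB_surj2 (s : Surf t σ w y e D δ) {W : Submodule ℂ S}
    (hW3 : ∀ v, ∃ v1 ∈ W, ∃ v2 ∈ exF D δ, v = v1 + v2)
    (h1 : ∀ B n, (D1 B).coeff n = D (B.coeff n))
    (h2 : ∀ B n, (D2 B).coeff n = δ (B.coeff n)) (h3 : ∀ B, D3 B = derivative B)
    (h13 : ∀ a, D1 (D3 a) = D3 (D1 a))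
    (h23 : ∀ a, D2 (D3 a) = D3 (D2 a))
    {b : Frm S[X]} (hb : b ∈ (Frm.gr 2 : Submodule ℂ (Frm S[X]))) (hd : Frm.dd D1 D2 D3 b = 0) :
    ∃ a : Frm S[X], MemB t σ e W a ∧ a ∈ (Frm.gr 2 : Submodule ℂ (Frm S[X])) ∧
      ∃ c, a + Frm.dd D1 D2 D3 c = b := by
  rw [Frm.mem_gr2] at hb
  have k1 := dd_xyz hd
  rw [Frm.zero_xyz] at k1
  obtain ⟨P, hP⟩ := exists_antideriv (-b.xz)
  obtain ⟨Q, hQ⟩ := exists_antideriv (-b.yz)
  rw [← h3] at hP hQ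
  have e1 : derivative (b.xy - (D1 Q - D2 P)) = 0 := by
    rw [← h3, map_sub, map_sub, ← h13, ← h23, hP, hQ, map_neg, map_neg]
    linear_combination k1
  have e3 := eq_C_of_derivative_eq_zero e1
  obtain ⟨r, hr⟩ : ∃ r, r = (b.xy - (D1 Q - D2 P)).coeff 0 := ⟨_, rfl⟩
  rw [← hr] at e3
  obtain ⟨v1, hv1, _, ⟨F, G, rfl⟩, hv⟩ := hW3 r
  refine ⟨⟨0, 0, 0, 0, C v1, 0, 0, 0⟩, ⟨⟨0, by simp⟩, ⟨0, 0, by simp [bx], by simp [bY]⟩, rfl,
    ⟨v1, hv1, rfl⟩, rfl, rfl, rfl⟩, Frm.mem_gr2.2 ⟨rfl, rfl, rfl, rfl, rfl⟩,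
    ⟨0, P + C F, Q + C G, 0, 0, 0, 0, 0⟩, ?_⟩
  have j1 : C r = C v1 + (C (D G) - C (δ F)) := by
    rw [hv, map_add, map_sub]
  ext1
  · change 0 + 0 = b.o
    rw [hb.1, add_zero]
  · change 0 + D1 0 = b.x
    rw [hb.2.1, map_zero, add_zero]
  · change 0 + D2 0 = b.y
    rw [hb.2.2.1, map_zero, add_zero]
  · change 0 + D3 0 = b.z
    rw [hb.2.2.2.1, map_zero, add_zero]
  · change C v1 + (D1 (Q + C G) - D2 (P + C F)) = b.xy
    rw [map_add, map_add, cD_C h1, cD_C h2]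
    linear_combination -e3 - j1
  · change 0 + (D1 0 - D3 (P + C F)) = b.xz
    rw [map_zero, map_add, hP, h3 (C F), derivative_C]
    ring
  · change 0 + (D2 0 - D3 (Q + C G)) = b.yz
    rw [map_zero, map_add, hQ, h3 (C G), derivative_C]
    ring
  · change 0 + (D1 0 - D2 0 + D3 0) = b.xyz
    rw [hb.2.2.2.2, map_zero, map_zero, map_zero]; ring

lemma memB_surj3 (h3 : ∀ B, D3 B = derivative B) {b : Frm S[X]}
    (hb : b ∈ (Frm.gr 3 : Submodule ℂ (Frm S[X]))) : ∃ c, Frm.dd D1 D2 D3 c = b := by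
  rw [Frm.mem_gr3] at hb
  obtain ⟨P, hP⟩ := exists_antideriv b.xyz
  rw [← h3] at hP
  refine ⟨⟨0, 0, 0, 0, P, 0, 0, 0⟩, ?_⟩
  ext1
  · change 0 = b.o
    rw [hb.1]
  · change D1 0 = b.x
    rw [hb.2.1, map_zero]
  · change D2 0 = b.y
    rw [hb.2.2.1, map_zero]
  · change D3 0 = b.z
    rw [hb.2.2.2.1, map_zero]
  · change D1 0 - D2 0 = b.xy
    rw [hb.2.2.2.2.1, map_zero, map_zero, sub_zero]
  · change D1 0 - D3 0 = b.xz
    rw [hb.2.2.2.2.2.1, map_zero, map_zero, sub_zero]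
  · change D2 0 - D3 0 = b.yz
    rw [hb.2.2.2.2.2.2, map_zero, map_zero, sub_zero]
  · change D1 0 - D2 0 + D3 P = b.xyz
    rw [map_zero, map_zero, hP]; ring

lemma memB_inj1 (s : Surf t σ w y e D δ) {W : Submodule ℂ S}
    (h1 : ∀ B n, (D1 B).coeff n = D (B.coeff n))
    (h2 : ∀ B n, (D2 B).coeff n = δ (B.coeff n))
    {a b : Frm S[X]} (ha : MemB t σ e W a) (ha1 : a ∈ (Frm.gr 1 : Submodule ℂ (Frm S[X])))
    (hd : Frm.dd D1 D2 D3 b = a) : a = 0 := by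
  rw [Frm.mem_gr1] at ha1
  obtain ⟨α, β, k1, k2⟩ := ha.xy'
  have e1 := congrArg (fun q => q.coeff 0) (dd_x hd)
  have e2 := congrArg (fun q => q.coeff 0) (dd_y hd)
  simp only [h1, h2, k1, k2, Polynomial.coeff_C_zero] at e1 e2
  obtain ⟨i1, i2⟩ := s.H1i _ α β e1 e2
  ext1 <;> simp [ha1, ha.z, k1, k2, i1, i2, bx, bY]

lemma memB_inj2 {W : Submodule ℂ S}
    (hW2 : ∀ v ∈ W, v ∈ exF D δ → v = 0)
    (h1 : ∀ B n, (D1 B).coeff n = D (B.coeff n))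
    (h2 : ∀ B n, (D2 B).coeff n = δ (B.coeff n))
    {a b : Frm S[X]} (ha : MemB t σ e W a) (ha1 : a ∈ (Frm.gr 2 : Submodule ℂ (Frm S[X])))
    (hd : Frm.dd D1 D2 D3 b = a) : a = 0 := by
  rw [Frm.mem_gr2] at ha1
  obtain ⟨v, hv, k1⟩ := ha.w
  have e1 := congrArg (fun q => q.coeff 0) (dd_xy hd)
  simp only [h1, h2, k1, Polynomial.coeff_C_zero, Polynomial.coeff_sub] at e1
  have := hW2 v hv ⟨_, _, e1.symm⟩
  ext1 <;> simp [ha1, ha.xz, ha.yz, k1, this]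

theorem Surf.formal (s : Surf t σ w y e D δ) (h1 : ∀ B n, (D1 B).coeff n = D (B.coeff n))
    (h2 : ∀ B n, (D2 B).coeff n = δ (B.coeff n)) (h3 : ∀ B, D3 B = derivative B)
    (h12 : ∀ a, D1 (D2 a) = D2 (D1 a)) (h13 : ∀ a, D1 (D3 a) = D3 (D1 a))
    (h23 : ∀ a, D2 (D3 a) = D3 (D2 a)) : (Frm.forms S[X] D1 D2 D3 h12 h13 h23).Formal := by
  obtain ⟨W, hW, hW2, hW3⟩ := s.exists_W
  refine ⟨modB s hW, fun _ => rfl, Relation.EqvGen.symm _ _ (Relation.EqvGen.rel _ _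
    ⟨⟨(subB s hW).val, fun {p a} ha => ha, fun a => ?_⟩, ?_⟩)⟩
  · change ((0 : subB s hW) : Frm S[X]) = Frm.dd D1 D2 D3 a.1
    rw [dd_memB s h1 h2 h3 a.2]
    rfl
  · intro p
    match p with
    | 0 =>
      constructor
      · rintro a ha - ⟨b, hb⟩
        refine ⟨0, ?_⟩
        apply Subtype.ext
        change (0 : Frm S[X]) = a.1
        have hb' : Frm.dd D1 D2 D3 b = a.1 := hb
        have ha' : a.1 ∈ Frm.gr 0 := ha
        rw [Frm.mem_gr0] at ha'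
        have ho : a.1.o = 0 := by rw [← hb']; rfl
        ext1 <;> simp [ha', ho]
      · intro b hb hd
        refine ⟨⟨b, memB_surj0 s h1 h2 h3 hb hd⟩, hb, rfl, 0, ?_⟩
        have k : ∀ b : Frm S[X], b + Frm.dd D1 D2 D3 0 = b := fun b => by rw [map_zero, add_zero]
        exact k b
    | 1 =>
      constructor
      · rintro a ha - ⟨b, hb⟩
        exact ⟨0, (Subtype.ext (memB_inj1 s h1 h2 a.2 ha hb)).symm⟩
      · intro b hb hd
        obtain ⟨a, m1, m2, c, hc⟩ := memB_surj1 s (W := W) h1 h2 h3 h12 h13 h23 hb hd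
        exact ⟨⟨a, m1⟩, m2, rfl, c, hc⟩
    | 2 =>
      constructor
      · rintro a ha - ⟨b, hb⟩
        exact ⟨0, (Subtype.ext (memB_inj2 hW2 h1 h2 a.2 ha hb)).symm⟩
      · intro b hb hd
        obtain ⟨a, m1, m2, c, hc⟩ := memB_surj2 s hW3 h1 h2 h3 h13 h23 hb hd
        exact ⟨⟨a, m1⟩, m2, rfl, c, hc⟩
    | 3 =>
      constructor
      · rintro a ha - ⟨b, hb⟩
        refine ⟨0, ?_⟩
        apply Subtype.ext
        change (0 : Frm S[X]) = a.1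
        have ha' : a.1 ∈ Frm.gr 3 := ha
        have hm : MemB t σ e W a.1 := a.2
        rw [Frm.mem_gr3] at ha'
        ext1 <;> simp [ha', hm.xyz]
      · intro b hb hd
        obtain ⟨c, hc⟩ := memB_surj3 (D1 := D1) (D2 := D2) (D3 := D3) h3 hb
        refine ⟨0, Submodule.zero_mem _, rfl, c, ?_⟩
        change 0 + Frm.dd D1 D2 D3 c = b
        rw [hc, zero_add]
    | q + 4 =>
      constructor
      · rintro a ha - ⟨b, hb⟩
        exact ⟨0, (Subtype.ext (Frm.mem_gr4.1 ha)).symm⟩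
      · intro b hb hd
        refine ⟨0, Submodule.zero_mem _, rfl, 0, ?_⟩
        change 0 + Frm.dd D1 D2 D3 0 = b
        rw [Frm.mem_gr4.1 hb, map_zero, zero_add]

end

/-- The algebraic de Rham algebra of the Milnor fiber of the braid arrangement `A_3` is formal. -/
theorem milnor_A3 : ∃ (Ω : CDGA) (ι : MilnorRing 3 →ₐ[ℂ] Ω.A), CDGA.IsDeRham Ω ι ∧ Ω.Formal ∧
    Ω.OneFormal := by
  obtain ⟨S, _, _, t, σ, w, y, e, D, δ, s⟩ := exists_surf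
  obtain ⟨D1, h1⟩ := exists_cD D
  obtain ⟨D2, h2⟩ := exists_cD δ
  obtain ⟨D3, h3⟩ := exists_dX S
  obtain ⟨E⟩ := s.iso
  have h12 : ∀ a, D1 (D2 a) = D2 (D1 a) := cD_comm h1 h2 s.comm
  have h13 : ∀ a, D1 (D3 a) = D3 (D1 a) := fun a => by rw [h3, h3, cD_derivative h1]
  have h23 : ∀ a, D2 (D3 a) = D3 (D2 a) := fun a => by rw [h3, h3, cD_derivative h2]
  have hf := s.formal h1 h2 h3 h12 h13 h23
  exact ⟨_, _, Frm.isDeRham_forms h12 h13 h23 (s.coord h1 h2 h3) E, hf, hf.oneFormal⟩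

end Pool.Agent.MPdc7581
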