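import Pool.Agent.MPdc7581.Cdga

/-!
# Differential forms in three variables with coefficients in a commutative ring
-/

namespace Pool.Agent.MPdc7581

/-- Forms with coefficients in `C` in the variables `x, y, z`. -/
@[ext] structure Frm (C : Type) where
  o : C
  x : C
  y : C
  z : C
  xy : C
  xz : C
  yz : C
  xyz : C

namespace Frm

variable {C : Type} [CommRing C]

instance : Zero (Frm C) := ⟨⟨0, 0, 0, 0, 0, 0, 0, 0⟩⟩
instance : One (Frm C) := ⟨⟨1, 0, 0, 0, 0, 0, 0, 0⟩⟩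
instance : Add (Frm C) := ⟨fun a b => ⟨a.o + b.o, a.x + b.x, a.y + b.y, a.z + b.z, a.xy + b.xy,
  a.xz + b.xz, a.yz + b.yz, a.xyz + b.xyz⟩⟩
instance : Neg (Frm C) := ⟨fun a => ⟨-a.o, -a.x, -a.y, -a.z, -a.xy, -a.xz, -a.yz, -a.xyz⟩⟩
instance : Sub (Frm C) := ⟨fun a b => ⟨a.o - b.o, a.x - b.x, a.y - b.y, a.z - b.z, a.xy - b.xy,
  a.xz - b.xz, a.yz - b.yz, a.xyz - b.xyz⟩⟩
instance : Mul (Frm C) := ⟨fun a b => ⟨a.o * b.o, a.o * b.x + a.x * b.o, a.o * b.y + a.y * b.o,
  a.o * b.z + a.z * b.o, a.o * b.xy + a.xy * b.o + a.x * b.y - a.y * b.x,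
  a.o * b.xz + a.xz * b.o + a.x * b.z - a.z * b.x, a.o * b.yz + a.yz * b.o + a.y * b.z - a.z * b.y,
  a.o * b.xyz + a.xyz * b.o + a.x * b.yz - a.y * b.xz + a.z * b.xy + a.xy * b.z - a.xz * b.y
    + a.yz * b.x⟩⟩

@[simp] lemma zero_o : (0 : Frm C).o = 0 := rfl
@[simp] lemma zero_x : (0 : Frm C).x = 0 := rfl
@[simp] lemma zero_y : (0 : Frm C).y = 0 := rfl
@[simp] lemma zero_z : (0 : Frm C).z = 0 := rfl
@[simp] lemma zero_xy : (0 : Frm C).xy = 0 := rfl
@[simp] lemma zero_xz : (0 : Frm C).xz = 0 := rfl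
@[simp] lemma zero_yz : (0 : Frm C).yz = 0 := rfl
@[simp] lemma zero_xyz : (0 : Frm C).xyz = 0 := rfl
@[simp] lemma one_o : (1 : Frm C).o = 1 := rfl
@[simp] lemma one_x : (1 : Frm C).x = 0 := rfl
@[simp] lemma one_y : (1 : Frm C).y = 0 := rfl
@[simp] lemma one_z : (1 : Frm C).z = 0 := rfl
@[simp] lemma one_xy : (1 : Frm C).xy = 0 := rfl
@[simp] lemma one_xz : (1 : Frm C).xz = 0 := rfl
@[simp] lemma one_yz : (1 : Frm C).yz = 0 := rfl
@[simp] lemma one_xyz : (1 : Frm C).xyz = 0 := rfl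
@[simp] lemma add_o (a b : Frm C) : (a + b).o = a.o + b.o := rfl
@[simp] lemma add_x (a b : Frm C) : (a + b).x = a.x + b.x := rfl
@[simp] lemma add_y (a b : Frm C) : (a + b).y = a.y + b.y := rfl
@[simp] lemma add_z (a b : Frm C) : (a + b).z = a.z + b.z := rfl
@[simp] lemma add_xy (a b : Frm C) : (a + b).xy = a.xy + b.xy := rfl
@[simp] lemma add_xz (a b : Frm C) : (a + b).xz = a.xz + b.xz := rfl
@[simp] lemma add_yz (a b : Frm C) : (a + b).yz = a.yz + b.yz := rfl
@[simp] lemma add_xyz (a b : Frm C) : (a + b).xyz = a.xyz + b.xyz := rfl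
@[simp] lemma neg_o (a : Frm C) : (-a).o = -a.o := rfl
@[simp] lemma neg_x (a : Frm C) : (-a).x = -a.x := rfl
@[simp] lemma neg_y (a : Frm C) : (-a).y = -a.y := rfl
@[simp] lemma neg_z (a : Frm C) : (-a).z = -a.z := rfl
@[simp] lemma neg_xy (a : Frm C) : (-a).xy = -a.xy := rfl
@[simp] lemma neg_xz (a : Frm C) : (-a).xz = -a.xz := rfl
@[simp] lemma neg_yz (a : Frm C) : (-a).yz = -a.yz := rfl
@[simp] lemma neg_xyz (a : Frm C) : (-a).xyz = -a.xyz := rfl
@[simp] lemma sub_o (a b : Frm C) : (a - b).o = a.o - b.o := rfl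
@[simp] lemma sub_x (a b : Frm C) : (a - b).x = a.x - b.x := rfl
@[simp] lemma sub_y (a b : Frm C) : (a - b).y = a.y - b.y := rfl
@[simp] lemma sub_z (a b : Frm C) : (a - b).z = a.z - b.z := rfl
@[simp] lemma sub_xy (a b : Frm C) : (a - b).xy = a.xy - b.xy := rfl
@[simp] lemma sub_xz (a b : Frm C) : (a - b).xz = a.xz - b.xz := rfl
@[simp] lemma sub_yz (a b : Frm C) : (a - b).yz = a.yz - b.yz := rfl
@[simp] lemma sub_xyz (a b : Frm C) : (a - b).xyz = a.xyz - b.xyz := rfl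
@[simp] lemma mul_o (a b : Frm C) : (a * b).o = a.o * b.o := rfl
@[simp] lemma mul_x (a b : Frm C) : (a * b).x = a.o * b.x + a.x * b.o := rfl
@[simp] lemma mul_y (a b : Frm C) : (a * b).y = a.o * b.y + a.y * b.o := rfl
@[simp] lemma mul_z (a b : Frm C) : (a * b).z = a.o * b.z + a.z * b.o := rfl
@[simp] lemma mul_xy (a b : Frm C) :
    (a * b).xy = a.o * b.xy + a.xy * b.o + a.x * b.y - a.y * b.x := rfl
@[simp] lemma mul_xz (a b : Frm C) :
    (a * b).xz = a.o * b.xz + a.xz * b.o + a.x * b.z - a.z * b.x := rfl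
@[simp] lemma mul_yz (a b : Frm C) :
    (a * b).yz = a.o * b.yz + a.yz * b.o + a.y * b.z - a.z * b.y := rfl
@[simp] lemma mul_xyz (a b : Frm C) : (a * b).xyz = a.o * b.xyz + a.xyz * b.o + a.x * b.yz
    - a.y * b.xz + a.z * b.xy + a.xy * b.z - a.xz * b.y + a.yz * b.x := rfl

instance : Ring (Frm C) where
  add_assoc a b c := by ext <;> simp <;> ring
  zero_add a := by ext <;> simp
  add_zero a := by ext <;> simp
  add_comm a b := by ext <;> simp <;> ring
  neg_add_cancel a := by ext <;> simp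
  sub_eq_add_neg a b := by ext <;> simp <;> ring
  nsmul := nsmulRec
  zsmul := zsmulRec
  mul_assoc a b c := by ext <;> simp <;> ring
  one_mul a := by ext <;> simp
  mul_one a := by ext <;> simp
  zero_mul a := by ext <;> simp
  mul_zero a := by ext <;> simp
  left_distrib a b c := by ext <;> simp <;> ring
  right_distrib a b c := by ext <;> simp <;> ring

/-- functions as forms of degree `0` -/
def incl : C →+* Frm C where
  toFun c := ⟨c, 0, 0, 0, 0, 0, 0, 0⟩
  map_one' := rfl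
  map_mul' a b := by ext <;> simp
  map_zero' := rfl
  map_add' a b := by ext <;> simp

@[simp] lemma incl_o (c : C) : (incl c).o = c := rfl
@[simp] lemma incl_x (c : C) : (incl c).x = 0 := rfl
@[simp] lemma incl_y (c : C) : (incl c).y = 0 := rfl
@[simp] lemma incl_z (c : C) : (incl c).z = 0 := rfl
@[simp] lemma incl_xy (c : C) : (incl c).xy = 0 := rfl
@[simp] lemma incl_xz (c : C) : (incl c).xz = 0 := rfl
@[simp] lemma incl_yz (c : C) : (incl c).yz = 0 := rfl
@[simp] lemma incl_xyz (c : C) : (incl c).xyz = 0 := rfl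

variable [Algebra ℂ C]

instance : Algebra ℂ (Frm C) :=
  RingHom.toAlgebra' (incl.comp (algebraMap ℂ C)) (by
    intro c a
    simp only [RingHom.comp_apply]
    ext <;> simp <;> ring)

lemma algebraMap_eq (r : ℂ) : algebraMap ℂ (Frm C) r = incl (algebraMap ℂ C r) := rfl

lemma smul_eq (r : ℂ) (a : Frm C) : r • a = ⟨r • a.o, r • a.x, r • a.y, r • a.z, r • a.xy,
    r • a.xz, r • a.yz, r • a.xyz⟩ := by
  rw [Algebra.smul_def, algebraMap_eq]
  ext <;> simp [Algebra.smul_def]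

@[simp] lemma smul_o (r : ℂ) (a : Frm C) : (r • a).o = r • a.o := by rw [smul_eq]
@[simp] lemma smul_x (r : ℂ) (a : Frm C) : (r • a).x = r • a.x := by rw [smul_eq]
@[simp] lemma smul_y (r : ℂ) (a : Frm C) : (r • a).y = r • a.y := by rw [smul_eq]
@[simp] lemma smul_z (r : ℂ) (a : Frm C) : (r • a).z = r • a.z := by rw [smul_eq]
@[simp] lemma smul_xy (r : ℂ) (a : Frm C) : (r • a).xy = r • a.xy := by rw [smul_eq]
@[simp] lemma smul_xz (r : ℂ) (a : Frm C) : (r • a).xz = r • a.xz := by rw [smul_eq]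
@[simp] lemma smul_yz (r : ℂ) (a : Frm C) : (r • a).yz = r • a.yz := by rw [smul_eq]
@[simp] lemma smul_xyz (r : ℂ) (a : Frm C) : (r • a).xyz = r • a.xyz := by rw [smul_eq]

/-- projections on the homogeneous components -/
def pr : ℕ → Frm C →ₗ[ℂ] Frm C
  | 0 => { toFun := fun a => ⟨a.o, 0, 0, 0, 0, 0, 0, 0⟩
           map_add' := fun a b => by ext <;> simp
           map_smul' := fun r a => by ext <;> simp }
  | 1 => { toFun := fun a => ⟨0, a.x, a.y, a.z, 0, 0, 0, 0⟩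
           map_add' := fun a b => by ext <;> simp
           map_smul' := fun r a => by ext <;> simp }
  | 2 => { toFun := fun a => ⟨0, 0, 0, 0, a.xy, a.xz, a.yz, 0⟩
           map_add' := fun a b => by ext <;> simp
           map_smul' := fun r a => by ext <;> simp }
  | 3 => { toFun := fun a => ⟨0, 0, 0, 0, 0, 0, 0, a.xyz⟩
           map_add' := fun a b => by ext <;> simp
           map_smul' := fun r a => by ext <;> simp }
  | _ + 4 => 0

/-- the grading -/
def gr (p : ℕ) : Submodule ℂ (Frm C) := LinearMap.range (pr p)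

lemma mem_gr0 {a : Frm C} : a ∈ gr 0 ↔ a.x = 0 ∧ a.y = 0 ∧ a.z = 0 ∧ a.xy = 0 ∧ a.xz = 0 ∧ a.yz = 0 ∧
    a.xyz = 0 := by
  constructor
  · rintro ⟨b, rfl⟩
    exact ⟨rfl, rfl, rfl, rfl, rfl, rfl, rfl⟩
  · rintro ⟨h1, h2, h3, h4, h5, h6, h7⟩
    exact ⟨a, by ext <;> simp [pr, h1, h2, h3, h4, h5, h6, h7]⟩

lemma mem_gr1 {a : Frm C} : a ∈ gr 1 ↔ a.o = 0 ∧ a.xy = 0 ∧ a.xz = 0 ∧ a.yz = 0 ∧ a.xyz = 0 := by
  constructor
  · rintro ⟨b, rfl⟩
    exact ⟨rfl, rfl, rfl, rfl, rfl⟩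
  · rintro ⟨h1, h2, h3, h4, h5⟩
    exact ⟨a, by ext <;> simp [pr, h1, h2, h3, h4, h5]⟩

lemma mem_gr2 {a : Frm C} : a ∈ gr 2 ↔ a.o = 0 ∧ a.x = 0 ∧ a.y = 0 ∧ a.z = 0 ∧ a.xyz = 0 := by
  constructor
  · rintro ⟨b, rfl⟩
    exact ⟨rfl, rfl, rfl, rfl, rfl⟩
  · rintro ⟨h1, h2, h3, h4, h5⟩
    exact ⟨a, by ext <;> simp [pr, h1, h2, h3, h4, h5]⟩

lemma mem_gr3 {a : Frm C} : a ∈ gr 3 ↔ a.o = 0 ∧ a.x = 0 ∧ a.y = 0 ∧ a.z = 0 ∧ a.xy = 0 ∧ a.xz = 0 ∧
    a.yz = 0 := by
  constructor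
  · rintro ⟨b, rfl⟩
    exact ⟨rfl, rfl, rfl, rfl, rfl, rfl, rfl⟩
  · rintro ⟨h1, h2, h3, h4, h5, h6, h7⟩
    exact ⟨a, by ext <;> simp [pr, h1, h2, h3, h4, h5, h6, h7]⟩

lemma mem_gr4 {p : ℕ} {a : Frm C} : a ∈ gr (p + 4) ↔ a = 0 := by
  constructor
  · rintro ⟨b, rfl⟩
    rfl
  · rintro rfl
    exact Submodule.zero_mem _

end Frm

/-- Internal gradings from projections. -/
lemma isInternal_of_proj {A : Type} [AddCommGroup A] [Module ℂ A] (gr : ℕ → Submodule ℂ A)
    (π : ℕ → A →ₗ[ℂ] A) (N : ℕ) (h1 : ∀ p a, π p a ∈ gr p) (h2 : ∀ p, ∀ a ∈ gr p, π p a = a)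
    (h3 : ∀ p q, p ≠ q → ∀ a ∈ gr p, π q a = 0) (h4 : ∀ a, a = ∑ p ∈ Finset.range N, π p a) :
    DirectSum.IsInternal gr := by
  classical
  constructor
  · rw [injective_iff_map_eq_zero]
    intro x hx
    ext q
    have key : ∀ x : DirectSum ℕ (fun i => gr i), π q (DirectSum.coeAddMonoidHom gr x) = x q := by
      intro x
      induction x using DirectSum.induction_on with
      | zero => simp
      | of i a =>
        rw [DirectSum.coeAddMonoidHom_of]
        by_cases h : i = q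
        · subst h
          rw [DirectSum.of_eq_same, h2 _ _ a.2]
        · rw [DirectSum.of_eq_of_ne _ _ _ (Ne.symm h), h3 i q h _ a.2]
          rfl
      | add x y hx hy => rw [map_add, map_add, hx, hy]; rfl
    have h := key x
    rw [hx, map_zero] at h
    rw [← h]; rfl
  · intro a
    refine ⟨∑ p ∈ Finset.range N, DirectSum.of (fun i => gr i) p ⟨π p a, h1 p a⟩, ?_⟩
    rw [map_sum]
    conv_rhs => rw [h4 a]
    exact Finset.sum_congr rfl fun p _ => DirectSum.coeAddMonoidHom_of gr p _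

namespace Frm

variable {C : Type} [CommRing C] [Algebra ℂ C]

lemma internal : DirectSum.IsInternal (gr : ℕ → Submodule ℂ (Frm C)) := by
  refine isInternal_of_proj (A := Frm C) gr pr 4 (fun p a => ⟨a, rfl⟩) ?_ ?_ ?_
  · rintro p _ ⟨b, rfl⟩
    match p with
    | 0 => rfl
    | 1 => rfl
    | 2 => rfl
    | 3 => rfl
    | _ + 4 => rfl
  · rintro p q hpq _ ⟨b, rfl⟩
    match p, q with
    | 0, 0 => exact absurd rfl hpq
    | 0, 1 => rfl
    | 0, 2 => rfl
    | 0, 3 => rfl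
    | 1, 0 => rfl
    | 1, 1 => exact absurd rfl hpq
    | 1, 2 => rfl
    | 1, 3 => rfl
    | 2, 0 => rfl
    | 2, 1 => rfl
    | 2, 2 => exact absurd rfl hpq
    | 2, 3 => rfl
    | 3, 0 => rfl
    | 3, 1 => rfl
    | 3, 2 => rfl
    | 3, 3 => exact absurd rfl hpq
    | _ + 4, q => exact (pr q).map_zero
    | 0, _ + 4 => rfl
    | 1, _ + 4 => rfl
    | 2, _ + 4 => rfl
    | 3, _ + 4 => rfl
  · intro a
    rw [Finset.sum_range_succ, Finset.sum_range_succ, Finset.sum_range_succ, Finset.sum_range_succ,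
      Finset.sum_range_zero]
    ext <;> simp [pr]

/-- the exterior derivative -/
def dd (D1 D2 D3 : Derivation ℂ C C) : Frm C →ₗ[ℂ] Frm C where
  toFun a := ⟨0, D1 a.o, D2 a.o, D3 a.o, D1 a.y - D2 a.x, D1 a.z - D3 a.x, D2 a.z - D3 a.y,
    D1 a.yz - D2 a.xz + D3 a.xy⟩
  map_add' a b := by ext <;> simp <;> ring
  map_smul' r a := by ext <;> simp [smul_sub, smul_add]

/-- The algebra of forms of a commutative algebra with three commuting derivations. -/
def forms (C : Type) [CommRing C] [Algebra ℂ C] (D1 D2 D3 : Derivation ℂ C C)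
    (h12 : ∀ a, D1 (D2 a) = D2 (D1 a)) (h13 : ∀ a, D1 (D3 a) = D3 (D1 a))
    (h23 : ∀ a, D2 (D3 a) = D3 (D2 a)) : CDGA where
  A := Frm C
  gr := gr
  internal := internal
  one_mem := mem_gr0.2 ⟨rfl, rfl, rfl, rfl, rfl, rfl, rfl⟩
  mul_mem {p q a b} ha hb := by
    match p, q with
    | 0, 0 =>
      rw [mem_gr0] at ha hb ⊢
      simp [ha, hb]
    | 0, 1 =>
      rw [mem_gr0] at ha
      rw [mem_gr1] at hb ⊢
      simp [ha, hb]
    | 0, 2 =>
      rw [mem_gr0] at ha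
      rw [mem_gr2] at hb ⊢
      simp [ha, hb]
    | 0, 3 =>
      rw [mem_gr0] at ha
      rw [mem_gr3] at hb ⊢
      simp [ha, hb]
    | 1, 0 =>
      rw [mem_gr1] at ha ⊢
      rw [mem_gr0] at hb
      simp [ha, hb]
    | 1, 1 =>
      rw [mem_gr1] at ha hb
      rw [mem_gr2]
      simp [ha, hb]
    | 1, 2 =>
      rw [mem_gr1] at ha
      rw [mem_gr2] at hb
      rw [mem_gr3]
      simp [ha, hb]
    | 1, 3 =>
      rw [mem_gr1] at ha
      rw [mem_gr3] at hb
      rw [mem_gr4 (p := 0)]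
      ext <;> simp [ha, hb]
    | 2, 0 =>
      rw [mem_gr2] at ha ⊢
      rw [mem_gr0] at hb
      simp [ha, hb]
    | 2, 1 =>
      rw [mem_gr2] at ha
      rw [mem_gr1] at hb
      rw [mem_gr3]
      simp [ha, hb]
    | 2, 2 =>
      rw [mem_gr2] at ha hb
      rw [mem_gr4 (p := 0)]
      ext <;> simp [ha, hb]
    | 2, 3 =>
      rw [mem_gr2] at ha
      rw [mem_gr3] at hb
      rw [mem_gr4 (p := 1)]
      ext <;> simp [ha, hb]
    | 3, 0 =>
      rw [mem_gr3] at ha ⊢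
      rw [mem_gr0] at hb
      simp [ha, hb]
    | 3, 1 =>
      rw [mem_gr3] at ha
      rw [mem_gr1] at hb
      rw [mem_gr4 (p := 0)]
      ext <;> simp [ha, hb]
    | 3, 2 =>
      rw [mem_gr3] at ha
      rw [mem_gr2] at hb
      rw [mem_gr4 (p := 1)]
      ext <;> simp [ha, hb]
    | 3, 3 =>
      rw [mem_gr3] at ha hb
      rw [mem_gr4 (p := 2)]
      ext <;> simp [ha, hb]
    | p + 4, q =>
      rw [mem_gr4] at ha
      rw [ha, zero_mul]
      exact Submodule.zero_mem _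
    | p, q + 4 =>
      rw [mem_gr4] at hb
      rw [hb, mul_zero]
      exact Submodule.zero_mem _
  mul_comm {p q a b} ha hb := by
    match p, q with
    | 0, q =>
      rw [mem_gr0] at ha
      rw [zero_mul, pow_zero, one_mul]
      ext <;> simp [ha] <;> ring
    | p, 0 =>
      rw [mem_gr0] at hb
      rw [mul_zero, pow_zero, one_mul]
      ext <;> simp [hb] <;> ring
    | 1, 1 =>
      rw [mem_gr1] at ha hb
      ext <;> simp [ha, hb] <;> ring
    | 1, 2 =>
      rw [mem_gr1] at ha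
      rw [mem_gr2] at hb
      rw [show ((-1 : Frm C)) ^ (1 * 2) = 1 by norm_num, one_mul]
      ext <;> simp [ha, hb] <;> ring
    | 1, 3 =>
      rw [mem_gr1] at ha
      rw [mem_gr3] at hb
      ext <;> simp [ha, hb]
    | 2, 1 =>
      rw [mem_gr2] at ha
      rw [mem_gr1] at hb
      rw [show ((-1 : Frm C)) ^ (2 * 1) = 1 by norm_num, one_mul]
      ext <;> simp [ha, hb] <;> ring
    | 2, 2 =>
      rw [mem_gr2] at ha hb
      ext <;> simp [ha, hb]
    | 2, 3 =>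
      rw [mem_gr2] at ha
      rw [mem_gr3] at hb
      ext <;> simp [ha, hb]
    | 3, 1 =>
      rw [mem_gr3] at ha
      rw [mem_gr1] at hb
      ext <;> simp [ha, hb]
    | 3, 2 =>
      rw [mem_gr3] at ha
      rw [mem_gr2] at hb
      ext <;> simp [ha, hb]
    | 3, 3 =>
      rw [mem_gr3] at ha hb
      ext <;> simp [ha, hb]
    | p + 4, q =>
      rw [mem_gr4] at ha
      rw [ha, zero_mul, mul_zero, mul_zero]
    | p, q + 4 =>
      rw [mem_gr4] at hb
      rw [hb, zero_mul, mul_zero, mul_zero]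
  d := dd D1 D2 D3
  d_mem {p a} ha := by
    match p with
    | 0 =>
      rw [mem_gr0] at ha
      rw [mem_gr1]
      simp [dd, ha]
    | 1 =>
      rw [mem_gr1] at ha
      rw [mem_gr2]
      simp [dd, ha]
    | 2 =>
      rw [mem_gr2] at ha
      rw [mem_gr3]
      simp [dd, ha]
    | 3 =>
      rw [mem_gr3] at ha
      rw [mem_gr4 (p := 0)]
      ext <;> simp [dd, ha]
    | p + 4 =>
      rw [mem_gr4] at ha
      rw [ha, map_zero]
      exact Submodule.zero_mem _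
  d_d a := by
    ext <;> simp [dd, h12, h13, h23]
  leibniz {p a} b ha := by
    match p with
    | 0 =>
      rw [mem_gr0] at ha
      rw [pow_zero, one_mul]
      ext <;> simp [dd, ha] <;> ring
    | 1 =>
      rw [mem_gr1] at ha
      rw [pow_one]
      ext <;> simp [dd, ha] <;> ring
    | 2 =>
      rw [mem_gr2] at ha
      rw [show ((-1 : Frm C)) ^ 2 = 1 by norm_num, one_mul]
      ext <;> simp [dd, ha] <;> ring
    | 3 =>
      rw [mem_gr3] at ha
      rw [show ((-1 : Frm C)) ^ 3 = -1 by norm_num]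
      ext <;> simp [dd, ha]
    | p + 4 =>
      rw [mem_gr4] at ha
      rw [ha, zero_mul, map_zero, zero_mul, zero_mul, mul_zero, add_zero]

end Frm

end Pool.Agent.MPdc7581
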