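import Pool.Agent.MPdc7581.Cyl

/-!
# The coordinate ring of the Milnor fiber
-/

set_option linter.unusedSectionVars false
set_option linter.unusedSimpArgs false
set_option linter.style.haveILetI false

open Polynomial

namespace Pool.Agent.MPdc7581

section

variable {S : Type} [CommRing S] [Algebra ℂ S] {t σ w y : S} {e : Fin 3 → S} {D δ : Derivation ℂ S S}
  (s : Surf t σ w y e D δ)

include s

lemma Surf.coord {D1 D2 D3 : Derivation ℂ S[X] S[X]} (h1 : ∀ B n, (D1 B).coeff n = D (B.coeff n))
    (h2 : ∀ B n, (D2 B).coeff n = δ (B.coeff n)) (h3 : ∀ B, D3 B = derivative B) :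
    Frm.Coord D1 D2 D3 (C t) (C w) X where
  c11 := by rw [cD_C h1, s.Dt, map_one]
  c12 := by rw [cD_C h1, s.Dw, map_zero]
  c13 := cD_X h1
  c21 := by rw [cD_C h2, s.δt, map_zero]
  c22 := by rw [cD_C h2, s.δw, map_one]
  c23 := cD_X h2
  c31 := by rw [h3, derivative_C]
  c32 := by rw [h3, derivative_C]
  c33 := by rw [h3, derivative_X]
  gen := by
    intro M _ _ _ _ Δ a
    letI : Module S M := Module.compHom M (C : S →+* S[X])
    have hsm : ∀ (c : S) (x : M), c • x = (C c : S[X]) • x := fun c x => rfl
    haveI : IsScalarTower ℂ S M := ⟨fun r c x => by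
      rw [hsm, hsm, ← Polynomial.smul_C, smul_assoc]⟩
    have key : ∀ r : S, Δ (C r) = (C (D r) : S[X]) • Δ (C t) + (C (δ r) : S[X]) • Δ (C w) := by
      intro r
      let Δ0 : Derivation ℂ S M :=
        { toFun := fun r => Δ (C r)
          map_add' := fun a b => by rw [map_add, map_add]
          map_smul' := fun r a => by
            rw [← Polynomial.smul_C]
            exact Δ.map_smul r _
          map_one_eq_zero' := by
            change Δ (C 1) = 0
            rw [map_one, Derivation.map_one_eq_zero]
          leibniz' := fun a b => by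
            change Δ (C (a * b)) = (C a : S[X]) • Δ (C b) + (C b : S[X]) • Δ (C a)
            rw [map_mul, Derivation.leibniz] }
      exact s.gen M Δ0 r
    induction a using Polynomial.induction_on' with
    | add p q hp hq =>
      rw [map_add, map_add, map_add, map_add, hp, hq]
      module
    | monomial n r =>
      rw [← C_mul_X_pow_eq_monomial, Derivation.leibniz, key, Derivation.leibniz_pow, h3,
        Derivation.leibniz, Derivation.leibniz, cD_C h1, cD_C h2, Derivation.leibniz_pow,
        Derivation.leibniz_pow, cD_X h1, cD_X h2, derivative_C_mul, derivative_X_pow]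
      simp only [smul_zero, add_zero, zero_add, smul_eq_mul]
      have : n • (X : S[X]) ^ (n - 1) • Δ X = ((n : S[X]) * X ^ (n - 1)) • Δ X := by
        rw [mul_smul, Nat.cast_smul_eq_nsmul]
      rw [this, map_natCast]
      module

end

lemma braid3 : braidPoly 3 = (MvPolynomial.X 0 - MvPolynomial.X 1) * (MvPolynomial.X 0 - MvPolynomial.X 2)
    * (MvPolynomial.X 0 - MvPolynomial.X 3) * (MvPolynomial.X 1 - MvPolynomial.X 2)
    * (MvPolynomial.X 1 - MvPolynomial.X 3) * (MvPolynomial.X 2 - MvPolynomial.X 3) := by
  unfold braidPoly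
  rw [Fin.prod_univ_four]
  have h0 : Finset.Ioi (0 : Fin (3 + 1)) = {1, 2, 3} := by decide
  have h1 : Finset.Ioi (1 : Fin (3 + 1)) = {2, 3} := by decide
  have h2 : Finset.Ioi (2 : Fin (3 + 1)) = {3} := by decide
  have h3 : Finset.Ioi (3 : Fin (3 + 1)) = ∅ := by decide
  rw [h0, h1, h2, h3, Finset.prod_insert (by decide), Finset.prod_insert (by decide),
    Finset.prod_singleton, Finset.prod_insert (by decide), Finset.prod_singleton, Finset.prod_singleton,
    Finset.prod_empty]
  ring

end Pool.Agent.MPdc7581
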