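import Pool.Agent.MPdc7581.Iso

/-!
# The coordinate ring of the Milnor fiber: isomorphism
-/

set_option linter.unusedSectionVars false
set_option linter.unusedSimpArgs false
set_option linter.style.haveILetI false

open Polynomial

namespace Pool.Agent.MPdc7581

variable {S : Type} [CommRing S] [Algebra ℂ S] {t σ w y : S} {e : Fin 3 → S} {D δ : Derivation ℂ S S}

/-- the generators of the Milnor ring -/
noncomputable def gz (i : Fin (3 + 1)) : MilnorRing 3 := Ideal.Quotient.mk _ (MvPolynomial.X i)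

lemma gz_rel : (gz 0 - gz 1) * (gz 0 - gz 2) * (gz 0 - gz 3) * (gz 1 - gz 2) * (gz 1 - gz 3)
    * (gz 2 - gz 3) = 1 := by
  obtain ⟨q, hq⟩ : ∃ q, q = Ideal.Quotient.mk (Ideal.span {braidPoly 3 - 1}) := ⟨_, rfl⟩
  have h : q (braidPoly 3 - 1) = 0 := by
    rw [hq]
    exact Ideal.Quotient.eq_zero_iff_mem.2 (Ideal.subset_span rfl)
  rw [map_sub, map_one, sub_eq_zero] at h
  have h2 := (congrArg q braid3).symm.trans h
  rw [map_mul, map_mul, map_mul, map_mul, map_mul, map_sub, map_sub, map_sub, map_sub, map_sub,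
    map_sub] at h2
  unfold gz
  rw [← hq]
  exact h2

lemma milnor_hom_ext {A : Type} [CommRing A] [Algebra ℂ A] {f g : MilnorRing 3 →ₐ[ℂ] A}
    (h : ∀ i, f (gz i) = g (gz i)) : f = g := by
  apply Ideal.Quotient.algHom_ext
  apply MvPolynomial.algHom_ext
  intro i
  exact h i

lemma milnor_lift {A : Type} [CommRing A] [Algebra ℂ A] (z : Fin (3 + 1) → A)
    (h : (z 0 - z 1) * (z 0 - z 2) * (z 0 - z 3) * (z 1 - z 2) * (z 1 - z 3) * (z 2 - z 3) = 1) :
    ∃ f : MilnorRing 3 →ₐ[ℂ] A, ∀ i, f (gz i) = z i := by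
  refine ⟨Ideal.Quotient.liftₐ _ (MvPolynomial.aeval z) ?_, fun i => ?_⟩
  · intro a ha
    rw [Ideal.mem_span_singleton] at ha
    obtain ⟨b, rfl⟩ := ha
    rw [map_mul, map_sub, map_one, braid3]
    simp only [map_mul, map_sub, MvPolynomial.aeval_X]
    rw [h, sub_self, zero_mul]
  · change Ideal.Quotient.lift _ _ _ (Ideal.Quotient.mk _ _) = _
    rw [Ideal.Quotient.lift_mk]
    exact MvPolynomial.aeval_X z i

variable (s : Surf t σ w y e D δ)

include s

lemma Surf.forward : ∃ f : MilnorRing 3 →ₐ[ℂ] S[X], f (gz 0) = X + C (y * e 0) ∧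
    f (gz 1) = X + C (y * e 1) ∧ f (gz 2) = X + C (y * e 2) ∧ f (gz 3) = X := by
  have h0 := s.e0
  have h1 := s.e1
  have h2 := s.e2
  have e01 : e 0 - e 1 = - (e 0 * e 1) := by linear_combination (-e 1) * (-h0) - e 0 * h1
  have e02 : e 0 - e 2 = - (t * (e 0 * e 2)) := by linear_combination (e 2) * h0 - e 0 * h2
  have e12 : e 1 - e 2 = (1 - t) * (e 1 * e 2) := by linear_combination (e 2) * h1 - e 1 * h2
  have hP : (w * (w - 1) * (w - t)) * (e 0 * e 1 * e 2) = 1 := by
    linear_combination (((w - 1) * e 1) * ((w - t) * e 2)) * h0 + ((w - t) * e 2) * h1 + h2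
  have hy : y ^ 6 = σ ^ 3 * (w * (w - 1) * (w - t)) ^ 3 := by
    have : y ^ 6 = (y ^ 2) ^ 3 := by ring
    rw [this, s.rel2]; ring
  have hrel : (y * e 0 - y * e 1) * (y * e 0 - y * e 2) * (y * e 0) * (y * e 1 - y * e 2) * (y * e 1)
      * (y * e 2) = 1 := by
    have k : (y * e 0 - y * e 1) * (y * e 0 - y * e 2) * (y * e 0) * (y * e 1 - y * e 2) * (y * e 1)
      * (y * e 2) = y ^ 6 * ((e 0 - e 1) * (e 0 - e 2) * (e 1 - e 2) * (e 0 * e 1 * e 2)) := by ring
    rw [k, e01, e02, e12, hy]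
    have k2 : σ ^ 3 * (w * (w - 1) * (w - t)) ^ 3 * (-(e 0 * e 1) * -(t * (e 0 * e 2)) *
      ((1 - t) * (e 1 * e 2)) * (e 0 * e 1 * e 2))
      = (σ ^ 3 * (t * (1 - t))) * ((w * (w - 1) * (w - t)) * (e 0 * e 1 * e 2)) ^ 3 := by ring
    rw [k2, s.rel1, hP]; ring
  obtain ⟨f, hf⟩ := milnor_lift (A := S[X]) ![X + C (y * e 0), X + C (y * e 1), X + C (y * e 2), X] (by
    simp only [Matrix.cons_val]
    have k := congrArg (C : S →+* S[X]) hrel
    simp only [map_mul, map_sub, map_one] at k ⊢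
    rw [← k]
    ring)
  exact ⟨f, hf 0, hf 1, hf 2, hf 3⟩

lemma Surf.backward : ∃ g : S →ₐ[ℂ] MilnorRing 3, ∃ A B : MilnorRing 3,
    (gz 1 - gz 0) * A = 1 ∧ (gz 2 - gz 3) * B = 1 ∧
    g t = (gz 1 - gz 3) * (gz 2 - gz 0) * (A * B) ∧ g σ = (gz 2 - gz 3) * (gz 1 - gz 0) ∧
    g w = (gz 1 - gz 3) * A ∧ g y = (gz 0 - gz 3) * (gz 1 - gz 3) * A := by
  have hr := gz_rel
  obtain ⟨z0, hz0⟩ : ∃ z0, z0 = gz 0 := ⟨_, rfl⟩
  obtain ⟨z1, hz1⟩ : ∃ z1, z1 = gz 1 := ⟨_, rfl⟩
  obtain ⟨z2, hz2⟩ : ∃ z2, z2 = gz 2 := ⟨_, rfl⟩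
  obtain ⟨z3, hz3⟩ : ∃ z3, z3 = gz 3 := ⟨_, rfl⟩
  rw [← hz0, ← hz1, ← hz2, ← hz3] at hr
  rw [← hz0, ← hz1, ← hz2, ← hz3]
  obtain ⟨A, hA⟩ : ∃ A, (z1 - z0) * A = 1 :=
    ⟨-((z0 - z2) * (z0 - z3) * (z1 - z2) * (z1 - z3) * (z2 - z3)), by linear_combination hr⟩
  obtain ⟨B, hB⟩ : ∃ B, (z2 - z3) * B = 1 :=
    ⟨(z0 - z1) * (z0 - z2) * (z0 - z3) * (z1 - z2) * (z1 - z3), by linear_combination hr⟩
  have u0 : IsUnit (z0 - z3) := IsUnit.of_mul_eq_one ((z0 - z1) * (z0 - z2) * (z1 - z2) * (z1 - z3) * (z2 - z3))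
    (by linear_combination hr)
  have u1 : IsUnit (z1 - z3) := IsUnit.of_mul_eq_one ((z0 - z1) * (z0 - z2) * (z0 - z3) * (z1 - z2) * (z2 - z3))
    (by linear_combination hr)
  have uA : IsUnit A := IsUnit.of_mul_eq_one (z1 - z0) (by rw [mul_comm]; exact hA)
  have uB : IsUnit B := IsUnit.of_mul_eq_one (z2 - z3) (by rw [mul_comm]; exact hB)
  obtain ⟨g, h1, h2, h3, h4⟩ := s.lift (MilnorRing 3) ((z1 - z3) * (z2 - z0) * (A * B))
    ((z2 - z3) * (z1 - z0)) ((z1 - z3) * A) ((z0 - z3) * (z1 - z3) * A) (by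
      have k1 : 1 - (z1 - z3) * (z2 - z0) * (A * B) = (z0 - z3) * (z1 - z2) * (A * B) := by
        linear_combination (-(A * (z1 - z0))) * hB - hA
      rw [k1]
      have k2 : ((z2 - z3) * (z1 - z0)) ^ 3 * ((z1 - z3) * (z2 - z0) * (A * B) * ((z0 - z3) * (z1 - z2) * (A * B)))
        = ((z1 - z0) * A) ^ 2 * ((z2 - z3) * B) ^ 2 * ((z0 - z1) * (z0 - z2) * (z0 - z3) * (z1 - z2) * (z1 - z3)
    * (z2 - z3)) := by ring
      rw [k2, hA, hB, hr]; ring) (u1.mul uA) (by
      have : (z1 - z3) * A - 1 = (z0 - z3) * A := by linear_combination hA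
      rw [this]
      exact u0.mul uA) (by
      have : (z1 - z3) * A - (z1 - z3) * (z2 - z0) * (A * B) = (z1 - z3) * (z0 - z3) * (A * B) := by
        linear_combination (-((z1 - z3) * A)) * hB
      rw [this]
      exact (u1.mul u0).mul (uA.mul uB)) (by
      have k1 : (z1 - z3) * A - 1 = (z0 - z3) * A := by linear_combination hA
      have k2 : (z1 - z3) * A - (z1 - z3) * (z2 - z0) * (A * B) = (z1 - z3) * (z0 - z3) * (A * B) := by
        linear_combination (-((z1 - z3) * A)) * hB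
      rw [k1, k2]
      linear_combination (-((z0 - z3) ^ 2 * (z1 - z3) ^ 2 * A ^ 2 * ((z1 - z0) * A))) * hB
        - ((z0 - z3) ^ 2 * (z1 - z3) ^ 2 * A ^ 2) * hA)
  exact ⟨g, A, B, hA, hB, h1, h2, h3, h4⟩

theorem Surf.iso : Nonempty (MilnorRing 3 ≃ₐ[ℂ] S[X]) := by
  obtain ⟨f, f0, f1, f2, f3⟩ := s.forward
  obtain ⟨g, A, B, hA, hB, gt, gσ, gw, gy⟩ := s.backward
  obtain ⟨G, hG⟩ : ∃ G : S[X] →ₐ[ℂ] MilnorRing 3, G = polyHom g (gz 3) := ⟨_, rfl⟩
  have GC : ∀ a, G (C a) = g a := fun a => by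
    rw [hG, polyHom_apply, Polynomial.eval₂_C]; rfl
  have GX : G X = gz 3 := by rw [hG, polyHom_apply, Polynomial.eval₂_X]
  have h0 := s.e0
  have h1 := s.e1
  have h2 := s.e2
  have e10 : e 1 - e 0 = e 0 * e 1 := by linear_combination (-e 1) * h0 + e 0 * h1
  have e20 : e 2 - e 0 = t * (e 0 * e 2) := by linear_combination (-e 2) * h0 + e 0 * h2
  have uy : IsUnit y := by
    have uw : IsUnit w := IsUnit.of_mul_eq_one _ h0
    have uw1 : IsUnit (w - 1) := IsUnit.of_mul_eq_one _ h1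
    have uwt : IsUnit (w - t) := IsUnit.of_mul_eq_one _ h2
    have uσ : IsUnit (σ ^ 3) := IsUnit.of_mul_eq_one _ s.rel1
    have uσ' : IsUnit σ := (isUnit_pow_iff (by norm_num)).1 uσ
    have : IsUnit (y ^ 2) := by
      rw [s.rel2]
      exact uσ'.mul ((uw.mul uw1).mul uwt)
    exact (isUnit_pow_iff (by norm_num)).1 this
  have ue0 : IsUnit (e 0) := IsUnit.of_mul_eq_one w (by rw [mul_comm]; exact h0)
  have ue1 : IsUnit (e 1) := IsUnit.of_mul_eq_one (w - 1) (by rw [mul_comm]; exact h1)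
  have ue2 : IsUnit (e 2) := IsUnit.of_mul_eq_one (w - t) (by rw [mul_comm]; exact h2)
  -- the composite on the surface
  have c1 : G.comp f = AlgHom.id ℂ (MilnorRing 3) := by
    apply milnor_hom_ext
    have k0 := congrArg g h0
    have k1 := congrArg g h1
    have k2 := congrArg g h2
    rw [map_mul, map_one, gw] at k0
    rw [map_mul, map_sub, map_one, gw] at k1
    rw [map_mul, map_sub, map_one, gw, gt] at k2
    intro i
    fin_cases i
    · change G (f (gz 0)) = gz 0
      rw [f0, map_add, GX, GC, map_mul, gy]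
      linear_combination (gz 0 - gz 3) * k0
    · change G (f (gz 1)) = gz 1
      rw [f1, map_add, GX, GC, map_mul, gy]
      linear_combination (gz 1 - gz 3) * k1 + (-(gz 1 - gz 3) * g (e 1)) * hA
    · change G (f (gz 2)) = gz 2
      rw [f2, map_add, GX, GC, map_mul, gy]
      linear_combination (gz 2 - gz 3) * k2 + ((gz 1 - gz 3) * (gz 2 - gz 0) * A * g (e 2)) * hB
    · change G (f (gz 3)) = gz 3
      rw [f3, GX]
  have fA : C (y * (e 1 - e 0)) * f A = 1 := by
    have k := congrArg f hA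
    rw [map_mul, map_sub, map_one, f0, f1] at k
    rw [← k]
    simp only [map_mul, map_sub]
    ring
  have fB : C (y * e 2) * f B = 1 := by
    have k := congrArg f hB
    rw [map_mul, map_sub, map_one, f2, f3] at k
    rw [← k]
    ring
  have c2 : f.comp G = AlgHom.id ℂ S[X] := by
    have key : (f.comp g) = (IsScalarTower.toAlgHom ℂ S S[X]) := by
      apply s.hom_ext
      · change f (g t) = C t
        rw [gt]
        have u : IsUnit (C (y * (e 1 - e 0)) * C (y * e 2)) := by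
          rw [e10, ← map_mul]
          exact ((uy.mul (ue0.mul ue1)).mul (uy.mul ue2)).map _
        apply u.mul_left_cancel
        simp only [map_mul, map_sub, f0, f1, f2, f3]
        have k1 : C (y * (e 1 - e 0)) * C (y * e 2) * (((X + C (y * e 1)) - X) * ((X + C (y * e 2)) - (X + C (y * e 0))) * (f A * f B))
          = (C (y * (e 1 - e 0)) * f A) * (C (y * e 2) * f B) * (C (y * e 1) * C (y * (e 2 - e 0))) := by
          simp only [map_mul, map_sub]
          ring
        have k2 : (C (y * e 1) * C (y * (e 2 - e 0)) : S[X]) = C (y * (e 1 - e 0)) * C (y * e 2) * C t := by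
          rw [← map_mul, ← map_mul, ← map_mul, e20, e10]
          congr 1
          ring
        rw [fA, fB, one_mul, one_mul, k2] at k1
        simpa only [map_mul, map_sub] using k1
      · change f (g σ) = C σ
        rw [gσ]
        simp only [map_mul, map_sub, f0, f1, f2, f3]
        have k : ((X + C y * C (e 2)) - X) * ((X + C y * C (e 1)) - (X + C y * C (e 0)))
          = C (y ^ 2 * (e 2 * (e 1 - e 0))) := by
          simp only [map_mul, map_sub, map_pow]
          ring
        rw [k, e10, s.rel2]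
        congr 1
        linear_combination (σ * (((w - 1) * e 1) * ((w - t) * e 2))) * h0 + (σ * ((w - t) * e 2)) * h1 + σ * h2
      · change f (g w) = C w
        rw [gw]
        have u : IsUnit (C (y * (e 1 - e 0)) : S[X]) := by
          rw [e10]
          exact (uy.mul (ue0.mul ue1)).map _
        apply u.mul_left_cancel
        simp only [map_mul, map_sub, f0, f1, f2, f3]
        have k1 : C (y * (e 1 - e 0)) * ((X + C y * C (e 1)) - X) * f A
          = (C (y * (e 1 - e 0)) * f A) * C (y * e 1) := by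
          simp only [map_mul, map_sub]
          ring
        have k2 : (C (y * e 1) : S[X]) = C (y * (e 1 - e 0)) * C w := by
          rw [← map_mul, e10]
          congr 1
          linear_combination (-(y * e 1)) * h0
        rw [fA, one_mul, k2] at k1
        have k3 := k1
        simp only [map_mul, map_sub] at k3 ⊢
        linear_combination k3
      · change f (g y) = C y
        rw [gy]
        have u : IsUnit (C (y * (e 1 - e 0)) : S[X]) := by
          rw [e10]
          exact (uy.mul (ue0.mul ue1)).map _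
        apply u.mul_left_cancel
        simp only [map_mul, map_sub, f0, f1, f2, f3]
        have k1 : C (y * (e 1 - e 0)) * (((X + C y * C (e 0)) - X) * ((X + C y * C (e 1)) - X)) * f A
          = (C (y * (e 1 - e 0)) * f A) * C (y * e 0 * (y * e 1)) := by
          simp only [map_mul, map_sub]
          ring
        have k2 : (C (y * e 0 * (y * e 1)) : S[X]) = C (y * (e 1 - e 0)) * C y := by
          rw [← map_mul, e10]
          congr 1
          ring
        rw [fA, one_mul, k2] at k1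
        have k3 := k1
        simp only [map_mul, map_sub] at k3 ⊢
        linear_combination k3
    apply AlgHom.coe_ringHom_injective
    apply Polynomial.ringHom_ext
    · intro a
      change f (G (C a)) = C a
      rw [GC]
      exact congrArg (fun F => F a) key
    · change f (G X) = X
      rw [GX, f3]
  exact ⟨AlgEquiv.ofAlgHom f G c2 c1⟩

end Pool.Agent.MPdc7581
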