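import Pool.Agent.MPdc7581.Surf

/-!
# Cohomology of the line over the cubic cover
-/

set_option linter.unusedSectionVars false
set_option linter.unusedSimpArgs false
set_option linter.style.haveILetI false

open Polynomial

namespace Pool.Agent.MPdc7581

section

variable {K R : Type} [CommRing K] [Algebra ℂ K] [CommRing R] [Algebra ℂ R] [Algebra K R]
    [IsScalarTower ℂ K R] {t σ : K} {D : Derivation ℂ K K} {w : R} {DR δR : Derivation ℂ R R}
    (b : Base t σ D) (l : Line t D w DR δR)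

lemma Base.Dσ {K : Type} [CommRing K] [Algebra ℂ K] {t σ : K} {D : Derivation ℂ K K}
    (b : Base t σ D) : 3 * D σ = σ ^ 4 * (2 * t - 1) := by
  have h1 := congrArg D b.rel
  rw [Derivation.leibniz, Derivation.leibniz_pow, Derivation.leibniz, map_sub, b.Dt,
    Derivation.map_one_eq_zero] at h1
  simp only [smul_eq_mul, nsmul_eq_mul] at h1
  push_cast at h1
  linear_combination σ * h1 - (3 * D σ) * b.rel

include b l

lemma Line.inj {a : K} (h : algebraMap K R a = 0) : a = 0 := by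
  have := l.chart.inj (C a) (by rw [aeval_C, h])
  exact Polynomial.C_eq_zero.1 this

lemma Line.PE_mul : w * (w - 1) * (w - algebraMap K R t) * Chart.E (p3 t) w = 1 := by
  have := l.chart.E_mul
  rw [PP_p3] at this
  simpa using this

lemma Line.uE : IsUnit (Chart.E (p3 t) w) := l.chart.isUnit_E

lemma Line.e0 : w * Chart.e (p3 t) w 0 = 1 := by
  have h := l.chart.e_mul 0
  simpa [p3] using h

lemma Line.e1 : (w - 1) * Chart.e (p3 t) w 1 = 1 := by
  have h := l.chart.e_mul 1
  simpa [p3] using h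

lemma Line.e2 : (w - algebraMap K R t) * Chart.e (p3 t) w 2 = 1 := by
  have h := l.chart.e_mul 2
  simpa [p3] using h

lemma Line.e0' : Chart.e (p3 t) w 0 = (w - 1) * (w - algebraMap K R t) * Chart.E (p3 t) w := by
  linear_combination (Chart.e (p3 t) w 0) * (-(Line.PE_mul b l))
    + ((w - 1) * (w - algebraMap K R t) * Chart.E (p3 t) w) * Line.e0 b l

lemma Line.e1' : Chart.e (p3 t) w 1 = w * (w - algebraMap K R t) * Chart.E (p3 t) w := by
  linear_combination (Chart.e (p3 t) w 1) * (-(Line.PE_mul b l))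
    + (w * (w - algebraMap K R t) * Chart.E (p3 t) w) * Line.e1 b l

lemma Line.e2' : Chart.e (p3 t) w 2 = w * (w - 1) * Chart.E (p3 t) w := by
  linear_combination (Chart.e (p3 t) w 2) * (-(Line.PE_mul b l))
    + (w * (w - 1) * Chart.E (p3 t) w) * Line.e2 b l

lemma Line.De0 : DR (Chart.e (p3 t) w 0) = 0 := by
  have h := congrArg DR (Line.e0 b l)
  rw [Derivation.leibniz, l.Dw, Derivation.map_one_eq_zero, smul_zero, add_zero, smul_eq_mul] at h
  linear_combination (Chart.e (p3 t) w 0) * h - DR (Chart.e (p3 t) w 0) * Line.e0 b l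

lemma Line.De1 : DR (Chart.e (p3 t) w 1) = 0 := by
  have h := congrArg DR (Line.e1 b l)
  rw [Derivation.leibniz, map_sub, l.Dw, Derivation.map_one_eq_zero, sub_zero, smul_zero, add_zero,
    smul_eq_mul] at h
  linear_combination (Chart.e (p3 t) w 1) * h - DR (Chart.e (p3 t) w 1) * Line.e1 b l

lemma Line.De2 : DR (Chart.e (p3 t) w 2) = Chart.e (p3 t) w 2 ^ 2 := by
  have h := congrArg DR (Line.e2 b l)
  rw [Derivation.leibniz, map_sub, l.Dw, Derivation.map_one_eq_zero, l.DK, b.Dt, map_one,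
    smul_eq_mul, smul_eq_mul] at h
  linear_combination (Chart.e (p3 t) w 2) * h - DR (Chart.e (p3 t) w 2) * Line.e2 b l

lemma Line.δe2 : δR (Chart.e (p3 t) w 2) = - Chart.e (p3 t) w 2 ^ 2 := by
  have h := congrArg δR (Line.e2 b l)
  rw [Derivation.leibniz, map_sub, l.chart.hx, Derivation.map_one_eq_zero, l.chart.hK,
    smul_eq_mul, smul_eq_mul] at h
  linear_combination (Chart.e (p3 t) w 2) * h - δR (Chart.e (p3 t) w 2) * Line.e2 b l

lemma Line.comm (a : R) : DR (δR a) = δR (DR a) := by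
  have h := l.gen R ⁅DR, δR⁆ a
  have h1 : ⁅DR, δR⁆ (algebraMap K R t) = 0 := by
    rw [Derivation.commutator_apply, l.chart.hK, l.DK, l.chart.hK, map_zero, sub_zero]
  have h2 : ⁅DR, δR⁆ w = 0 := by
    rw [Derivation.commutator_apply, l.chart.hx, l.Dw, Derivation.map_one_eq_zero, map_zero, sub_zero]
  rw [h1, h2, smul_zero, smul_zero, add_zero, Derivation.commutator_apply] at h
  exact sub_eq_zero.1 h

/-- the basic identity for the even part -/
lemma Line.even_id (h : R) (a : Fin 3 → K) (F : R) :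
    DR (δR h + ∑ i, algebraMap K R (a i) * Chart.e (p3 t) w i) - δR F
      = ∑ i, algebraMap K R (D (a i)) * Chart.e (p3 t) w i
        - δR (F - DR h + algebraMap K R (a 2) * Chart.e (p3 t) w 2) := by
  rw [Fin.sum_univ_three, Fin.sum_univ_three]
  simp only [map_add, map_sub, Derivation.leibniz, l.DK, l.chart.hK, smul_eq_mul, Line.De0 b l,
    Line.De1 b l, Line.De2 b l, Line.δe2 b l, Line.comm b l]
  ring

/-- closed even forms -/
lemma Line.even_closed {F G : R} (h : DR G = δR F) : ∃ (h : R) (α : Fin 4 → ℂ) (β : Fin 3 → ℂ),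
    F = DR h + algebraMap K R (∑ a, algebraMap ℂ K (α a) * cc t σ a)
      - algebraMap ℂ R (β 2) * Chart.e (p3 t) w 2 ∧
    G = δR h + ∑ i, algebraMap ℂ R (β i) * Chart.e (p3 t) w i := by
  have := b.nontriv
  obtain ⟨h1, a, hG⟩ := l.chart.surj_res G
  have h2 := Line.even_id b l h1 a F
  rw [← hG, h, sub_self] at h2
  obtain ⟨h3, k, hk⟩ := l.chart.inj_res (sub_eq_zero.1 h2.symm).symm
  have h4 : ∀ i, ∃ c : ℂ, a i = algebraMap ℂ K c := fun i => by
    obtain ⟨_, _, _, _, c, hc⟩ := b.inj (a i) 0 0 0 0 (by rw [congrFun h3 i]; simp)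
    exact ⟨c, hc⟩
  choose β hβ using h4
  obtain ⟨h5, α0, α1, α2, α3, h6⟩ := b.surj k
  refine ⟨h1 + algebraMap K R h5, ![α0, α1, α2, α3], β, ?_, ?_⟩
  · have h7 : F = DR h1 + algebraMap K R k - algebraMap K R (a 2) * Chart.e (p3 t) w 2 := by
      linear_combination hk
    rw [h7, hβ, ← IsScalarTower.algebraMap_apply, map_add, l.DK, h6, Fin.sum_univ_four]
    simp only [cc, map_add, map_mul, map_neg, map_sub, Matrix.cons_val]
    ring
  · rw [hG, map_add, l.chart.hK, add_zero]
    congr 1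
    apply Finset.sum_congr rfl
    intro i _
    rw [hβ, ← IsScalarTower.algebraMap_apply]

lemma Line.C_inj {c : ℂ} (h : algebraMap ℂ K c = 0) : c = 0 := by
  have := b.nontriv
  exact (map_eq_zero_iff _ (algebraMap ℂ K).injective).1 h

/-- independence of the closed even forms -/
lemma Line.even_indep {h : R} {α : Fin 4 → ℂ} {β : Fin 3 → ℂ}
    (h1 : DR h = algebraMap K R (∑ a, algebraMap ℂ K (α a) * cc t σ a)
      - algebraMap ℂ R (β 2) * Chart.e (p3 t) w 2)
    (h2 : δR h = ∑ i, algebraMap ℂ R (β i) * Chart.e (p3 t) w i) :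
    α = 0 ∧ β = 0 ∧ ∃ c : ℂ, h = algebraMap ℂ R c := by
  have := b.nontriv
  obtain ⟨h3, k, hk⟩ := l.chart.inj_res (h := h) (a := fun i => algebraMap ℂ K (β i)) (by
    rw [h2]
    apply Finset.sum_congr rfl
    intro i _
    rw [← IsScalarTower.algebraMap_apply])
  have h4 : β = 0 := funext fun i => Line.C_inj b l (congrFun h3 i)
  rw [h4, hk, l.DK] at h1
  have h5 := Line.inj b l (a := D k - ∑ a, algebraMap ℂ K (α a) * cc t σ a) (by
    rw [map_sub, h1]; simp)
  obtain ⟨k0, k1, k2, k3, c, hc⟩ := b.inj k (α 0) (α 1) (α 2) (α 3) (by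
    rw [sub_eq_zero.1 h5, Fin.sum_univ_four]
    simp only [cc, Matrix.cons_val])
  refine ⟨funext fun i => ?_, h4, c, ?_⟩
  · fin_cases i <;> assumption
  · rw [hk, hc, ← IsScalarTower.algebraMap_apply]

/-- independence of the even forms of degree two -/
lemma Line.even_indep2 {F G : R} {γ : Fin 4 → Fin 3 → ℂ}
    (h : DR G - δR F = ∑ i, algebraMap K R (∑ a, algebraMap ℂ K (γ a i) * cc t σ a)
      * Chart.e (p3 t) w i) : γ = 0 := by
  have := b.nontriv
  obtain ⟨h1, a, hG⟩ := l.chart.surj_res G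
  have h2 := Line.even_id b l h1 a F
  rw [← hG, h] at h2
  obtain ⟨h3, _⟩ := l.chart.inj_res (h := F - DR h1 + algebraMap K R (a 2) * Chart.e (p3 t) w 2)
    (a := fun i => D (a i) - ∑ a, algebraMap ℂ K (γ a i) * cc t σ a) (by
      have : ∀ x y z : R, x = y - z → z = y - x := fun x y z h => by rw [h]; ring
      rw [this _ _ _ h2, ← Finset.sum_sub_distrib]
      apply Finset.sum_congr rfl
      intro i _
      rw [map_sub, sub_mul])
  have h4 : ∀ i, γ 0 i = 0 ∧ γ 1 i = 0 ∧ γ 2 i = 0 ∧ γ 3 i = 0 := by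
    intro i
    have h5 := congrFun h3 i
    obtain ⟨k0, k1, k2, k3, _⟩ := b.inj (a i) (γ 0 i) (γ 1 i) (γ 2 i) (γ 3 i) (by
      rw [sub_eq_zero.1 h5, Fin.sum_univ_four]
      simp only [cc, Matrix.cons_val])
    exact ⟨k0, k1, k2, k3⟩
  funext a i
  obtain ⟨k0, k1, k2, k3⟩ := h4 i
  fin_cases a <;> assumption

end

end Pool.Agent.MPdc7581
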