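import Pool.Agent.MPdc7581.LineCoh

/-!
# Twisted cohomology of the line over the cubic cover
-/

set_option linter.unusedSectionVars false
set_option linter.unusedSimpArgs false
set_option linter.style.haveILetI false

open Polynomial

namespace Pool.Agent.MPdc7581

section

variable {K R : Type} [CommRing K] [Algebra ℂ K] [CommRing R] [Algebra ℂ R] [Algebra K R]
    [IsScalarTower ℂ K R]

/-- the derivation `D` on the odd part -/
noncomputable def DL (t σ : K) (w : R) (DR : Derivation ℂ R R) (g : R) : R :=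
  DR g + (algebraMap K R (algebraMap ℂ K (1/6) * (σ ^ 3 * (2 * t - 1)))
    - algebraMap ℂ R (1/2) * Chart.e (p3 t) w 2) * g

/-- the derivation `δ` on the odd part -/
noncomputable def nL (t : K) (w : R) (δR : Derivation ℂ R R) (g : R) : R :=
  Chart.nab (p3 t) w δR (fun _ => 1/2) g

variable {t σ : K} {D : Derivation ℂ K K} {w : R} {DR δR : Derivation ℂ R R}
    (b : Base t σ D) (l : Line t D w DR δR)

lemma nL_eq (g : R) : nL t w δR g = δR g + algebraMap ℂ R (1/2) * (Chart.e (p3 t) w 0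
    + Chart.e (p3 t) w 1 + Chart.e (p3 t) w 2) * g := by
  unfold nL Chart.nab
  rw [Fin.sum_univ_three]
  ring

lemma DL_sub (f g : R) : DL t σ w DR (f - g) = DL t σ w DR f - DL t σ w DR g := by
  unfold DL; rw [map_sub]; ring

lemma nL_sub (f g : R) : nL t w δR (f - g) = nL t w δR f - nL t w δR g := by
  rw [nL_eq, nL_eq, nL_eq, map_sub]; ring

lemma nL_add (f g : R) : nL t w δR (f + g) = nL t w δR f + nL t w δR g := by
  rw [nL_eq, nL_eq, nL_eq, map_add]; ring

include b l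

lemma Line.commL (h : R) : DL t σ w DR (nL t w δR h) = nL t w δR (DL t σ w DR h) := by
  rw [nL_eq, nL_eq]
  unfold DL
  simp only [map_add, map_sub, Derivation.leibniz, Derivation.map_algebraMap, l.DK, l.chart.hK,
    smul_eq_mul, Line.De0 b l, Line.De1 b l, Line.De2 b l, Line.δe2 b l, Line.comm b l, smul_zero,
    mul_zero, add_zero, zero_add]
  ring

lemma half : (2 : R) * algebraMap ℂ R (1/2) = 1 := by
  rw [← map_ofNat (algebraMap ℂ R) 2, ← map_mul]
  norm_num

lemma sixth : (6 : R) * algebraMap ℂ R (1/6) = 1 := by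
  rw [← map_ofNat (algebraMap ℂ R) 6, ← map_mul]
  norm_num

lemma Line.DE : DR (Chart.E (p3 t) w) = Chart.E (p3 t) w * Chart.e (p3 t) w 2 := by
  have h := congrArg DR (Line.PE_mul b l)
  simp only [map_sub, Derivation.leibniz, l.Dw, Derivation.map_one_eq_zero, l.DK, b.Dt, map_one,
    smul_eq_mul, smul_zero, mul_zero, add_zero, zero_add, sub_zero, zero_sub] at h
  linear_combination (Chart.E (p3 t) w) * h - (DR (Chart.E (p3 t) w)) * Line.PE_mul b l
    - (Chart.E (p3 t) w) * Line.e2' b l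

/-- the reduction of `e2 / P` -/
lemma Line.red : algebraMap K R (t * (t - 1)) * (Chart.E (p3 t) w * Chart.e (p3 t) w 2)
    = Chart.E (p3 t) w * (w - algebraMap K R t) - 2 * nL t w δR (Chart.e (p3 t) w 2) := by
  rw [nL_eq, Line.δe2 b l, Line.e0' b l, Line.e1' b l, Line.e2' b l]
  simp only [map_mul, map_sub, map_one]
  obtain ⟨E, hE⟩ : ∃ E, E = Chart.E (p3 t) w := ⟨_, rfl⟩
  obtain ⟨T, hT⟩ : ∃ T, T = algebraMap K R t := ⟨_, rfl⟩
  have h1 := Line.PE_mul b l
  have h2 := half b l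
  rw [← hE, ← hT] at h1
  rw [← hE, ← hT]
  linear_combination (((w - 1) * (w - T) * E + w * (w - T) * E + w * (w - 1) * E) * (w * (w - 1) * E)) * h2
    + (E * (w - T)) * h1

lemma Line.DLE (a c : K) : DL t σ w DR (Chart.E (p3 t) w * (algebraMap K R a + algebraMap K R c * w))
    = Chart.E (p3 t) w * (algebraMap K R (D a + algebraMap ℂ K (1/6) * (σ ^ 3 * (2 * t - 1)) * a
        + algebraMap ℂ K (1/2) * c) + algebraMap K R (D c + algebraMap ℂ K (1/6) * (σ ^ 3 * (2 * t - 1)) * c) * w)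
      + algebraMap K R (algebraMap ℂ K (1/2) * (a + c * t)) * (Chart.E (p3 t) w * Chart.e (p3 t) w 2) := by
  unfold DL
  have h1 := Line.e2 b l
  have h2 := half b l
  simp only [map_add, map_mul, Derivation.leibniz, l.Dw, l.DK, Line.DE b l, smul_eq_mul, smul_zero,
    mul_zero, zero_add, ← IsScalarTower.algebraMap_apply]
  obtain ⟨E, hE⟩ : ∃ E, E = Chart.E (p3 t) w := ⟨_, rfl⟩
  obtain ⟨e, he⟩ : ∃ e, e = Chart.e (p3 t) w 2 := ⟨_, rfl⟩
  obtain ⟨T, hT⟩ : ∃ T, T = algebraMap K R t := ⟨_, rfl⟩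
  obtain ⟨H, hH⟩ : ∃ H, H = algebraMap ℂ R (1/2) := ⟨_, rfl⟩
  rw [← hH] at h2
  rw [← he, ← hT] at h1
  rw [← hE, ← he, ← hT, ← hH]
  linear_combination (H * E * algebraMap K R c) * h1
    + (-(E * e * (algebraMap K R a + algebraMap K R c * w))) * h2

/-- closed odd forms are exact -/
lemma Line.odd_closed {F G : R} (h : DL t σ w DR G = nL t w δR F) :
    ∃ h : R, F = DL t σ w DR h ∧ G = nL t w δR h := by
  have := b.nontriv
  have k1 : ∀ (i : Fin 3) (N : ℕ), (fun _ => (1 / 2 : ℂ)) i ≠ N + 1 := by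
    intro _ N hN
    have h1 : ((2 * (N + 1) : ℕ) : ℂ) = ((1 : ℕ) : ℂ) := by push_cast; linear_combination -2 * hN
    have h2 : 2 * (N + 1) = 1 := by exact_mod_cast h1
    omega
  have k2 : ∀ n : ℕ, (n : ℂ) + ∑ _i : Fin 3, (1 / 2 : ℂ) ≠ 0 := by
    intro n hn
    rw [Fin.sum_univ_three] at hn
    have h1 : ((2 * n + 3 : ℕ) : ℂ) = 0 := by push_cast; linear_combination 2 * hn
    have h2 : 2 * n + 3 = 0 := by exact_mod_cast h1
    omega
  obtain ⟨h1, Q, hG, hQ⟩ := l.chart.twisted_surj (κ := fun _ => 1/2) k1 k2 G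
  obtain ⟨a, c, hac⟩ : ∃ a c : K, Q = C c * X + C a := by
    refine ⟨Q.coeff 0, Q.coeff 1, Polynomial.eq_X_add_C_of_degree_le_one ?_⟩
    exact Order.le_of_lt_succ hQ
  have hQ1 : aeval w Q = algebraMap K R a + algebraMap K R c * w := by
    rw [hac, map_add, map_mul, aeval_X, aeval_C, aeval_C, add_comm]
  rw [hQ1] at hG
  have hG' : G = nL t w δR h1 + Chart.E (p3 t) w * (algebraMap K R a + algebraMap K R c * w) := hG
  obtain ⟨F1, hF1⟩ : ∃ F1, F1 = F - DL t σ w DR h1 := ⟨_, rfl⟩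
  have e1 : nL t w δR F1 = DL t σ w DR (Chart.E (p3 t) w * (algebraMap K R a + algebraMap K R c * w)) := by
    have h3 : Chart.E (p3 t) w * (algebraMap K R a + algebraMap K R c * w) = G - nL t w δR h1 := by
      rw [hG']; ring
    rw [h3, DL_sub, hF1, nL_sub, h, Line.commL b l]
  rw [Line.DLE b l] at e1
  have e2 : Chart.E (p3 t) w * Chart.e (p3 t) w 2 = algebraMap K R (-σ ^ 3)
      * (Chart.E (p3 t) w * (w - algebraMap K R t) - 2 * nL t w δR (Chart.e (p3 t) w 2)) := by
    rw [← Line.red b l, ← mul_assoc, ← map_mul]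
    have : -σ ^ 3 * (t * (t - 1)) = 1 := by linear_combination b.rel
    rw [this, map_one, one_mul]
  rw [e2] at e1
  have hlin : ∀ (k : K) (f : R), nL t w δR (algebraMap K R k * f) = algebraMap K R k * nL t w δR f := by
    intro k f
    rw [nL_eq, nL_eq, Derivation.leibniz, l.chart.hK, smul_zero, add_zero, smul_eq_mul]
    ring
  obtain ⟨A', hA'⟩ : ∃ A', A' = D a + algebraMap ℂ K (1/6) * (σ ^ 3 * (2 * t - 1)) * a
        + algebraMap ℂ K (1/2) * c + algebraMap ℂ K (1/2) * (t * (σ ^ 3 * (a + c * t))) := ⟨_, rfl⟩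
  obtain ⟨B', hB'⟩ : ∃ B', B' = D c + algebraMap ℂ K (1/6) * (σ ^ 3 * (2 * t - 1)) * c
        - algebraMap ℂ K (1/2) * (σ ^ 3 * (a + c * t)) := ⟨_, rfl⟩
  have e3 : nL t w δR (F1 - algebraMap K R (σ ^ 3 * (a + c * t)) * Chart.e (p3 t) w 2)
      = Chart.E (p3 t) w * aeval w (C B' * X + C A') := by
    have hQ2 : aeval w (C B' * X + C A') = algebraMap K R B' * w + algebraMap K R A' := by
      rw [map_add, map_mul, aeval_X, aeval_C, aeval_C]
    rw [nL_sub, hlin, e1, hQ2, hA', hB']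
    have h4 := half b l
    simp only [map_add, map_sub, map_mul, map_neg, map_pow, ← IsScalarTower.algebraMap_apply]
    linear_combination ((algebraMap K R σ) ^ 3 * (algebraMap K R a + algebraMap K R c * algebraMap K R t)
      * nL t w δR (Chart.e (p3 t) w 2)) * h4
  obtain ⟨z1, z2⟩ := l.chart.twisted_inj (κ := fun _ => 1/2) k1 k2 (Q := C B' * X + C A')
    (by
      refine lt_of_le_of_lt Polynomial.degree_linear_le ?_
      exact_mod_cast one_lt_two) e3
  have z3 : A' = 0 := by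
    have := congrArg (fun q => q.coeff 0) z2
    simpa using this
  have z4 : B' = 0 := by
    have := congrArg (fun q => q.coeff 1) z2
    simpa using this
  have hhalf : (2 : K) * algebraMap ℂ K (1/2) = 1 := by
    rw [← map_ofNat (algebraMap ℂ K) 2, ← map_mul]
    norm_num
  have hsix : (6 : K) * algebraMap ℂ K (1/6) = 1 := by
    rw [← map_ofNat (algebraMap ℂ K) 6, ← map_mul]
    norm_num
  obtain ⟨ha, hc⟩ := b.ode a c (by
      rw [hA'] at z3
      linear_combination (6 * (t * (t - 1))) * z3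
        - (t * (t - 1) * (σ ^ 3 * (2 * t - 1)) * a) * hsix
        - (3 * (t * (t - 1)) * (c + t * (σ ^ 3 * (a + c * t)))) * hhalf
        + ((2 * t - 1) * a + 3 * t * (a + c * t)) * b.rel) (by
      rw [hB'] at z4
      linear_combination (6 * (t * (t - 1))) * z4
        - (t * (t - 1) * (σ ^ 3 * (2 * t - 1)) * c) * hsix
        + (3 * (t * (t - 1)) * (σ ^ 3 * (a + c * t))) * hhalf
        + ((2 * t - 1) * c - 3 * (a + c * t)) * b.rel)
  refine ⟨h1, ?_, ?_⟩
  · rw [ha, hc] at z1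
    simp only [zero_mul, add_zero, mul_zero, map_zero, sub_zero] at z1
    rw [hF1] at z1
    exact sub_eq_zero.1 z1
  · rw [hG', ha, hc]
    simp

lemma Line.odd_inj {h : R} (hh : nL t w δR h = 0) : h = 0 := by
  have := b.nontriv
  have k1 : ∀ (i : Fin 3) (N : ℕ), (fun _ => (1 / 2 : ℂ)) i ≠ N + 1 := by
    intro _ N hN
    have h1 : ((2 * (N + 1) : ℕ) : ℂ) = ((1 : ℕ) : ℂ) := by push_cast; linear_combination -2 * hN
    have h2 : 2 * (N + 1) = 1 := by exact_mod_cast h1
    omega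
  have k2 : ∀ n : ℕ, (n : ℂ) + ∑ _i : Fin 3, (1 / 2 : ℂ) ≠ 0 := by
    intro n hn
    rw [Fin.sum_univ_three] at hn
    have h1 : ((2 * n + 3 : ℕ) : ℂ) = 0 := by push_cast; linear_combination 2 * hn
    have h2 : 2 * n + 3 = 0 := by exact_mod_cast h1
    omega
  exact (l.chart.twisted_inj (κ := fun _ => 1/2) k1 k2 (Q := 0) (by
    rw [Polynomial.degree_zero]
    exact WithBot.bot_lt_coe 2) (by
    rw [map_zero, mul_zero]; exact hh)).1

end

end Pool.Agent.MPdc7581
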