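import Pool.Agent.MPdc7581.Iso2

/-!
# The model with zero differential
-/

set_option linter.unusedSectionVars false
set_option linter.unusedSimpArgs false
set_option linter.style.haveILetI false

open Polynomial

namespace Pool.Agent.MPdc7581

section

variable {S : Type} [CommRing S] [Algebra ℂ S]

/-- the exact forms of degree two -/
def exF (D δ : Derivation ℂ S S) : Submodule ℂ S where
  carrier := {v | ∃ F G, v = D G - δ F}
  zero_mem' := ⟨0, 0, by simp⟩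
  add_mem' := by
    rintro _ _ ⟨F, G, rfl⟩ ⟨F', G', rfl⟩
    exact ⟨F + F', G + G', by rw [map_add, map_add]; ring⟩
  smul_mem' := by
    rintro c _ ⟨F, G, rfl⟩
    exact ⟨c • F, c • G, by rw [Derivation.map_smul, Derivation.map_smul, smul_sub]⟩

/-- the products of the basic forms of degree one -/
noncomputable def prF (t σ : S) (e : Fin 3 → S) : Submodule ℂ S where
  carrier := {v | ∃ γ : Fin 4 → Fin 3 → ℂ, v = ∑ i, (∑ a, algebraMap ℂ S (γ a i) * cc t σ a) * e i}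
  zero_mem' := ⟨0, by simp⟩
  add_mem' := by
    rintro _ _ ⟨γ, rfl⟩ ⟨γ', rfl⟩
    refine ⟨γ + γ', ?_⟩
    rw [← Finset.sum_add_distrib]
    apply Finset.sum_congr rfl
    intro i _
    rw [← add_mul, ← Finset.sum_add_distrib]
    congr 1
    apply Finset.sum_congr rfl
    intro a _
    rw [Pi.add_apply, Pi.add_apply, map_add]
    ring
  smul_mem' := by
    rintro c _ ⟨γ, rfl⟩
    refine ⟨c • γ, ?_⟩
    rw [Algebra.smul_def, Finset.mul_sum]
    apply Finset.sum_congr rfl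
    intro i _
    rw [← mul_assoc, Finset.mul_sum]
    congr 1
    apply Finset.sum_congr rfl
    intro a _
    rw [Pi.smul_apply, Pi.smul_apply, smul_eq_mul, map_mul]
    ring

variable {t σ w y : S} {e : Fin 3 → S} {D δ : Derivation ℂ S S} (s : Surf t σ w y e D δ)

include s in
lemma Surf.exists_W : ∃ W : Submodule ℂ S, prF t σ e ≤ W ∧ (∀ v ∈ W, v ∈ exF D δ → v = 0) ∧
    ∀ v, ∃ v1 ∈ W, ∃ v2 ∈ exF D δ, v = v1 + v2 := by
  have hd : Disjoint (prF t σ e) (exF D δ) := by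
    rw [Submodule.disjoint_def]
    rintro v ⟨γ, rfl⟩ ⟨F, G, h⟩
    rw [s.H2i F G γ h.symm]
    simp
  obtain ⟨W, h1, h2⟩ := hd.exists_isCompl
  refine ⟨W, h1, ?_, ?_⟩
  · intro v hv hv'
    exact (Submodule.disjoint_def.1 h2.disjoint) v hv hv'
  · intro v
    have : v ∈ W ⊔ exF D δ := by rw [h2.sup_eq_top]; exact Submodule.mem_top
    obtain ⟨v1, hv1, v2, hv2, h3⟩ := Submodule.mem_sup.1 this
    exact ⟨v1, hv1, v2, hv2, h3.symm⟩

/-- the basic forms -/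
noncomputable def bx (t σ : S) (e : Fin 3 → S) (α : Fin 4 → ℂ) (β : Fin 3 → ℂ) : S :=
  ∑ a, algebraMap ℂ S (α a) * cc t σ a - algebraMap ℂ S (β 2) * e 2

/-- the basic forms -/
noncomputable def bY (e : Fin 3 → S) (β : Fin 3 → ℂ) : S := ∑ i, algebraMap ℂ S (β i) * e i

lemma bx_add (t σ : S) (e : Fin 3 → S) (α α' : Fin 4 → ℂ) (β β' : Fin 3 → ℂ) :
    bx t σ e (α + α') (β + β') = bx t σ e α β + bx t σ e α' β' := by
  unfold bx
  rw [Fin.sum_univ_four, Fin.sum_univ_four, Fin.sum_univ_four]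
  simp only [Pi.add_apply, map_add]
  ring

lemma bY_add (e : Fin 3 → S) (β β' : Fin 3 → ℂ) : bY e (β + β') = bY e β + bY e β' := by
  unfold bY
  rw [Fin.sum_univ_three, Fin.sum_univ_three, Fin.sum_univ_three]
  simp only [Pi.add_apply, map_add]
  ring

lemma bx_smul (t σ : S) (e : Fin 3 → S) (c : ℂ) (α : Fin 4 → ℂ) (β : Fin 3 → ℂ) :
    bx t σ e (c • α) (c • β) = algebraMap ℂ S c * bx t σ e α β := by
  unfold bx
  rw [Fin.sum_univ_four, Fin.sum_univ_four]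
  simp only [Pi.smul_apply, smul_eq_mul, map_mul]
  ring

lemma bY_smul (e : Fin 3 → S) (c : ℂ) (β : Fin 3 → ℂ) :
    bY e (c • β) = algebraMap ℂ S c * bY e β := by
  unfold bY
  rw [Fin.sum_univ_three, Fin.sum_univ_three]
  simp only [Pi.smul_apply, smul_eq_mul, map_mul]
  ring

/-- membership in the model -/
structure MemB (t σ : S) (e : Fin 3 → S) (W : Submodule ℂ S) (a : Frm S[X]) : Prop where
  o : ∃ c : ℂ, a.o = C (algebraMap ℂ S c)
  xy' : ∃ (α : Fin 4 → ℂ) (β : Fin 3 → ℂ), a.x = C (bx t σ e α β) ∧ a.y = C (bY e β)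
  z : a.z = 0
  w : ∃ v ∈ W, a.xy = C v
  xz : a.xz = 0
  yz : a.yz = 0
  xyz : a.xyz = 0

include s in
lemma memB_mul {W : Submodule ℂ S} (hW : prF t σ e ≤ W) {a b : Frm S[X]} (ha : MemB t σ e W a)
    (hb : MemB t σ e W b) : MemB t σ e W (a * b) := by
  obtain ⟨c, hc⟩ := ha.o
  obtain ⟨c', hc'⟩ := hb.o
  obtain ⟨α, β, h1, h2⟩ := ha.xy'
  obtain ⟨α', β', h1', h2'⟩ := hb.xy'
  obtain ⟨v, hv, hv1⟩ := ha.w
  obtain ⟨v', hv', hv1'⟩ := hb.w
  refine ⟨⟨c * c', ?_⟩, ⟨c • α' + c' • α, c • β' + c' • β, ?_, ?_⟩, ?_, ?_, ?_, ?_, ?_⟩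
  · rw [Frm.mul_o, hc, hc', map_mul, map_mul]
  · rw [Frm.mul_x, bx_add, bx_smul, bx_smul, hc, hc', h1, h1', map_add, map_mul, map_mul]
    ring
  · rw [Frm.mul_y, bY_add, bY_smul, bY_smul, hc, hc', h2, h2', map_add, map_mul, map_mul]
    ring
  · rw [Frm.mul_z, ha.z, hb.z]; ring
  · obtain ⟨γ, hγ⟩ := s.prod α α' β β'
    refine ⟨c • v' + c' • v + (bx t σ e α β * bY e β' - bY e β * bx t σ e α' β'), ?_, ?_⟩
    · exact W.add_mem (W.add_mem (W.smul_mem _ hv') (W.smul_mem _ hv)) (hW ⟨γ, hγ⟩)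
    · rw [Frm.mul_xy, hc, hc', h1, h1', h2, h2', hv1, hv1', Algebra.smul_def, Algebra.smul_def]
      simp only [map_add, map_sub, map_mul]
      ring
  · rw [Frm.mul_xz, ha.xz, hb.xz, ha.z, hb.z]; ring
  · rw [Frm.mul_yz, ha.yz, hb.yz, ha.z, hb.z]; ring
  · rw [Frm.mul_xyz, ha.yz, hb.yz, ha.z, hb.z, ha.xz, hb.xz, ha.xyz, hb.xyz]; ring

/-- the model as a subalgebra -/
noncomputable def subB (s : Surf t σ w y e D δ) {W : Submodule ℂ S} (hW : prF t σ e ≤ W) :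
    Subalgebra ℂ (Frm S[X]) where
  carrier := {a | MemB t σ e W a}
  mul_mem' := fun ha hb => memB_mul s hW ha hb
  one_mem' := ⟨⟨1, by simp⟩, ⟨0, 0, by simp [bx], by simp [bY]⟩, rfl, ⟨0, W.zero_mem, by simp⟩, rfl, rfl,
    rfl⟩
  zero_mem' := ⟨⟨0, by simp⟩, ⟨0, 0, by simp [bx], by simp [bY]⟩, rfl, ⟨0, W.zero_mem, by simp⟩, rfl, rfl,
    rfl⟩
  add_mem' := by
    intro a b ha hb
    obtain ⟨c, hc⟩ := ha.o
    obtain ⟨c', hc'⟩ := hb.o
    obtain ⟨α, β, h1, h2⟩ := ha.xy'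
    obtain ⟨α', β', h1', h2'⟩ := hb.xy'
    obtain ⟨v, hv, hv1⟩ := ha.w
    obtain ⟨v', hv', hv1'⟩ := hb.w
    refine ⟨⟨c + c', ?_⟩, ⟨α + α', β + β', ?_, ?_⟩, ?_, ⟨v + v', W.add_mem hv hv', ?_⟩, ?_, ?_, ?_⟩
    · rw [Frm.add_o, hc, hc', map_add, map_add]
    · rw [Frm.add_x, bx_add, h1, h1', map_add]
    · rw [Frm.add_y, bY_add, h2, h2', map_add]
    · rw [Frm.add_z, ha.z, hb.z, add_zero]
    · rw [Frm.add_xy, hv1, hv1', map_add]
    · rw [Frm.add_xz, ha.xz, hb.xz, add_zero]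
    · rw [Frm.add_yz, ha.yz, hb.yz, add_zero]
    · rw [Frm.add_xyz, ha.xyz, hb.xyz, add_zero]
  algebraMap_mem' := by
    intro r
    exact ⟨⟨r, rfl⟩, ⟨0, 0, by simp [bx, Frm.algebraMap_eq], by simp [bY, Frm.algebraMap_eq]⟩, rfl,
      ⟨0, W.zero_mem, by simp [Frm.algebraMap_eq]⟩, rfl, rfl, rfl⟩

end

end Pool.Agent.MPdc7581
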