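import Mathlib

/-!
# Polynomial lemmas behind the cohomology of the punctured line
-/

open Polynomial

namespace Pool.Agent.MPdc7581

section

variable {K : Type} [CommRing K]

/-- the product of all `X - p i` -/
noncomputable def PP {m : ℕ} (p : Fin m → K) : K[X] := ∏ i, (X - C (p i))

/-- the product of the `X - p j` with `j ≠ i` -/
noncomputable def PE {m : ℕ} (p : Fin m → K) (i : Fin m) : K[X] :=
  ∏ j ∈ Finset.univ.erase i, (X - C (p j))

lemma PP_eq {m : ℕ} (p : Fin m → K) (i : Fin m) : PP p = (X - C (p i)) * PE p i :=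
  (Finset.mul_prod_erase Finset.univ (fun j => X - C (p j)) (Finset.mem_univ i)).symm

lemma derivative_PP {m : ℕ} (p : Fin m → K) : derivative (PP p) = ∑ i, PE p i := by
  unfold PP PE
  rw [Polynomial.derivative_prod_finset]
  apply Finset.sum_congr rfl
  intro i _
  simp

lemma eval_PP {m : ℕ} (p : Fin m → K) (i : Fin m) : (PP p).eval (p i) = 0 := by
  rw [PP_eq p i]
  simp

lemma eval_PE_ne {m : ℕ} (p : Fin m → K) {i j : Fin m} (h : j ≠ i) : (PE p i).eval (p j) = 0 := by
  unfold PE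
  rw [Polynomial.eval_prod]
  apply Finset.prod_eq_zero (Finset.mem_erase.2 ⟨h, Finset.mem_univ j⟩)
  simp

lemma eval_PE_self {m : ℕ} {p : Fin m → K} (hp : ∀ i j, i ≠ j → IsUnit (p i - p j)) (i : Fin m) :
    IsUnit ((PE p i).eval (p i)) := by
  unfold PE
  rw [Polynomial.eval_prod]
  rw [IsUnit.prod_iff]
  intro j hj
  rw [Polynomial.eval_sub, Polynomial.eval_X, Polynomial.eval_C]
  exact hp i j (Finset.ne_of_mem_erase hj).symm

lemma PP_dvd {m : ℕ} {p : Fin m → K} (hp : ∀ i j, i ≠ j → IsUnit (p i - p j)) {A : K[X]}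
    (h : ∀ i, A.eval (p i) = 0) : PP p ∣ A := by
  unfold PP
  apply Finset.prod_dvd_of_coprime
  · intro i _ j _ hij
    exact Polynomial.isCoprime_X_sub_C_of_isUnit_sub (hp i j hij)
  · intro i _
    exact Polynomial.dvd_iff_isRoot.2 (h i)

lemma monic_PP {m : ℕ} (p : Fin m → K) : (PP p).Monic :=
  Polynomial.monic_prod_X_sub_C p Finset.univ

lemma monic_PE {m : ℕ} (p : Fin m → K) (i : Fin m) : (PE p i).Monic :=
  Polynomial.monic_prod_X_sub_C p _

lemma natDegree_PP [Nontrivial K] {m : ℕ} (p : Fin m → K) : (PP p).natDegree = m := by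
  unfold PP
  rw [Polynomial.natDegree_finsetProd_X_sub_C_eq_card]
  simp

lemma natDegree_PE [Nontrivial K] {m : ℕ} (p : Fin (m + 1) → K) (i : Fin (m + 1)) :
    (PE p i).natDegree = m := by
  unfold PE
  rw [Polynomial.natDegree_finsetProd_X_sub_C_eq_card]
  simp

end

section

variable {K : Type} [CommRing K] [Algebra ℂ K]

lemma isUnit_algebraMap {c : ℂ} (hc : c ≠ 0) : IsUnit (algebraMap ℂ K c) :=
  (isUnit_iff_ne_zero.2 hc).map (algebraMap ℂ K)

lemma exists_antideriv (A : K[X]) : ∃ B : K[X], derivative B = A := by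
  induction A using Polynomial.induction_on' with
  | add p q hp hq =>
    obtain ⟨B1, h1⟩ := hp
    obtain ⟨B2, h2⟩ := hq
    exact ⟨B1 + B2, by rw [derivative_add, h1, h2]⟩
  | monomial n a =>
    refine ⟨monomial (n + 1) (algebraMap ℂ K ((n : ℂ) + 1)⁻¹ * a), ?_⟩
    rw [derivative_monomial]
    have h1 : ((n : ℂ) + 1) ≠ 0 := by exact_mod_cast Nat.succ_ne_zero n
    have h2 : algebraMap ℂ K ((n : ℂ) + 1)⁻¹ * a * ((n + 1 : ℕ) : K) = a := by
      have h3 : ((n + 1 : ℕ) : K) = algebraMap ℂ K ((n : ℂ) + 1) := by simp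
      rw [h3, mul_comm, ← mul_assoc, ← map_mul, mul_inv_cancel₀ h1, map_one, one_mul]
    rw [h2]
    simp

lemma eq_C_of_derivative_eq_zero {B : K[X]} (h : derivative B = 0) : B = C (B.coeff 0) := by
  ext n
  rw [Polynomial.coeff_C]
  split_ifs with hn
  · rw [hn]
  · obtain ⟨k, rfl⟩ := Nat.exists_eq_succ_of_ne_zero hn
    have h1 := congrArg (fun q => q.coeff k) h
    simp only [Polynomial.coeff_derivative, Polynomial.coeff_zero] at h1
    have h2 : (k : K) + 1 = algebraMap ℂ K ((k : ℂ) + 1) := by simp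
    rw [h2] at h1
    have h3 : ((k : ℂ) + 1) ≠ 0 := by exact_mod_cast Nat.succ_ne_zero k
    exact (isUnit_algebraMap h3).mul_left_eq_zero.1 h1

/-- the twisted differential in terms of numerators -/
noncomputable def LL {m : ℕ} (p : Fin m → K) (κ : Fin m → ℂ) (N : ℕ) (B : K[X]) : K[X] :=
  derivative B * PP p + ∑ i, C (algebraMap ℂ K (κ i - N)) * B * PE p i

lemma eval_LL {m : ℕ} (p : Fin m → K) (κ : Fin m → ℂ) (N : ℕ) (B : K[X]) (i : Fin m) :
    (LL p κ N B).eval (p i) = algebraMap ℂ K (κ i - N) * B.eval (p i) * (PE p i).eval (p i) := by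
  unfold LL
  rw [Polynomial.eval_add, Polynomial.eval_mul, eval_PP, mul_zero, zero_add,
    Polynomial.eval_finsetSum, Finset.sum_eq_single i]
  · simp
  · intro j _ hj
    rw [Polynomial.eval_mul, eval_PE_ne p hj.symm, mul_zero]
  · intro h; exact absurd (Finset.mem_univ _) h

lemma LL_reduce {m : ℕ} {p : Fin m → K} (hp : ∀ i j, i ≠ j → IsUnit (p i - p j)) {κ : Fin m → ℂ}
    {N : ℕ} (hκ : ∀ i, κ i ≠ N) (A : K[X]) : ∃ B A1, A = LL p κ N B + PP p * A1 := by
  choose u hu using fun i => eval_PE_self hp i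
  have hu' : ∀ i, ((u i)⁻¹ : Kˣ) * (PE p i).eval (p i) = 1 := fun i => by
    rw [← hu i]; exact Units.inv_mul _
  obtain ⟨B, hB⟩ : ∃ B, B = ∑ i, C (algebraMap ℂ K (κ i - N)⁻¹ * A.eval (p i) * ((u i)⁻¹ : Kˣ)
      * ((u i)⁻¹ : Kˣ)) * PE p i := ⟨_, rfl⟩
  have hBe : ∀ i, B.eval (p i) = algebraMap ℂ K (κ i - N)⁻¹ * A.eval (p i) * ((u i)⁻¹ : Kˣ) := by
    intro i
    rw [hB, Polynomial.eval_finsetSum, Finset.sum_eq_single i]
    · rw [Polynomial.eval_mul, Polynomial.eval_C, mul_assoc, hu', mul_one]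
    · intro j _ hj
      rw [Polynomial.eval_mul, eval_PE_ne p hj.symm, mul_zero]
    · intro h; exact absurd (Finset.mem_univ _) h
  have hd : PP p ∣ A - LL p κ N B := by
    apply PP_dvd hp
    intro i
    rw [Polynomial.eval_sub, eval_LL, hBe]
    have h1 : κ i - N ≠ 0 := sub_ne_zero.2 (hκ i)
    have h2 : algebraMap ℂ K (κ i - N) * (algebraMap ℂ K (κ i - N)⁻¹ * A.eval (p i)
        * ((u i)⁻¹ : Kˣ)) * (PE p i).eval (p i) = (algebraMap ℂ K (κ i - N) *
          algebraMap ℂ K (κ i - N)⁻¹) * A.eval (p i) * (((u i)⁻¹ : Kˣ) * (PE p i).eval (p i)) := by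
      ring
    rw [h2, hu', ← map_mul, mul_inv_cancel₀ h1, map_one, one_mul, mul_one, sub_self]
  obtain ⟨A1, hA1⟩ := hd
  exact ⟨B, A1, by rw [← hA1]; ring⟩

lemma LL_dvd {m : ℕ} {p : Fin m → K} (hp : ∀ i j, i ≠ j → IsUnit (p i - p j)) {κ : Fin m → ℂ}
    {N : ℕ} (hκ : ∀ i, κ i ≠ N) {B : K[X]} (h : PP p ∣ LL p κ N B) : PP p ∣ B := by
  apply PP_dvd hp
  intro i
  obtain ⟨A, hA⟩ := h
  have h1 := congrArg (fun q => q.eval (p i)) hA
  simp only [Polynomial.eval_mul, eval_PP, zero_mul] at h1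
  rw [eval_LL] at h1
  have h2 := (eval_PE_self hp i).mul_left_eq_zero.1 h1
  exact (isUnit_algebraMap (sub_ne_zero.2 (hκ i))).mul_right_eq_zero.1 h2

lemma coeff_LL [Nontrivial K] {m : ℕ} (p : Fin (m + 1) → K) (κ : Fin (m + 1) → ℂ) {n : ℕ} {B : K[X]}
    (hB : B.natDegree ≤ n) :
    (LL p κ 0 B).coeff (n + m) = algebraMap ℂ K (n + ∑ i, κ i) * B.coeff n := by
  unfold LL
  rw [Polynomial.coeff_add, Polynomial.finsetSum_coeff]
  have h1 : ∀ i, (C (algebraMap ℂ K (κ i - (0 : ℕ))) * B * PE p i).coeff (n + m)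
      = algebraMap ℂ K (κ i) * B.coeff n := by
    intro i
    have hd : (C (algebraMap ℂ K (κ i - (0 : ℕ))) * B).natDegree ≤ n :=
      (Polynomial.natDegree_C_mul_le _ _).trans hB
    rw [Polynomial.coeff_mul_add_eq_of_natDegree_le hd (natDegree_PE p i).le]
    have : (PE p i).coeff m = 1 := by
      have := (monic_PE p i).coeff_natDegree
      rwa [natDegree_PE] at this
    rw [this, mul_one, Polynomial.coeff_C_mul]
    simp
  have h2 : (derivative B * PP p).coeff (n + m) = algebraMap ℂ K n * B.coeff n := by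
    rcases Nat.eq_zero_or_pos n with hn | hn
    · subst hn
      have : derivative B = 0 := by
        rw [Polynomial.eq_C_of_natDegree_le_zero hB]
        exact derivative_C
      rw [this]
      simp
    · obtain ⟨k, rfl⟩ := Nat.exists_eq_succ_of_ne_zero hn.ne'
      have hd : (derivative B).natDegree ≤ k := by
        have := Polynomial.natDegree_derivative_le B
        omega
      have e : k.succ + m = k + (m + 1) := by omega
      rw [e, Polynomial.coeff_mul_add_eq_of_natDegree_le hd (natDegree_PP p).le]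
      have : (PP p).coeff (m + 1) = 1 := by
        have := (monic_PP p).coeff_natDegree
        rwa [natDegree_PP] at this
      rw [this, mul_one, Polynomial.coeff_derivative]
      simp
      ring
  rw [h2, Finset.sum_congr rfl fun i _ => h1 i, ← Finset.sum_mul, ← map_sum, ← add_mul, ← map_add]

lemma natDegree_LL [Nontrivial K] {m : ℕ} (p : Fin (m + 1) → K) (κ : Fin (m + 1) → ℂ) {n : ℕ}
    {B : K[X]} (hB : B.natDegree ≤ n) : (LL p κ 0 B).natDegree ≤ n + m := by
  unfold LL
  apply Polynomial.natDegree_add_le_of_degree_le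
  · rcases Nat.eq_zero_or_pos n with hn | hn
    · subst hn
      have : derivative B = 0 := by
        rw [Polynomial.eq_C_of_natDegree_le_zero hB]
        exact derivative_C
      rw [this]
      simp
    · have h1 := Polynomial.natDegree_derivative_le B
      have h2 := Polynomial.natDegree_mul_le (p := derivative B) (q := PP p)
      rw [natDegree_PP] at h2
      omega
  · apply Polynomial.natDegree_sum_le_of_forall_le
    intro i _
    have h1 : (C (algebraMap ℂ K (κ i - (0 : ℕ))) * B).natDegree ≤ n :=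
      (Polynomial.natDegree_C_mul_le _ _).trans hB
    have h2 := Polynomial.natDegree_mul_le (p := C (algebraMap ℂ K (κ i - (0 : ℕ))) * B) (q := PE p i)
    rw [natDegree_PE] at h2
    omega

lemma LL_add {m : ℕ} (p : Fin m → K) (κ : Fin m → ℂ) (N : ℕ) (A B : K[X]) :
    LL p κ N (A + B) = LL p κ N A + LL p κ N B := by
  unfold LL
  rw [derivative_add, add_mul]
  simp_rw [mul_add, add_mul]
  rw [Finset.sum_add_distrib]
  ring

lemma LL_low [Nontrivial K] {m : ℕ} {p : Fin (m + 1) → K} {κ : Fin (m + 1) → ℂ}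
    (hκ : ∀ n : ℕ, (n : ℂ) + ∑ i, κ i ≠ 0) (A : K[X]) :
    ∃ B Q, A = LL p κ 0 B + Q ∧ Q.degree < m := by
  have key : ∀ n : ℕ, ∀ A : K[X], A.degree < (n + m : ℕ) → ∃ B Q, A = LL p κ 0 B + Q ∧ Q.degree < m := by
    intro n
    induction n with
    | zero =>
      intro A hA
      refine ⟨0, A, ?_, by simpa using hA⟩
      unfold LL
      simp
    | succ n ih =>
      intro A hA
      obtain ⟨B0, hB0⟩ : ∃ B0 : K[X], B0 = monomial n (algebraMap ℂ K ((n : ℂ) + ∑ i, κ i)⁻¹ * A.coeff (n + m)) :=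
        ⟨_, rfl⟩
      have hB0d : B0.natDegree ≤ n := by rw [hB0]; exact Polynomial.natDegree_monomial_le _
      have h1 : (A - LL p κ 0 B0).degree < (n + m : ℕ) := by
        rw [Polynomial.degree_lt_iff_coeff_zero]
        intro k hk
        rw [Polynomial.coeff_sub]
        rcases hk.lt_or_eq with hk' | hk'
        · have h2 : A.coeff k = 0 := by
            apply Polynomial.coeff_eq_zero_of_degree_lt
            refine lt_of_lt_of_le hA ?_
            have : n + 1 + m ≤ k := by omega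
            exact_mod_cast this
          have h3 : (LL p κ 0 B0).coeff k = 0 := by
            apply Polynomial.coeff_eq_zero_of_natDegree_lt
            exact lt_of_le_of_lt (natDegree_LL p κ hB0d) hk'
          rw [h2, h3, sub_zero]
        · subst hk'
          rw [coeff_LL p κ hB0d, hB0, Polynomial.coeff_monomial, if_pos rfl, ← mul_assoc, ← map_mul,
            mul_inv_cancel₀ (hκ n), map_one, one_mul, sub_self]
      obtain ⟨B, Q, h2, h3⟩ := ih _ h1
      refine ⟨B0 + B, Q, ?_, h3⟩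
      rw [LL_add, add_assoc, ← h2]
      ring
  refine key (A.natDegree + 1) A ?_
  refine lt_of_le_of_lt Polynomial.degree_le_natDegree ?_
  exact_mod_cast (by omega : A.natDegree < A.natDegree + 1 + m)

lemma LL_low_inj [Nontrivial K] {m : ℕ} {p : Fin (m + 1) → K} {κ : Fin (m + 1) → ℂ}
    (hκ : ∀ n : ℕ, (n : ℂ) + ∑ i, κ i ≠ 0) {B : K[X]} (h : (LL p κ 0 B).degree < m) : B = 0 := by
  by_contra hB
  have h1 := coeff_LL p κ (le_refl B.natDegree)
  have h2 : (LL p κ 0 B).coeff (B.natDegree + m) = 0 := by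
    apply Polynomial.coeff_eq_zero_of_degree_lt
    refine lt_of_lt_of_le h ?_
    exact_mod_cast Nat.le_add_left m _
  rw [h2] at h1
  have h3 := (isUnit_algebraMap (hκ B.natDegree)).mul_right_eq_zero.1 h1.symm
  exact hB (Polynomial.leadingCoeff_eq_zero.1 h3)

end

end Pool.Agent.MPdc7581
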