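import Pool.Agent.MPdc7581.Model

/-!
# The model is quasi-isomorphic to the algebra of forms
-/

set_option linter.unusedSectionVars false
set_option linter.unusedSimpArgs false
set_option linter.style.haveILetI false

open Polynomial

namespace Pool.Agent.MPdc7581

section

variable {S : Type} [CommRing S] [Algebra ℂ S] {t σ w y : S} {e : Fin 3 → S} {D δ : Derivation ℂ S S}
  {W : Submodule ℂ S}

lemma memB_pr {a : Frm S[X]} (ha : MemB t σ e W a) (p : ℕ) : MemB t σ e W (Frm.pr p a) := by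
  match p with
  | 0 =>
    exact ⟨ha.o, ⟨0, 0, by simp [bx, Frm.pr], by simp [bY, Frm.pr]⟩, rfl, ⟨0, W.zero_mem, by simp [Frm.pr]⟩,
      rfl, rfl, rfl⟩
  | 1 =>
    exact ⟨⟨0, by simp [Frm.pr]⟩, ha.xy', ha.z, ⟨0, W.zero_mem, by simp [Frm.pr]⟩, rfl, rfl, rfl⟩
  | 2 =>
    exact ⟨⟨0, by simp [Frm.pr]⟩, ⟨0, 0, by simp [bx, Frm.pr], by simp [bY, Frm.pr]⟩, rfl, ha.w,
      ha.xz, ha.yz, rfl⟩
  | 3 =>
    exact ⟨⟨0, by simp [Frm.pr]⟩, ⟨0, 0, by simp [bx, Frm.pr], by simp [bY, Frm.pr]⟩, rfl,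
      ⟨0, W.zero_mem, by simp [Frm.pr]⟩, rfl, rfl, ha.xyz⟩
  | _ + 4 =>
    exact ⟨⟨0, by simp [Frm.pr]⟩, ⟨0, 0, by simp [bx, Frm.pr], by simp [bY, Frm.pr]⟩, rfl,
      ⟨0, W.zero_mem, by simp [Frm.pr]⟩, rfl, rfl, rfl⟩

/-- the projections on the model -/
noncomputable def prB (s : Surf t σ w y e D δ) (hW : prF t σ e ≤ W) (p : ℕ) :
    subB s hW →ₗ[ℂ] subB s hW :=
  ((Frm.pr p).comp (subB s hW).val.toLinearMap).codRestrict (Subalgebra.toSubmodule (subB s hW))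
    (fun a => memB_pr a.2 p)

lemma prB_coe (s : Surf t σ w y e D δ) (hW : prF t σ e ≤ W) (p : ℕ) (a : subB s hW) :
    ((prB s hW p a : subB s hW) : Frm S[X]) = Frm.pr p (a : Frm S[X]) := rfl

lemma pr_mem (p : ℕ) (a : Frm S[X]) : Frm.pr p a ∈ (Frm.gr p : Submodule ℂ (Frm S[X])) := ⟨a, rfl⟩

lemma pr_of_mem (p : ℕ) (a : Frm S[X]) (ha : a ∈ (Frm.gr p : Submodule ℂ (Frm S[X]))) :
    Frm.pr p a = a := by
  obtain ⟨b, rfl⟩ := ha
  match p with
  | 0 => rfl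
  | 1 => rfl
  | 2 => rfl
  | 3 => rfl
  | _ + 4 => rfl

lemma pr_of_ne (p q : ℕ) (hpq : p ≠ q) (a : Frm S[X]) (ha : a ∈ (Frm.gr p : Submodule ℂ (Frm S[X]))) :
    Frm.pr q a = 0 := by
  obtain ⟨b, rfl⟩ := ha
  match p, q with
  | 0, 0 => exact absurd rfl hpq
  | 0, 1 => rfl
  | 0, 2 => rfl
  | 0, 3 => rfl
  | 1, 0 => rfl
  | 1, 1 => exact absurd rfl hpq
  | 1, 2 => rfl
  | 1, 3 => rfl
  | 2, 0 => rfl
  | 2, 1 => rfl
  | 2, 2 => exact absurd rfl hpq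
  | 2, 3 => rfl
  | 3, 0 => rfl
  | 3, 1 => rfl
  | 3, 2 => rfl
  | 3, 3 => exact absurd rfl hpq
  | _ + 4, q => exact (Frm.pr q).map_zero
  | 0, _ + 4 => rfl
  | 1, _ + 4 => rfl
  | 2, _ + 4 => rfl
  | 3, _ + 4 => rfl

lemma pr_sum (a : Frm S[X]) : a = ∑ p ∈ Finset.range 4, Frm.pr p a := by
  rw [Finset.sum_range_succ, Finset.sum_range_succ, Finset.sum_range_succ, Finset.sum_range_succ,
    Finset.sum_range_zero]
  ext1 <;> simp [Frm.pr]

/-- the model -/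
noncomputable def modB (s : Surf t σ w y e D δ) (hW : prF t σ e ≤ W) : CDGA where
  A := subB s hW
  gr p := (Frm.gr p : Submodule ℂ (Frm S[X])).comap (subB s hW).val.toLinearMap
  internal := by
    refine isInternal_of_proj _ (prB s hW) 4 ?_ ?_ ?_ ?_
    · intro p a
      exact pr_mem (S := S) p a.1
    · intro p a ha
      exact Subtype.ext (pr_of_mem (S := S) p a.1 ha)
    · intro p q hpq a ha
      exact Subtype.ext (pr_of_ne (S := S) p q hpq a.1 ha)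
    · intro a
      apply Subtype.ext
      rw [AddSubmonoidClass.coe_finsetSum]
      exact pr_sum (S := S) a.1
  one_mem := Frm.mem_gr0.2 ⟨rfl, rfl, rfl, rfl, rfl, rfl, rfl⟩
  mul_mem {p q a b} ha hb :=
    (Frm.forms S[X] 0 0 0 (fun _ => rfl) (fun _ => rfl) (fun _ => rfl)).mul_mem ha hb
  mul_comm {p q a b} ha hb := by
    apply Subtype.ext
    have h := (Frm.forms S[X] 0 0 0 (fun _ => rfl) (fun _ => rfl) (fun _ => rfl)).mul_comm ha hb
    refine Eq.trans h ?_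
    rw [MulMemClass.coe_mul, SubmonoidClass.coe_pow]
    rfl
  d := 0
  d_mem _ := Submodule.zero_mem _
  d_d _ := rfl
  leibniz {p a} b _ := by
    change (0 : subB s hW) = 0 * b + (-1) ^ p * (a * 0)
    rw [zero_mul, mul_zero, mul_zero, add_zero]

end

end Pool.Agent.MPdc7581
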