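import Pool.Agent.MPdc7581.Base2

/-!
# The line over the cubic cover, and its double cover
-/

set_option linter.unusedSectionVars false
set_option linter.unusedSimpArgs false
set_option linter.style.haveILetI false

open Polynomial

namespace Pool.Agent.MPdc7581

/-- the three punctures -/
def p3 {K : Type} [CommRing K] (t : K) : Fin 3 → K := ![0, 1, t]

lemma PP_p3 {K : Type} [CommRing K] (t : K) : PP (p3 t) = X * (X - 1) * (X - C t) := by
  unfold PP p3
  rw [Fin.prod_univ_three]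
  simp

lemma Base.ut {K : Type} [CommRing K] [Algebra ℂ K] {t σ : K} {D : Derivation ℂ K K}
    (b : Base t σ D) : IsUnit t := by
  have h : IsUnit (t * (1 - t)) := IsUnit.of_mul_eq_one _ (by rw [mul_comm]; exact b.rel)
  exact isUnit_of_mul_isUnit_left h

lemma Base.ut1 {K : Type} [CommRing K] [Algebra ℂ K] {t σ : K} {D : Derivation ℂ K K}
    (b : Base t σ D) : IsUnit (1 - t) := by
  have h : IsUnit (t * (1 - t)) := IsUnit.of_mul_eq_one _ (by rw [mul_comm]; exact b.rel)
  exact isUnit_of_mul_isUnit_right h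

lemma Base.uσ {K : Type} [CommRing K] [Algebra ℂ K] {t σ : K} {D : Derivation ℂ K K}
    (b : Base t σ D) : IsUnit σ := by
  have h : IsUnit (σ ^ 3) := IsUnit.of_mul_eq_one _ b.rel
  exact (isUnit_pow_iff (by norm_num)).1 h

/-- the line punctured at three points over the cubic cover -/
structure Line {K R : Type} [CommRing K] [Algebra ℂ K] [CommRing R] [Algebra ℂ R] [Algebra K R]
    [IsScalarTower ℂ K R] (t : K) (D : Derivation ℂ K K) (w : R) (DR δR : Derivation ℂ R R) : Prop where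
  chart : Chart (p3 t) w δR
  DK : ∀ k, DR (algebraMap K R k) = algebraMap K R (D k)
  Dw : DR w = 0
  lift : ∀ (A : Type) [CommRing A] [Algebra ℂ A] (f : K →ₐ[ℂ] A) (w' : A), IsUnit w' →
    IsUnit (w' - 1) → IsUnit (w' - f t) → ∃ g : R →ₐ[ℂ] A, (∀ k, g (algebraMap K R k) = f k) ∧ g w = w'
  hom_ext : ∀ (A : Type) [CommRing A] [Algebra ℂ A] (f g : R →ₐ[ℂ] A),
    (∀ k, f (algebraMap K R k) = g (algebraMap K R k)) → f w = g w → f = g
  gen : ∀ (M : Type) [AddCommGroup M] [Module R M] [Module ℂ M] [IsScalarTower ℂ R M]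
    (Δ : Derivation ℂ R M) (a : R), Δ a = DR a • Δ (algebraMap K R t) + δR a • Δ w

theorem exists_line {K : Type} [CommRing K] [Algebra ℂ K] {t σ : K} {D : Derivation ℂ K K}
    (b : Base t σ D) : ∃ (R : Type) (_ : CommRing R) (_ : Algebra ℂ R) (_ : Algebra K R)
      (_ : IsScalarTower ℂ K R) (w : R) (DR δR : Derivation ℂ R R), Line t D w DR δR := by
  obtain ⟨δR, hδ1, hδ2⟩ := Pln.exists_deriv (p3 t) (0 : Derivation ℂ K (Pln (p3 t))) 1
  obtain ⟨DR, hD1, hD2⟩ := Pln.exists_deriv (p3 t)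
    ((Algebra.linearMap K (Pln (p3 t))).compDer D) 0
  have hD1' : ∀ k, DR (algebraMap K (Pln (p3 t)) k) = algebraMap K (Pln (p3 t)) (D k) := hD1
  have hδ1' : ∀ k, δR (algebraMap K (Pln (p3 t)) k) = 0 := hδ1
  refine ⟨Pln (p3 t), inferInstance, inferInstance, inferInstance, inferInstance, Pln.x (p3 t), DR, δR,
    ⟨?_, hD1', hD2, ?_, ?_, ?_⟩⟩
  · apply Pln.chart (p3 t) _ hδ1 hδ2
    have h1 := b.ut
    have h2 := b.ut1
    have h1' := h1.neg
    have h2' := h2.neg
    rw [neg_sub] at h2'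
    intro i j hij
    fin_cases i <;> fin_cases j <;> simp [p3] at hij ⊢ <;> assumption
  · intro A _ _ f w' u1 u2 u3
    refine ⟨Pln.lift (p3 t) f w' ?_, Pln.lift_K _ _ _ _, Pln.lift_x _ _ _ _⟩
    intro i
    fin_cases i
    · simpa [p3] using u1
    · simpa [p3] using u2
    · simpa [p3] using u3
  · intro A _ _ f g h1 h2
    exact Pln.hom_ext (p3 t) h1 h2
  · intro M _ _ _ _ Δ a
    letI : Module K M := Module.compHom M (algebraMap K (Pln (p3 t)))
    have hsm : ∀ (c : K) (x : M), c • x = algebraMap K (Pln (p3 t)) c • x := fun c x => rfl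
    haveI : IsScalarTower ℂ K M := ⟨fun r c x => by
      rw [hsm, hsm, Algebra.smul_def, map_mul, ← IsScalarTower.algebraMap_apply, mul_smul,
        algebraMap_smul]⟩
    have key := Pln.deriv_ext (p3 t) (D1 := Δ)
      (D2 := (LinearMap.toSpanSingleton (Pln (p3 t)) M (Δ (algebraMap K (Pln (p3 t)) t))).compDer DR
        + (LinearMap.toSpanSingleton (Pln (p3 t)) M (Δ (Pln.x (p3 t)))).compDer δR) (fun r => by
        let Δ0 : Derivation ℂ K M :=
          { toFun := fun r => Δ (algebraMap K (Pln (p3 t)) r)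
            map_add' := fun a b => by rw [map_add, map_add]
            map_smul' := fun r a => by
              have h1 : algebraMap K (Pln (p3 t)) (r • a) = r • algebraMap K (Pln (p3 t)) a := by
                rw [Algebra.smul_def, map_mul, ← IsScalarTower.algebraMap_apply, ← Algebra.smul_def]
              change Δ (algebraMap K (Pln (p3 t)) (r • a)) = r • Δ (algebraMap K (Pln (p3 t)) a)
              rw [h1]
              exact Δ.map_smul r _
            map_one_eq_zero' := by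
              change Δ (algebraMap K (Pln (p3 t)) 1) = 0
              rw [map_one, Derivation.map_one_eq_zero]
            leibniz' := fun a b => by
              change Δ (algebraMap K (Pln (p3 t)) (a * b)) = algebraMap K (Pln (p3 t)) a
                • Δ (algebraMap K (Pln (p3 t)) b) + algebraMap K (Pln (p3 t)) b • Δ (algebraMap K (Pln (p3 t)) a)
              rw [map_mul, Derivation.leibniz] }
        have h := b.gen M Δ0 r
        change Δ (algebraMap K (Pln (p3 t)) r) = algebraMap K (Pln (p3 t)) (D r)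
          • Δ (algebraMap K (Pln (p3 t)) t) at h
        change Δ (algebraMap K (Pln (p3 t)) r) = DR (algebraMap K (Pln (p3 t)) r)
          • Δ (algebraMap K (Pln (p3 t)) t) + δR (algebraMap K (Pln (p3 t)) r) • Δ (Pln.x (p3 t))
        rw [hD1', hδ1', h, zero_smul, add_zero]) (by
        change Δ (Pln.x (p3 t)) = DR (Pln.x (p3 t))
          • Δ (algebraMap K (Pln (p3 t)) t) + δR (Pln.x (p3 t)) • Δ (Pln.x (p3 t))
        rw [hD2, hδ2, zero_smul, one_smul, zero_add]) a
    exact key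

/-- the functions with logarithmic singularities on the base -/
def cc {S : Type} [CommRing S] (t σ : S) : Fin 4 → S :=
  ![σ ^ 3 * (1 - t), - (σ ^ 3 * t), σ ^ 4, σ ^ 5]

/-- the Milnor fiber modulo translations -/
structure Surf {S : Type} [CommRing S] [Algebra ℂ S] (t σ w y : S) (e : Fin 3 → S)
    (D δ : Derivation ℂ S S) : Prop where
  nontriv : Nontrivial S
  rel1 : σ ^ 3 * (t * (1 - t)) = 1
  e0 : w * e 0 = 1
  e1 : (w - 1) * e 1 = 1
  e2 : (w - t) * e 2 = 1
  rel2 : y ^ 2 = σ * (w * (w - 1) * (w - t))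
  Dt : D t = 1
  Dw : D w = 0
  δt : δ t = 0
  δw : δ w = 1
  lift : ∀ (A : Type) [CommRing A] [Algebra ℂ A] (t' σ' w' y' : A), σ' ^ 3 * (t' * (1 - t')) = 1 →
    IsUnit w' → IsUnit (w' - 1) → IsUnit (w' - t') → y' ^ 2 = σ' * (w' * (w' - 1) * (w' - t')) →
    ∃ f : S →ₐ[ℂ] A, f t = t' ∧ f σ = σ' ∧ f w = w' ∧ f y = y'
  hom_ext : ∀ (A : Type) [CommRing A] [Algebra ℂ A] (f g : S →ₐ[ℂ] A), f t = g t → f σ = g σ →
    f w = g w → f y = g y → f = g
  gen : ∀ (M : Type) [AddCommGroup M] [Module S M] [Module ℂ M] [IsScalarTower ℂ S M]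
    (Δ : Derivation ℂ S M) (a : S), Δ a = D a • Δ t + δ a • Δ w
  H0 : ∀ f, D f = 0 → δ f = 0 → ∃ c : ℂ, f = algebraMap ℂ S c
  H1 : ∀ F G, D G = δ F → ∃ (h : S) (α : Fin 4 → ℂ) (β : Fin 3 → ℂ),
    F = D h + ∑ a, algebraMap ℂ S (α a) * cc t σ a - algebraMap ℂ S (β 2) * e 2 ∧
    G = δ h + ∑ i, algebraMap ℂ S (β i) * e i
  H1i : ∀ (h : S) (α : Fin 4 → ℂ) (β : Fin 3 → ℂ),
    D h = ∑ a, algebraMap ℂ S (α a) * cc t σ a - algebraMap ℂ S (β 2) * e 2 →
    δ h = ∑ i, algebraMap ℂ S (β i) * e i → α = 0 ∧ β = 0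
  H2i : ∀ (F G : S) (γ : Fin 4 → Fin 3 → ℂ),
    D G - δ F = ∑ i, (∑ a, algebraMap ℂ S (γ a i) * cc t σ a) * e i → γ = 0

end Pool.Agent.MPdc7581
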