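import Pool.Agent.MPdc7581.LineOdd

/-!
# The surface: existence and cohomology
-/

set_option linter.unusedSectionVars false
set_option linter.unusedSimpArgs false
set_option linter.style.haveILetI false

open Polynomial

namespace Pool.Agent.MPdc7581

theorem exists_surf_of {K : Type} [CommRing K] [Algebra ℂ K] {R : Type} [CommRing R] [Algebra ℂ R]
    [Algebra K R] [IsScalarTower ℂ K R] {t σ : K} {D : Derivation ℂ K K} {w : R}
    {DR δR : Derivation ℂ R R} (b : Base t σ D) (l : Line t D w DR δR) :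
    ∃ (S : Type) (_ : CommRing S) (_ : Algebra ℂ S) (t σ w y : S) (e : Fin 3 → S)
      (D δ : Derivation ℂ S S), Surf t σ w y e D δ := by
  obtain ⟨P, hP⟩ : ∃ P, P = w * (w - 1) * (w - algebraMap K R t) := ⟨_, rfl⟩
  obtain ⟨E, hE⟩ : ∃ E, E = Chart.E (p3 t) w := ⟨_, rfl⟩
  have hPE : P * E = 1 := by rw [hP, hE]; exact Line.PE_mul b l
  have hPu : IsUnit P := IsUnit.of_mul_eq_one _ hPE
  obtain ⟨u, hu⟩ : ∃ u, u = algebraMap K R σ * P := ⟨_, rfl⟩
  have huU : IsUnit u := by rw [hu]; exact (b.uσ.map _).mul hPu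
  obtain ⟨D', hD⟩ := Kum.exists_deriv 2 u (by norm_num) huU ((Algebra.linearMap R (Kum 2 u)).compDer DR)
  obtain ⟨δ', hδ⟩ := Kum.exists_deriv 2 u (by norm_num) huU ((Algebra.linearMap R (Kum 2 u)).compDer δR)
  obtain ⟨am, ham⟩ : ∃ am, am = algebraMap R (Kum 2 u) := ⟨_, rfl⟩
  have hD' : ∀ r, D' (am r) = am (DR r) := by rw [ham]; exact hD
  have hδ' : ∀ r, δ' (am r) = am (δR r) := by rw [ham]; exact hδ
  have hamC : ∀ c : ℂ, am (algebraMap ℂ R c) = algebraMap ℂ (Kum 2 u) c := fun c => by
    rw [ham, ← IsScalarTower.algebraMap_apply]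
  obtain ⟨y, hy⟩ : ∃ y, y = Kum.z 2 u := ⟨_, rfl⟩
  have hy2 : y ^ 2 = am u := by rw [hy, ham]; exact Kum.z_pow 2 u
  have hyU : IsUnit y := by rw [hy]; exact Kum.isUnit_z 2 u (by norm_num) huU
  have hco : ∀ f : Kum 2 u, ∃ a0 a1 : R, f = am a0 + am a1 * y := by
    intro f
    have : Nontrivial R := by
      have := b.nontriv
      refine ⟨0, 1, fun h => ?_⟩
      exact zero_ne_one (α := K) (sub_eq_zero.1 (Line.inj b l (a := 0 - 1) (by
        rw [map_sub, map_zero, map_one, ← h, sub_self])))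
    obtain ⟨a, ha⟩ := Kum.exists_coords 2 u (by norm_num) f
    refine ⟨a 0, a 1, ?_⟩
    rw [ha, Fin.sum_univ_two, ham, hy]
    simp
  have hcu : ∀ a0 a1 : R, am a0 + am a1 * y = 0 → a0 = 0 ∧ a1 = 0 := by
    intro a0 a1 h
    have : Nontrivial R := by
      have := b.nontriv
      refine ⟨0, 1, fun h => ?_⟩
      exact zero_ne_one (α := K) (sub_eq_zero.1 (Line.inj b l (a := 0 - 1) (by
        rw [map_sub, map_zero, map_one, ← h, sub_self])))
    have := Kum.coords_unique 2 u (by norm_num) ![a0, a1] (by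
      rw [Fin.sum_univ_two, ← ham, ← hy]
      simpa using h)
    exact ⟨this 0, this 1⟩
  -- derivatives of `y`
  have hH : (2 : Kum 2 u) * am (algebraMap ℂ R (1/2)) = 1 := by
    rw [← map_ofNat am 2, ← map_mul, half b l, map_one]
  have hdy : ∀ (Δ : Derivation ℂ (Kum 2 u) (Kum 2 u)) (ΔR : Derivation ℂ R R)
      (_ : ∀ r, Δ (am r) = am (ΔR r)) (v : R), ΔR u = 2 * u * v → Δ y = am v * y := by
    intro Δ ΔR h1 v h2
    have h3 := congrArg Δ hy2
    rw [Derivation.leibniz_pow, h1, h2, map_mul, map_mul, ← hy2, map_ofNat] at h3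
    simp only [smul_eq_mul, nsmul_eq_mul] at h3
    push_cast at h3
    have h4 : (2 * am (algebraMap ℂ R (1/2))) * (y * Δ y) = (2 * am (algebraMap ℂ R (1/2))) * (y * (am v * y)) := by
      linear_combination am (algebraMap ℂ R (1/2)) * h3
    rw [hH, one_mul, one_mul] at h4
    exact hyU.mul_left_cancel h4
  have hDu : DR u = 2 * u * (algebraMap K R (algebraMap ℂ K (1/6) * (σ ^ 3 * (2 * t - 1)))
    - algebraMap ℂ R (1/2) * Chart.e (p3 t) w 2) := by
    rw [hu, Derivation.leibniz, l.DK, hP]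
    simp only [map_sub, Derivation.leibniz, l.Dw, Derivation.map_one_eq_zero, l.DK, b.Dt, map_one,
      smul_eq_mul, smul_zero, mul_zero, add_zero, zero_add, sub_zero, zero_sub]
    have h1 := b.Dσ
    have h2 : (3 : K) * algebraMap ℂ K (1/3) = 1 := by
      rw [← map_ofNat (algebraMap ℂ K) 3, ← map_mul]
      norm_num
    have h3 : D σ = algebraMap ℂ K (1/3) * (σ ^ 4 * (2 * t - 1)) := by
      linear_combination algebraMap ℂ K (1/3) * h1 - D σ * h2
    have h4 : (2 : K) * algebraMap ℂ K (1/6) = algebraMap ℂ K (1/3) := by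
      rw [← map_ofNat (algebraMap ℂ K) 2, ← map_mul]
      norm_num
    have h5 : algebraMap K R (D σ) = 2 * algebraMap K R σ * algebraMap K R (algebraMap ℂ K (1/6) * (σ ^ 3 * (2 * t - 1))) := by
      rw [h3, ← h4]
      simp only [map_mul, map_pow, map_sub, map_ofNat, map_one]
      ring
    rw [h5]
    have h6 := half b l
    have h7 := Line.e2 b l
    linear_combination (algebraMap K R σ * (w * (w - 1) * (w - algebraMap K R t)) * Chart.e (p3 t) w 2) * h6
      + (algebraMap K R σ * (w * (w - 1))) * h7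
  have hδu : δR u = 2 * u * (algebraMap ℂ R (1/2) * (Chart.e (p3 t) w 0
    + Chart.e (p3 t) w 1 + Chart.e (p3 t) w 2)) := by
    rw [hu, Derivation.leibniz, l.chart.hK, hP]
    simp only [map_sub, Derivation.leibniz, l.chart.hx, Derivation.map_one_eq_zero, l.chart.hK, map_one,
      smul_eq_mul, smul_zero, mul_zero, add_zero, zero_add, sub_zero, zero_sub, mul_one]
    have h6 := half b l
    have h7 := Line.e2 b l
    have h8 := Line.e1 b l
    have h9 := Line.e0 b l
    linear_combination (-(algebraMap K R σ * (w * (w - 1) * (w - algebraMap K R t)) * (Chart.e (p3 t) w 0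
      + Chart.e (p3 t) w 1 + Chart.e (p3 t) w 2))) * h6
      - (algebraMap K R σ * ((w - 1) * (w - algebraMap K R t))) * h9
      - (algebraMap K R σ * (w * (w - algebraMap K R t))) * h8 - (algebraMap K R σ * (w * (w - 1))) * h7
  have hDy := hdy D' DR hD' _ hDu
  have hδy := hdy δ' δR hδ' _ hδu
  have hDf : ∀ a0 a1 : R, D' (am a0 + am a1 * y) = am (DR a0) + am (DL t σ w DR a1) * y := by
    intro a0 a1
    rw [map_add, hD', Derivation.leibniz, hDy, hD']
    unfold DL
    simp only [map_add, map_mul, smul_eq_mul]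
    ring
  have hδf : ∀ a0 a1 : R, δ' (am a0 + am a1 * y) = am (δR a0) + am (nL t w δR a1) * y := by
    intro a0 a1
    rw [map_add, hδ', Derivation.leibniz, hδy, hδ', nL_eq]
    simp only [map_add, map_mul, smul_eq_mul]
    ring
  obtain ⟨T, hT⟩ : ∃ T, T = am (algebraMap K R t) := ⟨_, rfl⟩
  obtain ⟨s', hs⟩ : ∃ s', s' = am (algebraMap K R σ) := ⟨_, rfl⟩
  have hcc : ∀ a, am (algebraMap K R (cc t σ a)) = cc T s' a := by
    intro a
    fin_cases a <;> simp [cc, hT, hs]
  have hcs : ∀ α : Fin 4 → ℂ, am (algebraMap K R (∑ a, algebraMap ℂ K (α a) * cc t σ a))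
      = ∑ a, algebraMap ℂ (Kum 2 u) (α a) * cc T s' a := by
    intro α
    rw [map_sum, map_sum]
    apply Finset.sum_congr rfl
    intro a _
    rw [map_mul, map_mul, hcc, ← IsScalarTower.algebraMap_apply, hamC]
  have hrel1 : s' ^ 3 * (T * (1 - T)) = 1 := by
    rw [hT, hs, ← map_one am, ← map_one (algebraMap K R), ← map_sub, ← map_sub, ← map_mul, ← map_mul,
      ← map_pow, ← map_pow, ← map_mul, ← map_mul, b.rel]
  refine ⟨Kum 2 u, inferInstance, inferInstance, T, s', am w, y, fun i => am (Chart.e (p3 t) w i), D', δ',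
    ⟨?_, hrel1, ?_, ?_, ?_, ?_, ?_, ?_, ?_, ?_, ?_, ?_, ?_, ?_, ?_, ?_, ?_⟩⟩
  · refine ⟨0, 1, fun h => ?_⟩
    have h1 := (hcu 1 0 (by simp [← h])).1
    have := b.nontriv
    exact one_ne_zero (α := K) (Line.inj b l (by rw [map_one, h1]))
  · rw [← map_mul, Line.e0 b l, map_one]
  · rw [← map_one am, ← map_sub, ← map_mul, Line.e1 b l]
  · rw [hT, ← map_sub, ← map_mul, Line.e2 b l, map_one]
  · rw [hy2, (congrArg am hu), hP, hs, hT]
    simp only [map_mul, map_sub, map_one]
  · rw [hT, hD', l.DK, b.Dt, map_one, map_one]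
  · rw [hD', l.Dw, map_zero]
  · rw [hT, hδ', l.chart.hK, map_zero]
  · rw [hδ', l.chart.hx, map_one]
  · intro A _ _ t' σ' w' y' h1 h2 h3 h4 h5
    obtain ⟨f, hf1, hf2⟩ := b.lift A t' σ' h1
    obtain ⟨g, hg1, hg2⟩ := l.lift A f w' h2 h3 (by rw [hf1]; exact h4)
    have h6 : y' ^ 2 = g u := by
      rw [h5, hu, hP]
      simp only [map_mul, map_sub, map_one, hg1, hg2, hf1, hf2]
    refine ⟨Kum.lift 2 u g y' h6, ?_, ?_, ?_, ?_⟩
    · rw [hT, ham, Kum.lift_R, hg1, hf1]
    · rw [hs, ham, Kum.lift_R, hg1, hf2]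
    · rw [ham, Kum.lift_R, hg2]
    · rw [hy, Kum.lift_z]
  · intro A _ _ f g h1 h2 h3 h4
    apply Kum.hom_ext
    · intro r
      have h5 := l.hom_ext A (f.comp (IsScalarTower.toAlgHom ℂ R (Kum 2 u)))
        (g.comp (IsScalarTower.toAlgHom ℂ R (Kum 2 u))) (fun k => by
          have h6 := b.hom_ext A ((f.comp (IsScalarTower.toAlgHom ℂ R (Kum 2 u))).comp
            (IsScalarTower.toAlgHom ℂ K R)) ((g.comp (IsScalarTower.toAlgHom ℂ R (Kum 2 u))).comp
            (IsScalarTower.toAlgHom ℂ K R)) (by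
              change f (algebraMap R (Kum 2 u) (algebraMap K R t)) = g (algebraMap R (Kum 2 u) (algebraMap K R t))
              rw [← ham, ← hT, h1]) (by
              change f (algebraMap R (Kum 2 u) (algebraMap K R σ)) = g (algebraMap R (Kum 2 u) (algebraMap K R σ))
              rw [← ham, ← hs, h2])
          exact congrArg (fun F => F k) h6) (by
          change f (algebraMap R (Kum 2 u) w) = g (algebraMap R (Kum 2 u) w)
          rw [← ham, h3])
      exact congrArg (fun F => F r) h5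
    · rw [← hy, h4]
  · intro M _ _ _ _ Δ a
    letI : Module R M := Module.compHom M am
    have hsm : ∀ (c : R) (x : M), c • x = am c • x := fun c x => rfl
    haveI : IsScalarTower ℂ R M := ⟨fun r c x => by
      rw [hsm, hsm, Algebra.smul_def, map_mul, hamC, mul_smul, algebraMap_smul]⟩
    have key := Kum.deriv_ext 2 u (by norm_num) huU (D1 := Δ)
      (D2 := (LinearMap.toSpanSingleton (Kum 2 u) M (Δ T)).compDer D'
        + (LinearMap.toSpanSingleton (Kum 2 u) M (Δ (am w))).compDer δ') (fun r => by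
        let Δ0 : Derivation ℂ R M :=
          { toFun := fun r => Δ (am r)
            map_add' := fun a b => by rw [map_add, map_add]
            map_smul' := fun r a => by
              have h1 : am (r • a) = r • am a := by
                rw [Algebra.smul_def, map_mul, hamC, ← Algebra.smul_def]
              change Δ (am (r • a)) = r • Δ (am a)
              rw [h1]
              exact Δ.map_smul r (am a)
            map_one_eq_zero' := by
              change Δ (am 1) = 0
              rw [map_one, Derivation.map_one_eq_zero]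
            leibniz' := fun a b => by
              change Δ (am (a * b)) = am a • Δ (am b) + am b • Δ (am a)
              rw [map_mul, Derivation.leibniz] }
        have h := l.gen M Δ0 r
        change Δ (am r) = am (DR r) • Δ (am (algebraMap K R t)) + am (δR r) • Δ (am w) at h
        change Δ (algebraMap R (Kum 2 u) r) = D' (algebraMap R (Kum 2 u) r) • Δ T
          + δ' (algebraMap R (Kum 2 u) r) • Δ (am w)
        rw [← ham, hD', hδ', h, hT]) a
    exact key
  · intro f h1 h2
    obtain ⟨f0, f1, hf⟩ := hco f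
    rw [hf, hDf] at h1
    rw [hf, hδf] at h2
    obtain ⟨h3, h4⟩ := hcu _ _ h1
    obtain ⟨h5, h6⟩ := hcu _ _ h2
    obtain ⟨_, _, c, hc⟩ := Line.even_indep b l (h := f0) (α := 0) (β := 0) (by rw [h3]; simp)
      (by rw [h5]; simp)
    refine ⟨c, ?_⟩
    rw [hf, Line.odd_inj b l h6, map_zero, zero_mul, add_zero, hc, hamC]
  · intro F G h
    obtain ⟨F0, F1, hF⟩ := hco F
    obtain ⟨G0, G1, hG⟩ := hco G
    rw [hF, hG, hDf, hδf] at h
    obtain ⟨h1, h2⟩ := hcu (DR G0 - δR F0) (DL t σ w DR G1 - nL t w δR F1) (by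
      rw [map_sub, map_sub]
      linear_combination h)
    obtain ⟨h3, α, β, h4, h5⟩ := Line.even_closed b l (sub_eq_zero.1 h1)
    obtain ⟨h6, h7, h8⟩ := Line.odd_closed b l (sub_eq_zero.1 h2)
    refine ⟨am h3 + am h6 * y, α, β, ?_, ?_⟩
    · rw [hDf, hF, h4, h7, map_sub, map_add, hcs, map_mul, hamC]
      ring
    · rw [hδf, hG, h5, h8, map_add, map_sum]
      have : ∑ x, am (algebraMap ℂ R (β x) * Chart.e (p3 t) w x)
        = ∑ i, algebraMap ℂ (Kum 2 u) (β i) * am (Chart.e (p3 t) w i) := by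
        apply Finset.sum_congr rfl
        intro i _
        rw [map_mul, hamC]
      rw [this]
      ring
  · intro h α β h1 h2
    obtain ⟨f0, f1, hf⟩ := hco h
    rw [hf, hDf] at h1
    rw [hf, hδf] at h2
    have h3 := (hcu (DR f0 - (algebraMap K R (∑ a, algebraMap ℂ K (α a) * cc t σ a)
      - algebraMap ℂ R (β 2) * Chart.e (p3 t) w 2)) (DL t σ w DR f1) (by
        rw [map_sub, map_sub, hcs, map_mul, hamC]
        linear_combination h1)).1
    have h4 := (hcu (δR f0 - ∑ i, algebraMap ℂ R (β i) * Chart.e (p3 t) w i) (nL t w δR f1) (by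
        have : am (∑ x, algebraMap ℂ R (β x) * Chart.e (p3 t) w x)
          = ∑ i, algebraMap ℂ (Kum 2 u) (β i) * am (Chart.e (p3 t) w i) := by
          rw [map_sum]
          apply Finset.sum_congr rfl
          intro i _
          rw [map_mul, hamC]
        rw [map_sub, this]
        linear_combination h2)).1
    obtain ⟨h5, h6, _⟩ := Line.even_indep b l (sub_eq_zero.1 h3) (sub_eq_zero.1 h4)
    exact ⟨h5, h6⟩
  · intro F G γ h
    obtain ⟨F0, F1, hF⟩ := hco F
    obtain ⟨G0, G1, hG⟩ := hco G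
    rw [hF, hG, hDf, hδf] at h
    apply Line.even_indep2 b l (F := F0) (G := G0)
    have h1 := (hcu (DR G0 - δR F0 - ∑ i, algebraMap K R (∑ a, algebraMap ℂ K (γ a i) * cc t σ a)
      * Chart.e (p3 t) w i) (DL t σ w DR G1 - nL t w δR F1) (by
        have : am (∑ i, algebraMap K R (∑ a, algebraMap ℂ K (γ a i) * cc t σ a) * Chart.e (p3 t) w i)
          = ∑ i, (∑ a, algebraMap ℂ (Kum 2 u) (γ a i) * cc T s' a) * am (Chart.e (p3 t) w i) := by
          rw [map_sum]
          apply Finset.sum_congr rfl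
          intro i _
          rw [map_mul, hcs]
        rw [map_sub, map_sub, map_sub, this]
        linear_combination h)).1
    exact sub_eq_zero.1 h1

theorem exists_surf : ∃ (S : Type) (_ : CommRing S) (_ : Algebra ℂ S) (t σ w y : S) (e : Fin 3 → S)
      (D δ : Derivation ℂ S S), Surf t σ w y e D δ := by
  obtain ⟨K, _, _, t, σ, D, b⟩ := exists_base
  obtain ⟨R, _, _, _, _, w, DR, δR, l⟩ := exists_line b
  exact exists_surf_of b l

end Pool.Agent.MPdc7581
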