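import Pool.Agent.MPdc7581.Final

/-!
# Uniqueness of the algebraic de Rham algebra
-/

namespace Pool.Agent.MPdc7581

namespace CDGA

/-- the identity -/
def Hom.id' (A : CDGA) : Hom A A := ⟨AlgHom.id ℂ A.A, fun h => h, fun _ => rfl⟩

/-- the composite -/
def Hom.comp' {A B E : CDGA} (g : Hom B E) (f : Hom A B) : Hom A E :=
  ⟨g.f.comp f.f, fun h => g.map_gr (f.map_gr h), fun a => by
    change g.f (f.f (A.d a)) = E.d (g.f (f.f a))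
    rw [f.map_d, g.map_d]⟩

lemma IsDeRham.unique {S : Type} [CommRing S] [Algebra ℂ S] {Ω Ω' : CDGA} {ι : S →ₐ[ℂ] Ω.A}
    {ι' : S →ₐ[ℂ] Ω'.A} (h : IsDeRham Ω ι) (h' : IsDeRham Ω' ι') : ∃ f : Hom Ω Ω', f.QuasiIso := by
  obtain ⟨f, hf, -⟩ := h.2 Ω' ι' h'.1
  obtain ⟨g, hg, -⟩ := h'.2 Ω ι h.1
  have hf' : ∀ s, f.f (ι s) = ι' s := hf
  have hg' : ∀ s, g.f (ι' s) = ι s := hg
  have h1 : ∀ a, g.f (f.f a) = a := by
    have k := (h.2 Ω ι h.1).unique (y₁ := Hom.comp' g f) (y₂ := Hom.id' Ω) (fun s => by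
      change g.f (f.f (ι s)) = ι s
      rw [hf', hg']) (fun s => rfl)
    intro a
    have := congrArg (fun F : Hom Ω Ω => F.f a) k
    exact this
  have h2 : ∀ a, f.f (g.f a) = a := by
    have k := (h'.2 Ω' ι' h'.1).unique (y₁ := Hom.comp' f g) (y₂ := Hom.id' Ω') (fun s => by
      change f.f (g.f (ι' s)) = ι' s
      rw [hg', hf']) (fun s => rfl)
    intro a
    have := congrArg (fun F : Hom Ω' Ω' => F.f a) k
    exact this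
  refine ⟨f, fun p => ⟨?_, ?_⟩⟩
  · rintro a - - ⟨b, hb⟩
    exact ⟨g.f b, by rw [← g.map_d, hb, h1]⟩
  · intro b hb hd
    exact ⟨g.f b, g.map_gr hb, by rw [← g.map_d, hd, map_zero], 0, by rw [h2, map_zero, add_zero]⟩

end CDGA

theorem milnor_A3_all : (∃ (Ω : CDGA) (ι : MilnorRing 3 →ₐ[ℂ] Ω.A), CDGA.IsDeRham Ω ι) ∧
    ∀ (Ω : CDGA) (ι : MilnorRing 3 →ₐ[ℂ] Ω.A), CDGA.IsDeRham Ω ι → Ω.Formal ∧ Ω.OneFormal := by
  obtain ⟨Ω0, ι0, h0, hf, -⟩ := milnor_A3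
  refine ⟨⟨Ω0, ι0, h0⟩, fun Ω ι h => ?_⟩
  have hF : Ω.Formal := by
    obtain ⟨H, hH, hr⟩ := hf
    exact ⟨H, hH, Relation.EqvGen.trans _ _ _ (Relation.EqvGen.rel _ _ (h.unique h0)) hr⟩
  exact ⟨hF, hF.oneFormal⟩

end Pool.Agent.MPdc7581
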